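import Pool.Agent.Work.MP_052a41_ue.Interface

set_option autoImplicit false

/-! # MP_052a41_an, upper estimates, block AP (helper78)

The theorem for complemented subspaces of `C(K)`. -/

namespace Pool.UE

open Finset Filter Topology

/-- the abstract form: `E` is isometric to a complemented subspace of `C(K)` -/
theorem ap_aux (h1 : Stmt_WS) (h2 : Stmt_MA) (h3 : Stmt_SG) (K : Type) [MetricSpace K]
    [CompactSpace K] (E : Type) [NormedAddCommGroup E] [NormedSpace ℝ E]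
    (hsep : TopologicalSpace.SeparableSpace (StrongDual ℝ E))
    (i : E →ₗᵢ[ℝ] C(K, ℝ)) (P : C(K, ℝ) →L[ℝ] E) (hP : ∀ x, P (i x) = x)
    (Y : Submodule ℝ E) (hY : ¬ FiniteDimensional ℝ Y) (r : ℝ) (hr : 1 ≤ r) :
    ∃ (z : ℕ → C(K, ℝ)) (C : ℝ), (∀ j, z j ∈ Y.map i.toLinearMap ∧ ‖z j‖ = 1) ∧
      ∀ (m : ℕ) (β : ℕ → ℝ), ‖∑ j ∈ range m, β j • z j‖ ≤
        C * (∑ j ∈ range m, |β j| ^ r) ^ (1 / r) := by
  obtain ⟨y, hy, hyw⟩ := h1 E Y hY
  have hnorm : ∀ n, ‖i (y n)‖ = 1 := fun n => by rw [i.norm_map]; exact (hy n).2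
  have hlim : ∀ s, Tendsto (fun n => i (y n) s) atTop (𝓝 0) := fun s =>
    hyw ((ContinuousMap.evalCLM ℝ s).comp i.toContinuousLinearMap)
  have hR : ∀ h : K, ∃ x : StrongDual ℝ E, ‖x‖ ≤ 1 ∧ ∀ n, x (P (i (y n))) = i (y n) h := by
    intro h
    refine ⟨(ContinuousMap.evalCLM ℝ h).comp i.toContinuousLinearMap, ?_, ?_⟩
    · refine ContinuousLinearMap.opNorm_le_bound _ zero_le_one fun x => ?_
      rw [one_mul, ← i.norm_map]
      exact ContinuousMap.norm_coe_le_norm (i x) h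
    · intro n
      rw [hP (y n)]
      rfl
  have hno := h2 K E P (fun n => i (y n)) hnorm hlim 1 zero_le_one hR r hr
  obtain ⟨z, C, hz, hC⟩ := h3 K (fun n => i (y n)) r hr hno
  refine ⟨z, C, fun j => ⟨?_, (hz j).2⟩, hC⟩
  have hle : Submodule.span ℝ (Set.range fun n => i (y n)) ≤ Y.map i.toLinearMap := by
    rw [Submodule.span_le]
    rintro _ ⟨n, rfl⟩
    exact Submodule.mem_map_of_mem (hy n).1
  exact hle (hz j).1

theorem blk_AP (h1 : Stmt_WS) (h2 : Stmt_MA) (h3 : Stmt_SG) : Stmt_AP := by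
  intro K _ _ X hX hsep Y hYX hY r hr
  obtain ⟨P, hP⟩ := hX
  have hY' : ¬ FiniteDimensional ℝ (Y.comap X.subtype) := by
    intro hfd
    haveI : Module.Finite ℝ (Y.comap X.subtype) := hfd
    exact hY (Module.Finite.equiv (Submodule.comapSubtypeEquivOfLe hYX))
  obtain ⟨z, C, hz, hC⟩ := ap_aux h1 h2 h3 K X hsep
    { toLinearMap := X.subtype, norm_map' := fun _ => rfl } P (fun x => hP x)
    (Y.comap X.subtype) hY' r hr
  refine ⟨z, C, fun j => ⟨?_, (hz j).2⟩, hC⟩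
  obtain ⟨x, hx, hxz⟩ := (hz j).1
  rw [← hxz]
  exact hx

end Pool.UE
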