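import Mathlib
import Pool.Agent.Work.MP_052a41_an_helper68.Core

set_option autoImplicit false

/-! # MP_052a41_an, upper estimates: interface (helper50)

THEOREM (target).  `K` compact metric, `X` complemented in `C(K)`, `X*` separable, `Y` an infinite
dimensional subspace of `X`, `1 ≤ r`.  Then there are unit vectors `z_0, z_1, ...` of `Y` and `C`
with `‖∑ β_j z_j‖ ≤ C (∑ |β_j| ^ r) ^ (1 / r)` for all finite scalar sequences.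

Write `theorem Pool.UE.blk_X : Stmt_X` in the file `X.lean` of this folder; blocks may import only
this file (and Mathlib) unless the row says otherwise.  No double quotes inside comments. -/

namespace Pool.UE

open Finset Filter Topology

/-! ## Part 1: lattice seminorms, pieces -/

/-- restriction of a finitely supported function to the finite set `B` -/
noncomputable def res (B : Finset ℕ) (a : ℕ →₀ ℝ) : ℕ →₀ ℝ := a.filter (· ∈ B)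

/-- the mass of `B` -/
noncomputable def mass (P : ℕ →₀ ℝ) (B : Finset ℕ) : ℝ := ∑ n ∈ B, P n

/-- `N` behaves like a lattice norm on the positive cone of `c_00` -/
structure IsLat (N : (ℕ →₀ ℝ) → ℝ) : Prop where
  nonneg : ∀ a, 0 ≤ N a
  add : ∀ a b, N (a + b) ≤ N a + N b
  smul : ∀ (c : ℝ) (a : ℕ →₀ ℝ), 0 ≤ c → N (c • a) = c * N a
  mono : ∀ a b, 0 ≤ a → a ≤ b → N a ≤ N b
  single : ∀ n, N (Finsupp.single n 1) = 1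

/-- the sets `F 0, F 1, ...` are successive -/
def Succv (F : ℕ → Finset ℕ) : Prop := ∀ i j, i < j → ∀ a ∈ F i, ∀ b ∈ F j, a < b

/-- no sequence of successive positive normalized blocks has an upper `r`-estimate -/
def NoUp (N : (ℕ →₀ ℝ) → ℝ) (r : ℝ) : Prop :=
  ∀ (F : ℕ → Finset ℕ) (z : ℕ → (ℕ →₀ ℝ)), Succv F →
    (∀ j, 0 ≤ z j ∧ (z j).support ⊆ F j ∧ N (z j) = 1) →
    ∀ C : ℝ, ∃ (m : ℕ) (β : ℕ → ℝ), (∀ j, 0 ≤ β j) ∧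
      C * (∑ j ∈ range m, (β j) ^ r) ^ (1 / r) < N (∑ j ∈ range m, β j • z j)

/-- a piece: a positive normalized block `z` on `F` dominated by a probability `P` with exponent
`1 / r`, and flat over the sets of the family `𝒥` -/
structure Piece (N : (ℕ →₀ ℝ) → ℝ) (r κ η : ℝ) (F : Finset ℕ) (𝒥 : Set (Finset ℕ))
    (z P : ℕ →₀ ℝ) : Prop where
  z0 : 0 ≤ z
  P0 : 0 ≤ P
  zs : z.support ⊆ F
  Ps : P.support ⊆ F
  Nz : N z = 1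
  Pm : mass P F = 1
  Js : ∀ J ∈ 𝒥, J ⊆ F
  U : ∀ B ⊆ F, N (res B z) ≤ 2 * (mass P B) ^ (1 / r) + κ
  Fl : ∀ J ∈ 𝒥, N (res J z) ≤ η

/-- the families of sets attached to the first `m` pieces -/
def JJ (F : ℕ → Finset ℕ) (𝒥 : ℕ → Set (Finset ℕ)) : ℕ → Set (Finset ℕ)
  | 0 => {∅}
  | m + 1 => {J | ∃ J₁ ∈ JJ F 𝒥 m, ∃ J₂ ∈ 𝒥 m, J = J₁ ∪ J₂} ∪ {F m}

/-- the vector of the datum `(β, B)` -/
noncomputable def vv (m : ℕ) (z : ℕ → (ℕ →₀ ℝ)) (β : ℕ → ℝ) (B : ℕ → Finset ℕ) : ℕ →₀ ℝ :=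
  ∑ j ∈ range m, β j • res (B j) (z j)

/-- the energy (`r`-th power of the size) of the datum `(β, B)` -/
noncomputable def en (r : ℝ) (m : ℕ) (P : ℕ → (ℕ →₀ ℝ)) (β : ℕ → ℝ) (B : ℕ → Finset ℕ) : ℝ :=
  ∑ j ∈ range m, (β j) ^ r * mass (P j) (B j)

/-- admissible data -/
def Adm (m : ℕ) (τ : ℕ → ℝ) (F : ℕ → Finset ℕ) (P : ℕ → (ℕ →₀ ℝ)) (β : ℕ → ℝ)
    (B : ℕ → Finset ℕ) : Prop :=
  ∀ j < m, 0 ≤ β j ∧ B j ⊆ F j ∧ (β j = 0 ∨ τ j ≤ mass (P j) (B j))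

/-- (OPT) the almost optimal datum.
Proof.  Let `S` be the set of the numbers `N (vv m z β B)`, `Adm m τ F P β B`, `en r m P β B ≤ 1`.
It is bounded by `∑_{j<m} (τ j) ^ (-(1/r))`: if `β j ≠ 0` then `(β j)^r * τ j ≤ en ≤ 1`, and
`N (res B (z j)) ≤ N (z j) = 1` (`res B a ≤ a` for `0 ≤ a`).  Let `Θ = sSup S`.
`β0 / (∑ β0^r)^(1/r)` with `B = F` shows `Λ ≤ Θ` (the denominator is positive, otherwise
`β0 j = 0` for `j < m` and `N 0 = 0`; `mass (P j) (F j) = 1 ≥ τ j`; `res (F j) (z j) = z j`).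
Take `(β, B)` with `Θ / 2 ≤ N (vv m z β B)`, `en ≤ 1`.  `en > 0`, otherwise (terms nonnegative,
`τ j > 0`) all `β j = 0` and `N (vv ..) = N 0 = 0 < Λ / 2`.  Last claim: if `en' = 0` then again
`vv' = 0`; otherwise divide `β'` by `en' ^ (1/r)`: admissible with energy 1, so
`N (vv') ≤ Θ * en' ^ (1/r) ≤ 2 * N (vv ..) * en' ^ (1/r)`. -/
def Stmt_OPT : Prop :=
  ∀ (N : (ℕ →₀ ℝ) → ℝ), IsLat N → ∀ (r : ℝ), 0 < r → ∀ (m : ℕ) (τ : ℕ → ℝ) (F : ℕ → Finset ℕ)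
    (z P : ℕ → (ℕ →₀ ℝ)), (∀ j, 0 < τ j ∧ τ j ≤ 1) →
    (∀ j, 0 ≤ z j ∧ (z j).support ⊆ F j ∧ N (z j) = 1 ∧ 0 ≤ P j ∧ mass (P j) (F j) = 1) →
    ∀ (Λ : ℝ) (β0 : ℕ → ℝ), 0 < Λ → (∀ j, 0 ≤ β0 j) →
      Λ * (∑ j ∈ range m, (β0 j) ^ r) ^ (1 / r) < N (∑ j ∈ range m, β0 j • z j) →
    ∃ (β : ℕ → ℝ) (B : ℕ → Finset ℕ), Adm m τ F P β B ∧ 0 < en r m P β B ∧
      en r m P β B ≤ 1 ∧ Λ / 2 ≤ N (vv m z β B) ∧
      ∀ (β' : ℕ → ℝ) (B' : ℕ → Finset ℕ), Adm m τ F P β' B' →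
        N (vv m z β' B') ≤ 2 * N (vv m z β B) * (en r m P β' B') ^ (1 / r)

/-- (CLU) the domination property of the combination.  Here `C` is any finite set of indices.
Proof.  `res C (vv m z β B) = vv m z β (fun j => B j ∩ C)`; split the indices `j < m`:
good if `τ j ≤ mass (P j) (B j ∩ C)`, otherwise bad.  Good part: `β' j = β j` for good `j`,
`0` otherwise, `B' j = B j ∩ C` is admissible, `en' ≤ ∑_{j<m} (β j)^r * mass (P j) (B j ∩ C)`.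
Bad part (`β j ≠ 0`, so `τ j ≤ mass (P j) (B j) ≤ 1`): with `t = mass (P j) (B j ∩ C) < τ j`,
`s = 1/r' - 1/r`:
`N (res (B j ∩ C) (z j)) ≤ 2 t^(1/r') + κs j`, `t^(1/r') = t^(1/r) t^s ≤
(mass (P j) (B j))^(1/r) (τ j)^s`, `β j (mass (P j) (B j))^(1/r) ≤ en^(1/r) ≤ 1`,
`β j ≤ (τ j)^(-(1/r))`, so `β j * N (..) ≤ 2 (τ j)^s + (τ j)^(-(1/r)) κs j ≤ 2^{-j-1}`. -/
def Stmt_CLU : Prop :=
  ∀ (N : (ℕ →₀ ℝ) → ℝ), IsLat N → ∀ (r' r : ℝ), 1 ≤ r' → r' < r →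
    ∀ (m : ℕ) (τ κs ηs : ℕ → ℝ) (F : ℕ → Finset ℕ) (𝒥 : ℕ → Set (Finset ℕ))
    (z P : ℕ → (ℕ →₀ ℝ)), Succv F → (∀ j, 0 < τ j ∧ τ j ≤ 1) →
    (∀ j, 2 * (τ j) ^ (1 / r' - 1 / r) ≤ (1 / 2 : ℝ) ^ (j + 2)) →
    (∀ j, κs j ≤ (τ j) ^ (1 / r) * (1 / 2 : ℝ) ^ (j + 2)) →
    (∀ j, Piece N r' (κs j) (ηs j) (F j) (𝒥 j) (z j) (P j)) →
    ∀ (β : ℕ → ℝ) (B : ℕ → Finset ℕ), Adm m τ F P β B → en r m P β B ≤ 1 →
      (∀ (β' : ℕ → ℝ) (B' : ℕ → Finset ℕ), Adm m τ F P β' B' →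
        N (vv m z β' B') ≤ 2 * N (vv m z β B) * (en r m P β' B') ^ (1 / r)) →
      ∀ C : Finset ℕ, N (res C (vv m z β B)) ≤
        2 * N (vv m z β B) * (en r m P β (fun j => B j ∩ C)) ^ (1 / r) + 1

/-- (CLF) flatness of the combination.
Proof.  By induction on `k ≤ m`: for `J ∈ JJ F 𝒥 k`, `J ⊆ (range k).biUnion F` and
`∑_{j<k} β j * N (res J (res (B j) (z j))) ≤ 3 + ∑_{j<k} 2^{-j-2}`, using
`β j ≤ (τ j)^(-(1/r))` when `β j ≠ 0`, `β j * N (res J₂ (z j)) ≤ (τ j)^(-(1/r)) ηs j ≤ 2^{-j-2}`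
for `J₂ ∈ 𝒥 j`, and for `J = F k`: `β k N (res (B k) (z k)) ≤
2 β k (mass (P k) (B k))^(1/r') + β k κs k ≤ 2 en^(1/r) + 1 ≤ 3` (`mass ≤ 1`, `r' ≤ r`), all
other terms being zero (`F j`, `F k` disjoint, `B j ⊆ F j`).  Better: no reset gives
`≤ ∑_{j<k} 2^{-j-2}`, a reset gives `≤ 3 + ∑ ..`. -/
def Stmt_CLF : Prop :=
  ∀ (N : (ℕ →₀ ℝ) → ℝ), IsLat N → ∀ (r' r : ℝ), 1 ≤ r' → r' < r →
    ∀ (m : ℕ) (τ κs ηs : ℕ → ℝ) (F : ℕ → Finset ℕ) (𝒥 : ℕ → Set (Finset ℕ))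
    (z P : ℕ → (ℕ →₀ ℝ)), Succv F → (∀ j, 0 < τ j ∧ τ j ≤ 1) →
    (∀ j, κs j ≤ (τ j) ^ (1 / r) * (1 / 2 : ℝ) ^ (j + 2)) →
    (∀ j, ηs j ≤ (τ j) ^ (1 / r) * (1 / 2 : ℝ) ^ (j + 2)) →
    (∀ j, Piece N r' (κs j) (ηs j) (F j) (𝒥 j) (z j) (P j)) →
    ∀ (β : ℕ → ℝ) (B : ℕ → Finset ℕ), Adm m τ F P β B → en r m P β B ≤ 1 →
      ∀ J ∈ JJ F 𝒥 m, J ⊆ (range m).biUnion F ∧ N (res J (vv m z β B)) ≤ 4

/-- (CL) the combination lemma: infinitely many pieces with exponent `r'` give a piece with the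
larger exponent `r`.  Proof from OPT, CLU, CLF (hypotheses of the block):
`τ j = ((1/2)^(j+3))^(1/(1/r'-1/r))`, `κs j = ηs j = (τ j)^(1/r) (1/2)^(j+2)`,
`Λ = 2/κ + 8/η`, `m, β0` from `NoUp N r` with `C = Λ`, `(β, B)` from OPT,
`y = (N (vv))⁻¹ • vv m z β B`, `Q = (en r m P β B)⁻¹ • ∑_{j<m} (β j)^r • res (B j) (P j)`.
`mass Q C = (en)⁻¹ * en r m P β (fun j => B j ∩ C) ≥ en r m P β (fun j => B j ∩ C)`. -/
def Stmt_CL : Prop :=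
  ∀ (N : (ℕ →₀ ℝ) → ℝ), IsLat N → ∀ (r' r : ℝ), 1 ≤ r' → r' < r → NoUp N r →
    ∀ κ η : ℝ, 0 < κ → 0 < η →
    ∃ κs ηs : ℕ → ℝ, (∀ j, 0 < κs j ∧ 0 < ηs j) ∧
      ∀ (F : ℕ → Finset ℕ) (𝒥 : ℕ → Set (Finset ℕ)) (z P : ℕ → (ℕ →₀ ℝ)), Succv F →
        (∀ j, Piece N r' (κs j) (ηs j) (F j) (𝒥 j) (z j) (P j)) →
        ∃ (m : ℕ) (y Q : ℕ →₀ ℝ), Piece N r κ η ((range m).biUnion F) (JJ F 𝒥 m) y Q

/-- (NU) if there is no upper `r0`-estimate then there is no upper `r`-estimate, `r ≥ r0`.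
Proof.  For `β ≥ 0`, `(∑ β^r)^(1/r) ≤ (∑ β^r0)^(1/r0)`; use the constant `max C 0`. -/
def Stmt_NU : Prop :=
  ∀ (N : (ℕ →₀ ℝ) → ℝ) (r0 r : ℝ), 1 ≤ r0 → r0 ≤ r → NoUp N r0 → NoUp N r

/-! ## Part 2: the abstract recursion -/

/-- states -/
abbrev St := ℕ →₀ (ℝ × ℝ)

/-- the gain of an entry `(a, c)` -/
noncomputable def q (p : ℝ × ℝ) : ℝ := p.1 * |p.2| / 2

/-- admissible grids -/
def IsGrid (G : ℕ → Finset (ℝ × ℝ)) : Prop :=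
  ∀ k, (0, 0) ∈ G k ∧ ∀ p ∈ G k, 0 ≤ p.1 ∧ p.1 ≤ 1 ∧ |p.2| ≤ 1

/-- the reaching property of `Z` -/
def RR {Λ : Type} (N : (ℕ →₀ ℝ) → ℝ) (r0 : ℝ) (G : ℕ → Finset (ℝ × ℝ)) (Fv : Λ → St → ℝ)
    (D : Λ → Λ) (top Z : Λ) : Prop :=
  ∀ (r κ η δ : ℝ), r0 < r → 0 < κ → 0 < η → 0 < δ →
    ∀ (N₀ : ℕ) (𝒮 : Finset St) (𝒜 : Finset Λ),
    ∃ (F : Finset ℕ) (𝒥 : Set (Finset ℕ)) (z P : ℕ →₀ ℝ), Piece N r κ η F 𝒥 z P ∧
      (∀ n ∈ F, N₀ ≤ n) ∧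
      ∀ s ∈ 𝒮, ∀ t ∈ F.finsupp G,
        (∃ J ∈ 𝒥, min (Fv Z s) (Fv top s + ∑ k ∈ F \ J, q (t k)) - δ ≤ Fv top (s + t)) ∧
        ∀ Γ ∈ 𝒜, min (Fv Γ s + ∑ k ∈ F, q (t k)) (Fv (D Γ) s) - δ ≤ Fv Γ (s + t)

/-- the one step hypothesis -/
def Step {Λ : Type} (G : ℕ → Finset (ℝ × ℝ)) (Fv : Λ → St → ℝ) (D : Λ → Λ) : Prop :=
  ∀ (Γ : Λ) (s : St) (δ : ℝ), 0 < δ → ∀ᶠ n in atTop, ∀ p ∈ G n,
    min (Fv Γ s + q p) (Fv (D Γ) s) - δ ≤ Fv Γ (s + Finsupp.single n p)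

/-- (RT) the top has the reaching property.
Proof.  Given the data, choose `n ≥ N₀` for which the step inequalities hold for all `s ∈ 𝒮` and
all `Γ ∈ insert top 𝒜`; `F = {n}`, `𝒥 = {∅}`, `z = P = single n 1`.  A `t ∈ F.finsupp G` is
`single n (t n)`, `t n ∈ G n`.  First clause: `Fv (D top) s ≥ Fv top s` and `q ≥ 0`. -/
def Stmt_RT : Prop :=
  ∀ (Λ : Type) [PartialOrder Λ] (N : (ℕ →₀ ℝ) → ℝ) (r0 : ℝ) (G : ℕ → Finset (ℝ × ℝ))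
    (Fv : Λ → St → ℝ) (D : Λ → Λ) (top : Λ), IsLat N → 1 ≤ r0 → IsGrid G →
    (∀ x, D x ≤ x) → (∀ x y u, x ≤ y → Fv y u ≤ Fv x u) → Step G Fv D →
    RR N r0 G Fv D top top

/-- (SQ) sequences of pieces: from the reaching property of `Z`, an infinite sequence of pieces
such that the inequalities hold along all partial sums.
Proof.  Recursion (`Nat.rec` on the pairs (piece, finite set of states)): `𝒮_0 = 𝒮`,
`𝒮_{j+1} = 𝒮_j + (F_j).finsupp G` (image2 of addition), `N_0 = N₀`,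
`N_{j+1} = max N_j (sup F_j + 1)`; piece `j` is given by `RR .. Z` with the exponent `r`, the
parameters `κs j, ηs j, δs j`, the number `N_j`, the states `𝒮_j` and the finite set `𝒜`.
Only `s_j = s + t_0 + .. + t_{j-1}`, `t_i ∈ (F_i).finsupp G`, matter. -/
def Stmt_SQ : Prop :=
  ∀ (Λ : Type) (N : (ℕ →₀ ℝ) → ℝ) (r0 : ℝ) (G : ℕ → Finset (ℝ × ℝ))
    (Fv : Λ → St → ℝ) (D : Λ → Λ) (top Z : Λ), RR N r0 G Fv D top Z →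
    ∀ (r : ℝ) (κs ηs δs : ℕ → ℝ), r0 < r → (∀ j, 0 < κs j ∧ 0 < ηs j ∧ 0 < δs j) →
    ∀ (N₀ : ℕ) (𝒮 : Finset St) (𝒜 : Finset Λ),
    ∃ (F : ℕ → Finset ℕ) (𝒥 : ℕ → Set (Finset ℕ)) (z P : ℕ → (ℕ →₀ ℝ)), Succv F ∧
      (∀ j, Piece N r (κs j) (ηs j) (F j) (𝒥 j) (z j) (P j)) ∧
      (∀ j, ∀ n ∈ F j, N₀ ≤ n) ∧
      ∀ s ∈ 𝒮, ∀ T : ℕ → St, (∀ i, T i ∈ (F i).finsupp G) → ∀ j : ℕ,
        (∃ J ∈ 𝒥 j, min (Fv Z (s + ∑ i ∈ range j, T i))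
            (Fv top (s + ∑ i ∈ range j, T i) + ∑ k ∈ F j \ J, q (T j k)) - δs j ≤
            Fv top (s + ∑ i ∈ range (j + 1), T i)) ∧
        ∀ Γ ∈ 𝒜, min (Fv Γ (s + ∑ i ∈ range j, T i) + ∑ k ∈ F j, q (T j k))
            (Fv (D Γ) (s + ∑ i ∈ range j, T i)) - δs j ≤ Fv Γ (s + ∑ i ∈ range (j + 1), T i)

/-- (SM) the inequalities are additive along a sequence.  Pure real arithmetic: `Fv` enters only
through the values `Fv Γ (u j)`.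
Proof.  Put `E j = ∑_{i<j} δs i`, `S j = ∑_{i<j} Q i`.  (1) for `Γ ∈ 𝒜`:
`b (j+1) ≥ min (b j + Q j) (b2 j) - δs j ≥ b j - δs j` for `b j = Fv (D Γ) (u j)`,
`b2 j = Fv (D (D Γ)) (u j) ≥ b j`, so `b j ≥ b 0 - E j`; (2) `a j = Fv Γ (u j) ≥
min (a 0 + S j) (b 0) - E j` by induction. -/
def Stmt_SM : Prop :=
  ∀ (a b b2 Q δs : ℕ → ℝ), (∀ j, 0 ≤ Q j) → (∀ j, 0 ≤ δs j) → (∀ j, b j ≤ b2 j) →
    (∀ j, min (a j + Q j) (b j) - δs j ≤ a (j + 1)) →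
    (∀ j, min (b j + Q j) (b2 j) - δs j ≤ b (j + 1)) →
    ∀ j, min (a 0 + ∑ i ∈ range j, Q i) (b 0) - ∑ i ∈ range j, δs i ≤ a j

/-- (SJ) the first clause along a sequence.
`f j = Fv top (u j)`, `g j = Fv Z (u j)`, `V = Fv (D Z) (u 0)`, `w k = q (t k) ≥ 0`.
Proof.  Induction on `j`: `∃ J ∈ JJ F 𝒥 j, min V (f 0 + ∑ k ∈ (range j).biUnion F \ J, w k) -
E j ≤ f j`.  Start: `J = ∅`.  Step: let `J₂ ∈ 𝒥 j` be given by the hypothesis `hf`.  If the minimum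
there is the second term take `J ∪ J₂`; if it is `g j ≥ min (f 0 + ∑_{i<j} ∑_{k∈F i} w k) V - E j`
take `J = F j`. (`∑ over biUnion \ F j ≤ ∑_{i<j} ∑_{k ∈ F i} w k`.) -/
def Stmt_SJ : Prop :=
  ∀ (F : ℕ → Finset ℕ) (𝒥 : ℕ → Set (Finset ℕ)) (f g δs w : ℕ → ℝ) (V : ℝ),
    (∀ k, 0 ≤ w k) → (∀ j, 0 ≤ δs j) →
    (∀ j, min (f 0 + ∑ i ∈ range j, ∑ k ∈ F i, w k) V - ∑ i ∈ range j, δs i ≤ g j) →
    (∀ j, ∃ J ∈ 𝒥 j, min (g j) (f j + ∑ k ∈ F j \ J, w k) - δs j ≤ f (j + 1)) →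
    ∀ j, ∃ J ∈ JJ F 𝒥 j,
      min V (f 0 + ∑ k ∈ (range j).biUnion F \ J, w k) - ∑ i ∈ range j, δs i ≤ f j

/-- (RD) the reaching property passes to the derived element.
Proof from CL, NU, SQ, SM, SJ (hypotheses of the block): given `r, κ, η, δ, N₀, 𝒮, 𝒜`, put
`r' = (r0 + r) / 2`, `κs, ηs` from CL, `δs j = δ (1/2)^(j+1)`, apply SQ with
`𝒜' = 𝒜 ∪ D 𝒜 ∪ {Z, D Z}`, then CL gives `m, y, Q`.  For `t ∈ ((range m).biUnion F).finsupp G`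
put `T i = t.filter (· ∈ F i)` for `i < m` and `0` for `i ≥ m`; `∑_{i<m} T i = t`.
With `u j = s + ∑_{i<j} T i`: SM for `Γ ∈ 𝒜` (`b2 = Fv (D (D Γ))`), SM for `Z` gives the
hypothesis on `g` in SJ (`Fv Z s ≥ Fv top s`), SJ gives the first clause. `∑_{i<m} δs i ≤ δ`. -/
def Stmt_RD : Prop :=
  ∀ (Λ : Type) [PartialOrder Λ] (N : (ℕ →₀ ℝ) → ℝ) (r0 : ℝ) (G : ℕ → Finset (ℝ × ℝ))
    (Fv : Λ → St → ℝ) (D : Λ → Λ) (top Z : Λ), IsLat N → 1 ≤ r0 → NoUp N r0 → IsGrid G →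
    (∀ x, D x ≤ x) → (∀ x, x ≤ top) → (∀ x y u, x ≤ y → Fv y u ≤ Fv x u) →
    RR N r0 G Fv D top Z → RR N r0 G Fv D top (D Z)

/-- (RC) the reaching property passes to limits of chains.
Proof.  Given `r, κ, η, δ, N₀, 𝒮, 𝒜`: for every `u ∈ 𝒮` there is `x_u ∈ c` with
`Fv z u - δ/2 ≤ Fv x_u u`; a finite nonempty subset of a chain has a least element `x`
(`c` is nonempty); `Fv z u - δ/2 ≤ Fv x u` for all `u ∈ 𝒮`.  Use `RR .. x` with `δ/2`. -/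
def Stmt_RC : Prop :=
  ∀ (Λ : Type) [PartialOrder Λ] (N : (ℕ →₀ ℝ) → ℝ) (r0 : ℝ) (G : ℕ → Finset (ℝ × ℝ))
    (Fv : Λ → St → ℝ) (D : Λ → Λ) (top z : Λ) (c : Set Λ), IsChain (· ≤ ·) c → c.Nonempty →
    (∀ x y u, x ≤ y → Fv y u ≤ Fv x u) →
    (∀ u a, a < Fv z u → ∃ x ∈ c, a ≤ Fv x u) →
    (∀ x ∈ c, RR N r0 G Fv D top x) → RR N r0 G Fv D top z

/-- (ZO) Zorn: there is a fixed point of `D` with the reaching property.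
Proof from RT, RD, RC exactly as theorem `NoLq.game` in
`Work/MP_052a41_an_helper68/Game.lean`. -/
def Stmt_ZO : Prop :=
  ∀ (Λ : Type) [PartialOrder Λ] (N : (ℕ →₀ ℝ) → ℝ) (r0 : ℝ) (G : ℕ → Finset (ℝ × ℝ))
    (Fv : Λ → St → ℝ) (D : Λ → Λ) (top : Λ), IsLat N → 1 ≤ r0 → NoUp N r0 → IsGrid G →
    (∀ x, D x ≤ x) → (∀ x, x ≤ top) → (∀ x y u, x ≤ y → Fv y u ≤ Fv x u) →
    Step G Fv D →
    (∀ c : Set Λ, IsChain (· ≤ ·) c → c.Nonempty →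
      ∃ z, (∀ x ∈ c, z ≤ x) ∧ ∀ u a, a < Fv z u → ∃ x ∈ c, a ≤ Fv x u) →
    ∃ m : Λ, D m = m ∧ RR N r0 G Fv D top m

/-! ## Part 3: the concrete potential -/

/-- truncation at height `L` -/
noncomputable def tr {K : Type} [TopologicalSpace K] (L : ℝ) (f : C(K, ℝ)) : C(K, ℝ) :=
  ⟨fun s => max (-L) (min L (f s)), by fun_prop⟩

section

variable {K : Type} [MetricSpace K] [CompactSpace K] {W : Type} [NormedAddCommGroup W]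
  [NormedSpace ℝ W] (T : C(K, ℝ) →L[ℝ] W) (f : ℕ → C(K, ℝ)) (L : ℝ)

/-- the test vectors -/
noncomputable def gg (n : ℕ) (p : ℝ × ℝ) : W := T (p.1 • (f n - tr (L * |p.2|) (f n)))

/-- `x` satisfies the constraints of the state `s` -/
def sat (s : St) (x : WeakDual ℝ W) : Prop := ∀ k, (s k).2 ^ 2 ≤ (s k).2 * x (T (f k))

/-- the potential -/
noncomputable def Psi (s : St) (x : WeakDual ℝ W) : ℝ := s.sum fun k p => |x (gg T f L k p)|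

/-- the capped infimum of the potential -/
noncomputable def FV (Γ : Set (WeakDual ℝ W)) (s : St) : ℝ :=
  sInf (insert 1 {v | ∃ x ∈ Γ, sat T f s x ∧ v = Psi T f L s x})

/-- the norm `N (a) = ‖∑ a_n |f_n|‖` -/
noncomputable def NN (a : ℕ →₀ ℝ) : ℝ := ‖a.sum fun n c => c • |f n|‖

end

/-- (WN) functionals are small on the functions below `|f n|`.
Proof.  Riesz representation (`Pool.NC.B0` in `Work/MP_052a41_nc/B0.lean`, import it):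
`μ = z ∘ T` is a difference of two finite measures; `|μ g| ≤ ∫ |f n| dm1 + ∫ |f n| dm2`, which
tends to `0` by dominated convergence. -/
def Stmt_WN : Prop :=
  ∀ (K : Type) [MetricSpace K] [CompactSpace K] (f : ℕ → C(K, ℝ)), (∀ n, ‖f n‖ ≤ 1) →
    (∀ s, Tendsto (fun n => f n s) atTop (𝓝 0)) → ∀ (μ : StrongDual ℝ C(K, ℝ)) (ρ : ℝ), 0 < ρ →
    ∀ᶠ n in atTop, ∀ g : C(K, ℝ), (∀ s, |g s| ≤ |f n s|) → |μ g| ≤ ρ

/-- (LT) `NN f` is a lattice norm. `NN f (single n 1) = ‖|f n|‖ = ‖f n‖`.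
`a.sum (fun n c => c • |f n|)` is additive and homogeneous in `a` (it is
`Finsupp.linearCombination ℝ (fun n => |f n|) a`). -/
def Stmt_LT : Prop :=
  ∀ (K : Type) [MetricSpace K] [CompactSpace K] (f : ℕ → C(K, ℝ)), (∀ n, ‖f n‖ = 1) →
    IsLat (NN f)

/-- (ST) the step lemma.  Proof: see the docstring; it is `NoLq.step_lemma` of
`Work/MP_052a41_an_helper68/Core2.lean` with small changes.
Suppose that for infinitely many `n` there are `p_n = (a_n, c_n)` and `x_n ∈ Γ` with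
`sat (s + single n p_n) x_n` and
`Psi (s + single n p_n) x_n < min (FV Γ s + q p_n) (FV (Der ε Γ) s) - δ`.  Let `z ∈ Γ` be the
limit of `x_n` along an ultrafilter.  For `n ∉ s.support`:
`Psi (s + single n p) x = Psi s x + |x (gg n p)|` and `sat (s + single n p) x` implies `sat s x` up
to index `n` (so `sat s z` in the limit: `(s k).2 ^ 2 ≤ (s k).2 * z (T (f k))`, closed condition,
`k ≠ n` eventually).  `Psi s` is a finite sum of continuous functions.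
If `z ∈ Der ε Γ`: `FV (Der ε Γ) s ≤ Psi s z = lim Psi s x_n ≤ FV (Der ε Γ) s - δ`.
Otherwise eventually `‖x_n - z‖ ≤ ε`; put `w = (x_n - z) ∘ T`, `‖w‖ ≤ ε ‖T‖`, so
`|w (tr (L|c|) f_n)| ≤ ε ‖T‖ L |c| ≤ |c| / 2`; `c * w (f_n) ≥ c^2 - |c| |z (T f_n)|`, hence
`|w (f_n - tr (L|c|) f_n)| ≥ |c|/2 - |z (T f_n)|` and
`|x_n (gg n (a, c))| ≥ a |c| / 2 - |z (T f_n)| - |z (T (f_n - tr (L|c|) f_n))| ≥ q - 2 ρ` with
`ρ = δ/8` for large `n` by `hW` (`|f s - tr L f s| ≤ |f s|`).  Contradiction with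
`Psi s x_n → Psi s z ≥ FV Γ s`. -/
def Stmt_ST : Prop :=
  ∀ (K : Type) [MetricSpace K] [CompactSpace K] (W : Type) [NormedAddCommGroup W]
    [NormedSpace ℝ W] (T : C(K, ℝ) →L[ℝ] W) (f : ℕ → C(K, ℝ)) (L ε : ℝ), 0 ≤ L →
    0 ≤ ε → ε * ‖T‖ * L ≤ 1 / 2 →
    (∀ (z : WeakDual ℝ W) (ρ : ℝ), 0 < ρ → ∀ᶠ n in atTop, ∀ g : C(K, ℝ),
      (∀ s, |g s| ≤ |f n s|) → |z (T g)| ≤ ρ) →
    ∀ (Γ : Set (WeakDual ℝ W)), IsCompact Γ → ∀ (s : St) (δ : ℝ), 0 < δ →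
    ∀ᶠ n in atTop, ∀ p : ℝ × ℝ, 0 ≤ p.1 → p.1 ≤ 1 → |p.2| ≤ 1 →
      min (FV T f L Γ s + q p) (FV T f L (NoLq.Der ε Γ) s) - δ ≤
        FV T f L Γ (s + Finsupp.single n p)

/-- (CH) compactness of chains: a nonempty chain of weak* closed subsets of the compact set `ball`.
Proof: as `hchain` in `NoLq.core` (`Work/MP_052a41_an_helper68/Core2.lean`): if `FV s u < a` for
all `s ∈ c` then the compact sets `s ∩ {x | sat u x ∧ Psi u x ≤ a}` are nonempty and directed, so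
there is a point in the intersection, contradicting `a < FV (⋂ c) u`. -/
def Stmt_CH : Prop :=
  ∀ (K : Type) [MetricSpace K] [CompactSpace K] (W : Type) [NormedAddCommGroup W]
    [NormedSpace ℝ W] (T : C(K, ℝ) →L[ℝ] W) (f : ℕ → C(K, ℝ)) (L : ℝ)
    (ball : Set (WeakDual ℝ W)), IsCompact ball →
    ∀ c : Set (Set (WeakDual ℝ W)), c.Nonempty → IsChain (· ⊆ ·) c →
      (∀ Γ ∈ c, IsClosed Γ ∧ Γ ⊆ ball) →
      ∀ (u : St) (a : ℝ), a < FV T f L (⋂ Γ ∈ c, Γ) u → ∃ Γ ∈ c, a ≤ FV T f L Γ u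

/-- (GR) the grids: multiples of `2^{-k-8}`.
Proof.  `M = 2^(k+8)`; `G k` = all `(i / M, j / M)`, `0 ≤ i ≤ M`, `-M ≤ j ≤ M`;
`a = ⌊u M⌋ / M`; `c = sign v * ⌊|v| M⌋ / M`. -/
def Stmt_GR : Prop :=
  ∃ G : ℕ → Finset (ℝ × ℝ), IsGrid G ∧ ∀ (k : ℕ) (u v : ℝ), 0 ≤ u → u ≤ 1 → |v| ≤ 1 →
    ∃ p ∈ G k, p.1 ≤ u ∧ u - p.1 ≤ (1 / 2 : ℝ) ^ (k + 8) ∧ |p.2| ≤ |v| ∧
      |v| - |p.2| ≤ (1 / 2 : ℝ) ^ (k + 8) ∧ p.2 ^ 2 ≤ p.2 * v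

/-- (TS) the test state at a point `h` where `NN f z` is attained.
Proof.  `‖∑ z_k |f_k|‖ = 1` is attained at a point `h` (`K` is nonempty since the norm is 1):
`∑_{k∈F} z_k |f_k h| = 1`.  `z_k ≤ 1` because `z_k = NN f (z_k • single k 1) ≤ NN f z`.  Take `p_k`
from the grid for `u = z_k`, `v = f_k h`; `t_k = p_k` if `η₁ P_k ≤ a_k |c_k|` and `0` otherwise.
`a_k |c_k| ≥ z_k |f_k h| - 2 (1/2)^(k+8)`, so
`∑_{k∈F} a_k |c_k| ≥ 1 - 1/64`, the removed entries have total `≤ η₁ ∑ P_k = η₁`, and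
`∑_{k∈J} a_k |c_k| ≤ ∑_{k∈J} z_k |f_k h| ≤ NN f (res J z) ≤ η`. -/
def Stmt_TS : Prop :=
  ∀ (K : Type) [MetricSpace K] [CompactSpace K] (f : ℕ → C(K, ℝ)), (∀ n, ‖f n‖ = 1) →
    ∀ (G : ℕ → Finset (ℝ × ℝ)), IsGrid G →
    (∀ (k : ℕ) (u v : ℝ), 0 ≤ u → u ≤ 1 → |v| ≤ 1 →
      ∃ p ∈ G k, p.1 ≤ u ∧ u - p.1 ≤ (1 / 2 : ℝ) ^ (k + 8) ∧ |p.2| ≤ |v| ∧
        |v| - |p.2| ≤ (1 / 2 : ℝ) ^ (k + 8) ∧ p.2 ^ 2 ≤ p.2 * v) →
    ∀ (r κ η η₁ : ℝ) (F : Finset ℕ) (𝒥 : Set (Finset ℕ)) (z P : ℕ →₀ ℝ), 0 < η₁ →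
    Piece (NN f) r κ η F 𝒥 z P →
    ∃ (h : K) (t : St), t ∈ F.finsupp G ∧ (∀ k, (t k).2 ^ 2 ≤ (t k).2 * f k h) ∧
      (∀ k, (t k).1 ≤ z k) ∧ (∀ k, η₁ * P k ≤ (t k).1 * |(t k).2| ∨ t k = 0) ∧
      ∀ J ∈ 𝒥, (1 - 1 / 64 - η₁ - η) / 2 ≤ ∑ k ∈ F \ J, q (t k)

/-- (UB) the upper bound for the potential of a test state.
Proof.  With signs `σ_k`, `Psi t x = x (T (∑_{k∈F} σ_k a_k (f_k - tr (L|c_k|) f_k)))
≤ ‖x‖ ‖T‖ sup_s ∑_k a_k |f_k s - tr (L|c_k|) f_k s|`.  Fix `s`, `A` = set of `k ∈ F` with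
`t k ≠ 0`, `L |c_k| < |f_k s|`; the other terms vanish (`|f s| ≤ L` implies `tr L f s = f s`), and
`|f s - tr L f s| ≤ |f s|`.  For `k ∈ A`: `L η₁ P_k ≤ L a_k |c_k| ≤ a_k |f_k s| ≤ z_k |f_k s|`, so
`L η₁ mass P A ≤ ∑ z_k |f_k s| ≤ NN f z = 1`; and
`∑_{k∈A} a_k |f_k s| ≤ NN f (res A z) ≤ 2 (mass P A)^(1/r) + κ ≤ 2 (1/(L η₁))^(1/r) + κ`. -/
def Stmt_UB : Prop :=
  ∀ (K : Type) [MetricSpace K] [CompactSpace K] (W : Type) [NormedAddCommGroup W]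
    [NormedSpace ℝ W] (T : C(K, ℝ) →L[ℝ] W) (f : ℕ → C(K, ℝ)) (L : ℝ), 0 < L →
    ∀ (r κ η η₁ : ℝ) (F : Finset ℕ) (𝒥 : Set (Finset ℕ)) (z P : ℕ →₀ ℝ), 0 < η₁ → 1 ≤ r →
    0 ≤ κ → Piece (NN f) r κ η F 𝒥 z P →
    ∀ (t : St), t.support ⊆ F → (∀ k, 0 ≤ (t k).1 ∧ (t k).1 ≤ z k) →
      (∀ k, η₁ * P k ≤ (t k).1 * |(t k).2| ∨ t k = 0) →
      ∀ x : WeakDual ℝ W, Psi T f L t x ≤ ‖WeakDual.toStrongDual x‖ * ‖T‖ *
        (2 * (1 / (L * η₁)) ^ (1 / r) + κ)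

/-- (MA) the main theorem for operators.
Proof from ZO, ST, CH, GR, TS, UB, LT, WN (hypotheses of the block), as `NoLq.core`: suppose
`NoUp (NN f) r0`.  `η₁ = 1/10`, `r = r0 + 1`; `L` so large that
`R ‖T‖ 2 (1/(L η₁))^(1/r) ≤ 1/16`, `ε = 1 / (2 L (‖T‖ + 1))`, `κ` with `R ‖T‖ κ ≤ 1/16`,
`η = δ = 1/100`.  `Λ` = closed subsets of the ball of radius `R` in the weak dual.  ZO gives a
fixed point `m` of `Der ε`, `m = ∅` by `NoLq.Der_ne`; `FV ∅ 0 = 1`.  `RR` for `m` with `𝒮 = {0}`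
gives a piece; TS gives `h, t`; `x_h` satisfies `sat t x_h`, so
`1/4 ≤ FV top (0 + t) ≤ Psi t x_h ≤ R ‖T‖ (..) ≤ 1/8`. -/
def Stmt_MA : Prop :=
  ∀ (K : Type) [MetricSpace K] [CompactSpace K] (W : Type) [NormedAddCommGroup W]
    [NormedSpace ℝ W] [TopologicalSpace.SeparableSpace (StrongDual ℝ W)]
    (T : C(K, ℝ) →L[ℝ] W) (f : ℕ → C(K, ℝ)), (∀ n, ‖f n‖ = 1) →
    (∀ s, Tendsto (fun n => f n s) atTop (𝓝 0)) →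
    ∀ R : ℝ, 0 ≤ R → (∀ h : K, ∃ x : StrongDual ℝ W, ‖x‖ ≤ R ∧ ∀ n, x (T (f n)) = f n h) →
    ∀ r0 : ℝ, 1 ≤ r0 → ¬ NoUp (NN f) r0

/-! ## Part 4: application -/

/-- (WS) weakly null unit vectors in an infinite dimensional subspace of a space with separable
dual.  Proof: a dense sequence `φ_i` of `X*`; unit vectors `y_n ∈ Y ∩ ⋂_{i<n} ker φ_i` (finite
codimension in `Y`); `φ (y_n) → 0` for all `φ` by density. -/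
def Stmt_WS : Prop :=
  ∀ (E : Type) [NormedAddCommGroup E] [NormedSpace ℝ E]
    [TopologicalSpace.SeparableSpace (StrongDual ℝ E)] (Y : Submodule ℝ E),
    ¬ FiniteDimensional ℝ Y →
    ∃ y : ℕ → E, (∀ n, y n ∈ Y ∧ ‖y n‖ = 1) ∧
      ∀ φ : StrongDual ℝ E, Tendsto (fun n => φ (y n)) atTop (𝓝 0)

/-- (SG) from an upper estimate of the moduli to vectors of the span.
Proof.  `¬ NoUp` gives successive `F j`, `z j ≥ 0`, `NN f (z j) = 1` and `C` with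
`NN f (∑ β_j z_j) ≤ C (∑ β_j^r)^(1/r)` for all `β ≥ 0`.  Let `h_j` be a point where
`∑_k z_j(k) |f_k|` attains its norm `1` and `w_j = ∑_k z_j(k) sign(f_k(h_j)) f_k`; `‖w_j‖ = 1`
(`|w_j| ≤ ∑ z_j(k) |f_k|` and `w_j (h_j) = 1`), and
`|∑ β_j w_j| ≤ ∑ |β_j| ∑_k z_j(k) |f_k|` pointwise, norm `= NN f (∑ |β_j| z_j)`. -/
def Stmt_SG : Prop :=
  ∀ (K : Type) [MetricSpace K] [CompactSpace K] (f : ℕ → C(K, ℝ)) (r : ℝ), 1 ≤ r →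
    ¬ NoUp (NN f) r →
    ∃ (z : ℕ → C(K, ℝ)) (C : ℝ), (∀ j, z j ∈ Submodule.span ℝ (Set.range f) ∧ ‖z j‖ = 1) ∧
      ∀ (m : ℕ) (β : ℕ → ℝ), ‖∑ j ∈ range m, β j • z j‖ ≤
        C * (∑ j ∈ range m, |β j| ^ r) ^ (1 / r)

/-- (AP) the theorem.  Proof from WS, MA, SG: `X` as `W`, `T` = the projection onto `X`, `f n` =
the unit vectors of `WS` (in the subspace `Y.comap X.subtype` of `X`), `x_h` = evaluation at `h`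
restricted to `X`, `R = 1`. -/
def Stmt_AP : Prop :=
  ∀ (K : Type) [MetricSpace K] [CompactSpace K] (X : Submodule ℝ C(K, ℝ)),
    X.ClosedComplemented → TopologicalSpace.SeparableSpace (StrongDual ℝ X) →
    ∀ Y : Submodule ℝ C(K, ℝ), Y ≤ X → ¬ FiniteDimensional ℝ Y → ∀ r : ℝ, 1 ≤ r →
    ∃ (z : ℕ → C(K, ℝ)) (C : ℝ), (∀ j, z j ∈ Y ∧ ‖z j‖ = 1) ∧
      ∀ (m : ℕ) (β : ℕ → ℝ), ‖∑ j ∈ range m, β j • z j‖ ≤
        C * (∑ j ∈ range m, |β j| ^ r) ^ (1 / r)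

end Pool.UE
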