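import Mathlib
import Pool.Agent.Work.MP_052a41_ue.Interface

set_option autoImplicit false

/-! # MP_052a41_an, block CH (helper50) -/

namespace Pool.UE

open Finset Filter Topology Set

theorem CH_Psi_nonneg {K : Type} [MetricSpace K] [CompactSpace K] {W : Type}
    [NormedAddCommGroup W] [NormedSpace ℝ W] (T : C(K, ℝ) →L[ℝ] W) (f : ℕ → C(K, ℝ)) (L : ℝ)
    (s : St) (x : WeakDual ℝ W) : 0 ≤ Psi T f L s x :=
  Finset.sum_nonneg fun _ _ => abs_nonneg _

theorem blk_CH : Stmt_CH := by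
  intro K _ _ W _ _ T f L ball hbc c hne hc hcl u a ha
  obtain ⟨s0, hs0⟩ := hne
  by_contra hcon
  push Not at hcon
  have hbdd : ∀ Γ : Set (WeakDual ℝ W),
      BddBelow (insert (1 : ℝ) {v | ∃ x ∈ Γ, sat T f u x ∧ v = Psi T f L u x}) := by
    intro Γ
    refine ⟨0, ?_⟩
    rintro v (rfl | ⟨x, _, _, rfl⟩)
    · exact zero_le_one
    · exact CH_Psi_nonneg T f L u x
  have ha1 : a ≤ 1 := ha.le.trans (csInf_le (hbdd _) (mem_insert _ _))
  have hex : ∀ Γ ∈ c, ∃ x ∈ Γ, sat T f u x ∧ Psi T f L u x < a := by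
    intro Γ hΓ
    have h1 := hcon Γ hΓ
    obtain ⟨v, hv, hva⟩ := exists_lt_of_csInf_lt (insert_nonempty _ _) h1
    rcases hv with rfl | ⟨x, hx, hs, rfl⟩
    · exact absurd ha1 (not_le.2 hva)
    · exact ⟨x, hx, hs, hva⟩
  have hball : IsClosed ball := hbc.isClosed
  let V : c → Set (WeakDual ℝ W) := fun s => s.1 ∩ {x | sat T f u x ∧ Psi T f L u x ≤ a}
  have hne' : Nonempty c := ⟨⟨s0, hs0⟩⟩
  have hvc : IsClosed {x : WeakDual ℝ W | sat T f u x ∧ Psi T f L u x ≤ a} := by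
    have e1 : {x : WeakDual ℝ W | sat T f u x ∧ Psi T f L u x ≤ a} =
        (⋂ k, {x : WeakDual ℝ W | (u k).2 ^ 2 ≤ (u k).2 * x (T (f k))}) ∩
          {x | Psi T f L u x ≤ a} := by
      ext x; simp [sat, mem_iInter]
    rw [e1]
    refine (isClosed_iInter fun k => isClosed_le continuous_const ?_).inter
      (isClosed_le ?_ continuous_const)
    · exact continuous_const.mul (WeakDual.eval_continuous _)
    · exact continuous_finsetSum _ fun k _ => (WeakDual.eval_continuous _).abs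
  have hW : (⋂ s, V s).Nonempty := by
    refine IsCompact.nonempty_iInter_of_directed_nonempty_isCompact_isClosed V ?_ ?_ ?_ ?_
    · rintro ⟨s, hs⟩ ⟨t, ht⟩
      rcases hc.total hs ht with h | h
      · exact ⟨⟨s, hs⟩, le_rfl, fun x hx => ⟨h hx.1, hx.2⟩⟩
      · exact ⟨⟨t, ht⟩, fun x hx => ⟨h hx.1, hx.2⟩, le_rfl⟩
    · rintro ⟨s, hs⟩
      obtain ⟨x, hx1, hx2, hx3⟩ := hex s hs
      exact ⟨x, hx1, hx2, hx3.le⟩
    · rintro ⟨s, hs⟩
      exact (hbc.of_isClosed_subset (hcl s hs).1 (hcl s hs).2).inter_right hvc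
    · rintro ⟨s, hs⟩
      exact (hcl s hs).1.inter hvc
  obtain ⟨x, hx⟩ := hW
  rw [mem_iInter] at hx
  have hx0 := hx ⟨s0, hs0⟩
  have hxz : x ∈ ⋂ Γ ∈ c, Γ := by
    simp only [mem_iInter]
    intro s hs
    exact (hx ⟨s, hs⟩).1
  have : FV T f L (⋂ Γ ∈ c, Γ) u ≤ Psi T f L u x :=
    csInf_le (hbdd _) (Or.inr ⟨x, hxz, hx0.2.1, rfl⟩)
  have h5 := hx0.2.2
  linarith

end Pool.UE
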