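import Mathlib
import Pool.Agent.Work.MP_052a41_ue.Interface

set_option autoImplicit false

/-! # MP_052a41_an, block CL: the combination lemma (helper45) -/

namespace Pool.UE

open Finset Filter Topology

theorem CL_res_add (B : Finset ℕ) (a b : ℕ →₀ ℝ) : res B (a + b) = res B a + res B b := by
  unfold res
  exact Finsupp.filter_add

theorem CL_res_smul (B : Finset ℕ) (c : ℝ) (a : ℕ →₀ ℝ) : res B (c • a) = c • res B a := by
  unfold res
  exact Finsupp.filter_smul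

theorem CL_res_nonneg (B : Finset ℕ) (a : ℕ →₀ ℝ) (ha : 0 ≤ a) : 0 ≤ res B a := by
  intro n
  unfold res
  rw [Finsupp.filter_apply]
  split_ifs
  · exact ha n
  · exact le_refl _

theorem CL_res_support (B : Finset ℕ) (a : ℕ →₀ ℝ) : (res B a).support ⊆ B := by
  intro n hn
  unfold res at hn
  rw [Finsupp.support_filter, mem_filter] at hn
  exact hn.2

theorem CL_mass_smul (c : ℝ) (P : ℕ →₀ ℝ) (C : Finset ℕ) : mass (c • P) C = c * mass P C := by
  unfold mass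
  rw [mul_sum]
  rfl

theorem CL_mass_sum {m : ℕ} (P : ℕ → (ℕ →₀ ℝ)) (C : Finset ℕ) :
    mass (∑ j ∈ range m, P j) C = ∑ j ∈ range m, mass (P j) C := by
  unfold mass
  rw [sum_comm]
  refine sum_congr rfl fun n _ => ?_
  exact Finsupp.finsetSum_apply _ _ _

theorem CL_mass_res (B C : Finset ℕ) (P : ℕ →₀ ℝ) : mass (res B P) C = mass P (B ∩ C) := by
  unfold mass res
  simp only [Finsupp.filter_apply]
  rw [← sum_filter, inter_comm, filter_mem_eq_inter]

theorem CL_mass_nonneg (P : ℕ →₀ ℝ) (hP : 0 ≤ P) (C : Finset ℕ) : 0 ≤ mass P C :=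
  sum_nonneg fun n _ => hP n

theorem blk_CL (h1 : Stmt_OPT) (h2 : Stmt_CLU) (h3 : Stmt_CLF) : Stmt_CL := by
  intro N hN r' r hr' hr'r hNo κ η hκ hη
  classical
  have hr'0 : 0 < r' := by linarith
  have hr0 : 0 < r := by linarith
  have hs : 0 < 1 / r' - 1 / r := by
    have := one_div_lt_one_div_of_lt hr'0 hr'r
    linarith
  set s : ℝ := 1 / r' - 1 / r with hsdef
  set τ : ℕ → ℝ := fun j => ((1 / 2 : ℝ) ^ (j + 3)) ^ (1 / s) with hτ
  have hτ0 : ∀ j, 0 < τ j := fun j => by positivity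
  have hτ1 : ∀ j, τ j ≤ 1 := fun j =>
    Real.rpow_le_one (by positivity) (pow_le_one₀ (by norm_num) (by norm_num)) (by positivity)
  have hτs : ∀ j, 2 * (τ j) ^ s ≤ (1 / 2 : ℝ) ^ (j + 2) := by
    intro j
    have : (τ j) ^ s = (1 / 2 : ℝ) ^ (j + 3) := by
      simp only [hτ]
      rw [← Real.rpow_mul (by positivity), one_div_mul_cancel hs.ne', Real.rpow_one]
    rw [this, pow_succ _ (j + 2)]
    linarith
  set κs : ℕ → ℝ := fun j => (τ j) ^ (1 / r) * (1 / 2 : ℝ) ^ (j + 2) with hκs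
  have hκs0 : ∀ j, 0 < κs j := fun j =>
    mul_pos (Real.rpow_pos_of_pos (hτ0 j) _) (by positivity)
  refine ⟨κs, κs, fun j => ⟨hκs0 j, hκs0 j⟩, ?_⟩
  intro F 𝒥 z P hS hP
  obtain ⟨m, β0, hβ0, hβ⟩ := hNo F z hS (fun j => ⟨(hP j).z0, (hP j).zs, (hP j).Nz⟩)
    (2 / κ + 8 / η)
  have hΛ : 0 < 2 / κ + 8 / η := by positivity
  obtain ⟨β, B, hA, hen, hen1, hΛN, hmax⟩ := h1 N hN r hr0 m τ F z P
    (fun j => ⟨hτ0 j, hτ1 j⟩)
    (fun j => ⟨(hP j).z0, (hP j).zs, (hP j).Nz, (hP j).P0, (hP j).Pm⟩)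
    (2 / κ + 8 / η) β0 hΛ hβ0 hβ
  have hU := h2 N hN r' r hr' hr'r m τ κs κs F 𝒥 z P hS (fun j => ⟨hτ0 j, hτ1 j⟩) hτs
    (fun j => le_refl _) hP β B hA hen1 hmax
  have hF := h3 N hN r' r hr' hr'r m τ κs κs F 𝒥 z P hS (fun j => ⟨hτ0 j, hτ1 j⟩)
    (fun j => le_refl _) (fun j => le_refl _) hP β B hA hen1
  set V : ℕ →₀ ℝ := vv m z β B with hV
  set e : ℝ := en r m P β B with he
  have hNV : 0 < N V := by linarith
  have hV0 : 0 ≤ V := by
    rw [hV]
    unfold vv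
    refine sum_nonneg fun j hj => ?_
    exact smul_nonneg (hA j (mem_range.1 hj)).1 (CL_res_nonneg _ _ (hP j).z0)
  have hVs : V.support ⊆ (range m).biUnion F := by
    intro n hn
    rw [hV] at hn
    unfold vv at hn
    obtain ⟨j, hj, hnj⟩ := mem_biUnion.1 (Finsupp.support_finsetSum hn)
    refine mem_biUnion.2 ⟨j, hj, ?_⟩
    exact (hA j (mem_range.1 hj)).2.1 (CL_res_support _ _ (Finsupp.support_smul hnj))
  set R : ℕ →₀ ℝ := ∑ j ∈ range m, (β j) ^ r • res (B j) (P j) with hR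
  have hR0 : 0 ≤ R := by
    rw [hR]
    refine sum_nonneg fun j hj => ?_
    exact smul_nonneg (Real.rpow_nonneg (hA j (mem_range.1 hj)).1 _)
      (CL_res_nonneg _ _ (hP j).P0)
  have hRs : R.support ⊆ (range m).biUnion F := by
    intro n hn
    rw [hR] at hn
    obtain ⟨j, hj, hnj⟩ := mem_biUnion.1 (Finsupp.support_finsetSum hn)
    refine mem_biUnion.2 ⟨j, hj, ?_⟩
    exact (hA j (mem_range.1 hj)).2.1 (CL_res_support _ _ (Finsupp.support_smul hnj))
  have hRm : ∀ C : Finset ℕ, mass R C = en r m P β (fun j => B j ∩ C) := by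
    intro C
    rw [hR, CL_mass_sum]
    unfold en
    refine sum_congr rfl fun j _ => ?_
    rw [CL_mass_smul, CL_mass_res]
  have hei : 1 ≤ e⁻¹ := (one_le_inv₀ hen).2 hen1
  have hNs : ∀ a : ℕ →₀ ℝ, N ((N V)⁻¹ • a) = (N V)⁻¹ * N a := fun a =>
    hN.smul _ _ (inv_nonneg.2 hNV.le)
  have hκV : (N V)⁻¹ ≤ κ := by
    rw [inv_le_comm₀ hNV hκ]
    have : (2 / κ) / 2 ≤ N V := by
      have : 0 < 8 / η := by positivity
      linarith
    calc κ⁻¹ = (2 / κ) / 2 := by field_simp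
      _ ≤ N V := this
  have hηV : (N V)⁻¹ * 4 ≤ η := by
    have h4 : (8 / η) / 2 ≤ N V := by
      have : 0 < 2 / κ := by positivity
      linarith
    have h5 : 4 ≤ η * N V := by
      calc (4 : ℝ) = η * ((8 / η) / 2) := by field_simp; norm_num
        _ ≤ η * N V := mul_le_mul_of_nonneg_left h4 hη.le
    rw [inv_mul_le_iff₀ hNV]
    linarith
  refine ⟨m, (N V)⁻¹ • V, e⁻¹ • R, ?_⟩
  refine ⟨smul_nonneg (inv_nonneg.2 hNV.le) hV0, smul_nonneg (inv_nonneg.2 hen.le) hR0,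
    Finsupp.support_smul.trans hVs, Finsupp.support_smul.trans hRs, ?_, ?_, ?_, ?_, ?_⟩
  · rw [hNs]
    exact inv_mul_cancel₀ hNV.ne'
  · rw [CL_mass_smul, hRm]
    have : en r m P β (fun j => B j ∩ (range m).biUnion F) = e := by
      rw [he]
      unfold en
      refine sum_congr rfl fun j hj => ?_
      have : B j ∩ (range m).biUnion F = B j := by
        rw [inter_eq_left]
        exact (hA j (mem_range.1 hj)).2.1.trans (subset_biUnion_of_mem F hj)
      simp only [this]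
    rw [this]
    exact inv_mul_cancel₀ hen.ne'
  · intro J hJ
    exact (hF J hJ).1
  · intro C _
    rw [CL_res_smul, hNs, CL_mass_smul, hRm]
    have h6 := hU C
    set ec : ℝ := en r m P β (fun j => B j ∩ C) with hec
    have hec0 : 0 ≤ ec := by
      rw [hec, ← hRm C]
      exact CL_mass_nonneg _ hR0 _
    have h7 : ec ^ (1 / r) ≤ (e⁻¹ * ec) ^ (1 / r) :=
      Real.rpow_le_rpow hec0 (by nlinarith) (by positivity)
    calc (N V)⁻¹ * N (res C V) ≤ (N V)⁻¹ * (2 * N V * ec ^ (1 / r) + 1) :=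
          mul_le_mul_of_nonneg_left h6 (inv_nonneg.2 hNV.le)
      _ = 2 * ec ^ (1 / r) + (N V)⁻¹ := by field_simp
      _ ≤ 2 * (e⁻¹ * ec) ^ (1 / r) + κ := by linarith
  · intro J hJ
    rw [CL_res_smul, hNs]
    exact (mul_le_mul_of_nonneg_left (hF J hJ).2 (inv_nonneg.2 hNV.le)).trans hηV

end Pool.UE
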