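import Mathlib
import Pool.Agent.Work.MP_052a41_ue.Interface

/-!
# Block CLF: flatness of the combination
-/

set_option autoImplicit false

namespace Pool.UE

open Finset Filter Topology

theorem CLF_res_apply (B : Finset ℕ) (a : ℕ →₀ ℝ) (n : ℕ) :
    res B a n = if n ∈ B then a n else 0 := by
  unfold res
  rw [Finsupp.filter_apply]

theorem CLF_N0 (N : (ℕ →₀ ℝ) → ℝ) (hN : IsLat N) : N 0 = 0 := by
  have h := hN.smul 0 0 le_rfl
  simpa using h

theorem CLF_Nsum (N : (ℕ →₀ ℝ) → ℝ) (hN : IsLat N) (s : Finset ℕ) (f : ℕ → (ℕ →₀ ℝ)) :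
    N (∑ j ∈ s, f j) ≤ ∑ j ∈ s, N (f j) := by
  classical
  induction s using Finset.induction_on with
  | empty => simp [CLF_N0 N hN]
  | insert a s ha ih =>
    rw [Finset.sum_insert ha, Finset.sum_insert ha]
    exact (hN.add _ _).trans (by linarith)

theorem CLF_disj (F : ℕ → Finset ℕ) (hF : Succv F) (i j : ℕ) (hij : i ≠ j) (n : ℕ)
    (hi : n ∈ F i) (hj : n ∈ F j) : False := by
  rcases lt_or_gt_of_ne hij with h | h
  · exact lt_irrefl _ (hF i j h n hi n hj)
  · exact lt_irrefl _ (hF j i h n hj n hi)

theorem blk_CLF : Stmt_CLF := by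
  classical
  intro N hN r' r hr' hrr m τ κs ηs F 𝒥 z P hF hτ hκ hη hp β B hA hen J hJ
  have hr : 0 < r := by linarith
  have hr0 : (0 : ℝ) < r' := by linarith
  have hN0 := CLF_N0 N hN
  -- facts on each index
  have hmass : ∀ j < m, mass (P j) (B j) ≤ 1 := by
    intro j hj
    have h1 := (hA j hj).2.1
    have h2 : mass (P j) (B j) ≤ mass (P j) (F j) := by
      unfold mass
      exact Finset.sum_le_sum_of_subset_of_nonneg h1 (fun i _ _ => (hp j).P0 i)
    rw [(hp j).Pm] at h2
    exact h2
  have hmass0 : ∀ j, 0 ≤ mass (P j) (B j) := by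
    intro j
    unfold mass
    exact Finset.sum_nonneg (fun i _ => (hp j).P0 i)
  have hE : ∀ j < m, (β j) ^ r * mass (P j) (B j) ≤ 1 := by
    intro j hj
    have h1 : (β j) ^ r * mass (P j) (B j) ≤ en r m P β B := by
      unfold en
      exact Finset.single_le_sum (f := fun j => (β j) ^ r * mass (P j) (B j))
        (fun i hi => mul_nonneg (Real.rpow_nonneg (hA i (Finset.mem_range.mp hi)).1 _) (hmass0 i))
        (Finset.mem_range.mpr hj)
    linarith
  have hβτ : ∀ j < m, ∀ x : ℝ, x ≤ (τ j) ^ (1 / r) * (1 / 2 : ℝ) ^ (j + 2) →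
      β j * x ≤ (1 / 2 : ℝ) ^ (j + 2) := by
    intro j hj x hx
    obtain ⟨hb, hB, hc⟩ := hA j hj
    have hpow : (0 : ℝ) < (1 / 2 : ℝ) ^ (j + 2) := by positivity
    rcases hc with hc | hc
    · rw [hc, zero_mul]
      exact hpow.le
    · have h1 : (β j) ^ r * τ j ≤ 1 :=
        (mul_le_mul_of_nonneg_left hc (Real.rpow_nonneg hb _)).trans (hE j hj)
      have h2 : β j * (τ j) ^ (1 / r) ≤ 1 := by
        have h3 : β j * (τ j) ^ (1 / r) = ((β j) ^ r * τ j) ^ (1 / r) := by
          rw [Real.mul_rpow (Real.rpow_nonneg hb _) (hτ j).1.le, ← Real.rpow_mul hb,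
            mul_one_div_cancel hr.ne', Real.rpow_one]
        rw [h3]
        exact Real.rpow_le_one (mul_nonneg (Real.rpow_nonneg hb _) (hτ j).1.le) h1
          (by positivity)
      calc β j * x ≤ β j * ((τ j) ^ (1 / r) * (1 / 2 : ℝ) ^ (j + 2)) :=
            mul_le_mul_of_nonneg_left hx hb
        _ = (β j * (τ j) ^ (1 / r)) * (1 / 2 : ℝ) ^ (j + 2) := by ring
        _ ≤ 1 * (1 / 2 : ℝ) ^ (j + 2) := mul_le_mul_of_nonneg_right h2 hpow.le
        _ = (1 / 2 : ℝ) ^ (j + 2) := one_mul _
  -- the induction
  have key : ∀ k, k ≤ m → ∀ J ∈ JJ F 𝒥 k, J ⊆ (range k).biUnion F ∧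
      ∑ j ∈ range k, β j * N (res J (res (B j) (z j))) ≤
        3 + ∑ j ∈ range k, (1 / 2 : ℝ) ^ (j + 2) := by
    intro k
    induction k with
    | zero =>
      intro _ J hJ
      have : J = ∅ := by simpa [JJ] using hJ
      subst this
      simp
    | succ k ih =>
      intro hk J hJ
      have hk' : k < m := by omega
      obtain ⟨hb, hB, hc⟩ := hA k hk'
      have hJ' : (∃ J₁ ∈ JJ F 𝒥 k, ∃ J₂ ∈ 𝒥 k, J = J₁ ∪ J₂) ∨ J = F k := hJ
      rw [Finset.sum_range_succ, Finset.sum_range_succ]
      rcases hJ' with ⟨J₁, hJ₁, J₂, hJ₂, rfl⟩ | rfl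
      · obtain ⟨hs, hb1⟩ := ih (by omega) J₁ hJ₁
        have hJ2F : J₂ ⊆ F k := (hp k).Js J₂ hJ₂
        refine ⟨?_, ?_⟩
        · intro n hn
          rw [Finset.mem_union] at hn
          rw [Finset.mem_biUnion]
          rcases hn with hn | hn
          · obtain ⟨i, hi, hi2⟩ := Finset.mem_biUnion.mp (hs hn)
            exact ⟨i, Finset.mem_range.mpr (by have := Finset.mem_range.mp hi; omega), hi2⟩
          · exact ⟨k, Finset.mem_range.mpr (by omega), hJ2F hn⟩
        · have e1 : ∑ j ∈ range k, β j * N (res (J₁ ∪ J₂) (res (B j) (z j))) =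
              ∑ j ∈ range k, β j * N (res J₁ (res (B j) (z j))) := by
            refine Finset.sum_congr rfl (fun j hj => ?_)
            have hj' := Finset.mem_range.mp hj
            have hjm : j < m := by omega
            have e2 : res (J₁ ∪ J₂) (res (B j) (z j)) = res J₁ (res (B j) (z j)) := by
              ext n
              simp only [CLF_res_apply]
              by_cases h1 : n ∈ B j
              · have h2 : n ∉ J₂ := fun h2 =>
                  CLF_disj F hF j k (by omega) n ((hA j hjm).2.1 h1) (hJ2F h2)
                simp [h1, h2]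
              · simp [h1]
            rw [e2]
          have e3 : N (res (J₁ ∪ J₂) (res (B k) (z k))) ≤ ηs k := by
            refine le_trans (hN.mono _ _ ?_ ?_) ((hp k).Fl J₂ hJ₂)
            · intro n
              simp only [CLF_res_apply]
              have := (hp k).z0 n
              simp only [Finsupp.coe_zero, Pi.zero_apply] at this ⊢
              split_ifs <;> simp_all
            · intro n
              simp only [CLF_res_apply]
              have hz := (hp k).z0 n
              simp only [Finsupp.coe_zero, Pi.zero_apply] at hz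
              by_cases h1 : n ∈ B k
              · by_cases h2 : n ∈ J₂
                · simp [h1, h2]
                · have h3 : n ∉ J₁ := by
                    intro h3
                    obtain ⟨i, hi, hi2⟩ := Finset.mem_biUnion.mp (hs h3)
                    have := Finset.mem_range.mp hi
                    exact CLF_disj F hF i k (by omega) n hi2 (hB h1)
                  simp [h1, h2, h3]
              · by_cases h2 : n ∈ J₂
                · simp [h1, h2, hz]
                · simp [h1, h2]
          have e4 := hβτ k hk' (ηs k) (hη k)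
          have e5 : β k * N (res (J₁ ∪ J₂) (res (B k) (z k))) ≤ β k * ηs k :=
            mul_le_mul_of_nonneg_left e3 hb
          rw [e1]
          linarith
      · refine ⟨?_, ?_⟩
        · intro n hn
          exact Finset.mem_biUnion.mpr ⟨k, Finset.mem_range.mpr (by omega), hn⟩
        · have e1 : ∑ j ∈ range k, β j * N (res (F k) (res (B j) (z j))) = 0 := by
            refine Finset.sum_eq_zero (fun j hj => ?_)
            have hj' := Finset.mem_range.mp hj
            have hjm : j < m := by omega
            have e2 : res (F k) (res (B j) (z j)) = 0 := by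
              ext n
              simp only [CLF_res_apply]
              by_cases h1 : n ∈ B j
              · have h2 : n ∉ F k := fun h2 =>
                  CLF_disj F hF j k (by omega) n ((hA j hjm).2.1 h1) h2
                simp [h2]
              · simp [h1]
            rw [e2, hN0, mul_zero]
          have e2 : res (F k) (res (B k) (z k)) = res (B k) (z k) := by
            ext n
            simp only [CLF_res_apply]
            by_cases h1 : n ∈ B k
            · simp [h1, hB h1]
            · simp [h1]
          have hU := (hp k).U (B k) hB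
          have e3 : β k * N (res (B k) (z k)) ≤
              2 * (β k * (mass (P k) (B k)) ^ (1 / r')) + β k * κs k := by
            have := mul_le_mul_of_nonneg_left hU hb
            linarith
          have e4 := hβτ k hk' (κs k) (hκ k)
          have e5 : β k * (mass (P k) (B k)) ^ (1 / r') ≤ 1 := by
            rcases hc with hc | hc
            · rw [hc, zero_mul]; exact zero_le_one
            · have hm0 : 0 < mass (P k) (B k) := lt_of_lt_of_le (hτ k).1 hc
              have h6 : (mass (P k) (B k)) ^ (1 / r') ≤ (mass (P k) (B k)) ^ (1 / r) :=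
                Real.rpow_le_rpow_of_exponent_ge hm0 (hmass k hk')
                  (one_div_le_one_div_of_le hr0 hrr.le)
              have h7 : β k * (mass (P k) (B k)) ^ (1 / r) =
                  ((β k) ^ r * mass (P k) (B k)) ^ (1 / r) := by
                rw [Real.mul_rpow (Real.rpow_nonneg hb _) hm0.le, ← Real.rpow_mul hb,
                  mul_one_div_cancel hr.ne', Real.rpow_one]
              have h8 : ((β k) ^ r * mass (P k) (B k)) ^ (1 / r) ≤ 1 :=
                Real.rpow_le_one (mul_nonneg (Real.rpow_nonneg hb _) hm0.le) (hE k hk')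
                  (by positivity)
              calc β k * (mass (P k) (B k)) ^ (1 / r') ≤ β k * (mass (P k) (B k)) ^ (1 / r) :=
                    mul_le_mul_of_nonneg_left h6 hb
                _ ≤ 1 := by rw [h7]; exact h8
          have e6 : 0 ≤ ∑ j ∈ range k, (1 / 2 : ℝ) ^ (j + 2) :=
            Finset.sum_nonneg (fun j _ => by positivity)
          rw [e1, e2]
          linarith
  obtain ⟨hs, hb⟩ := key m le_rfl J hJ
  refine ⟨hs, ?_⟩
  have e1 : res J (vv m z β B) = ∑ j ∈ range m, β j • res J (res (B j) (z j)) := by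
    ext n
    rw [CLF_res_apply]
    unfold vv
    rw [Finsupp.finset_sum_apply, Finsupp.finset_sum_apply]
    split_ifs with h
    · refine Finset.sum_congr rfl (fun j _ => ?_)
      simp only [Finsupp.smul_apply, smul_eq_mul]
      rw [CLF_res_apply J]
      simp [h]
    · symm
      refine Finset.sum_eq_zero (fun j _ => ?_)
      simp only [Finsupp.smul_apply, smul_eq_mul]
      rw [CLF_res_apply J]
      simp [h]
  have e2 : N (res J (vv m z β B)) ≤ ∑ j ∈ range m, β j * N (res J (res (B j) (z j))) := by
    rw [e1]
    refine (CLF_Nsum N hN _ _).trans (le_of_eq ?_)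
    refine Finset.sum_congr rfl (fun j hj => ?_)
    exact hN.smul _ _ (hA j (Finset.mem_range.mp hj)).1
  have e3 : ∀ k : ℕ, ∑ j ∈ range k, (1 / 2 : ℝ) ^ (j + 2) = 1 / 2 - (1 / 2 : ℝ) ^ (k + 1) := by
    intro k
    induction k with
    | zero => norm_num
    | succ k ih =>
      rw [Finset.sum_range_succ, ih]
      ring
  have e4 := e3 m
  have e5 : (0 : ℝ) < (1 / 2 : ℝ) ^ (m + 1) := by positivity
  linarith

end Pool.UE
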