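import Mathlib
import Pool.Agent.Work.MP_052a41_ue.Interface

/-!
# Block CLU: the domination property of the combination
-/

set_option autoImplicit false

namespace Pool.UE

open Finset Filter Topology

theorem CLU_res_apply (B : Finset ℕ) (a : ℕ →₀ ℝ) (n : ℕ) :
    res B a n = if n ∈ B then a n else 0 := by
  unfold res
  rw [Finsupp.filter_apply]

theorem CLU_N0 (N : (ℕ →₀ ℝ) → ℝ) (hN : IsLat N) : N 0 = 0 := by
  have h := hN.smul 0 0 le_rfl
  simpa using h

theorem CLU_Nsum (N : (ℕ →₀ ℝ) → ℝ) (hN : IsLat N) (s : Finset ℕ) (f : ℕ → (ℕ →₀ ℝ)) :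
    N (∑ j ∈ s, f j) ≤ ∑ j ∈ s, N (f j) := by
  classical
  induction s using Finset.induction_on with
  | empty => simp [CLU_N0 N hN]
  | insert a s ha ih =>
    rw [Finset.sum_insert ha, Finset.sum_insert ha]
    exact (hN.add _ _).trans (by linarith)

theorem blk_CLU : Stmt_CLU := by
  classical
  intro N hN r' r hr' hrr m τ κs ηs F 𝒥 z P hF hτ hτs hκ hp β B hA hen hmax C
  have hr : 0 < r := by linarith
  have hr0 : (0 : ℝ) < r' := by linarith
  have hN0 := CLU_N0 N hN
  have hs : 0 ≤ 1 / r' - 1 / r := by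
    have := one_div_le_one_div_of_le hr0 hrr.le
    linarith
  -- facts on each index
  have hmass0 : ∀ j (D : Finset ℕ), 0 ≤ mass (P j) D := by
    intro j D
    unfold mass
    exact Finset.sum_nonneg (fun i _ => (hp j).P0 i)
  have hmono : ∀ j (D E : Finset ℕ), D ⊆ E → mass (P j) D ≤ mass (P j) E := by
    intro j D E h
    unfold mass
    exact Finset.sum_le_sum_of_subset_of_nonneg h (fun i _ _ => (hp j).P0 i)
  have hE : ∀ j < m, (β j) ^ r * mass (P j) (B j) ≤ 1 := by
    intro j hj
    have h1 : (β j) ^ r * mass (P j) (B j) ≤ en r m P β B := by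
      unfold en
      exact Finset.single_le_sum (f := fun j => (β j) ^ r * mass (P j) (B j))
        (fun i hi => mul_nonneg (Real.rpow_nonneg (hA i (Finset.mem_range.mp hi)).1 _)
          (hmass0 i _))
        (Finset.mem_range.mpr hj)
    linarith
  have hroot : ∀ j < m, ∀ x : ℝ, 0 ≤ x → (β j) ^ r * x ≤ 1 → β j * x ^ (1 / r) ≤ 1 := by
    intro j hj x hx h1
    have hb := (hA j hj).1
    have h3 : β j * x ^ (1 / r) = ((β j) ^ r * x) ^ (1 / r) := by
      rw [Real.mul_rpow (Real.rpow_nonneg hb _) hx, ← Real.rpow_mul hb,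
        mul_one_div_cancel hr.ne', Real.rpow_one]
    rw [h3]
    exact Real.rpow_le_one (mul_nonneg (Real.rpow_nonneg hb _) hx) h1 (by positivity)
  -- the bad terms
  have hbad : ∀ j < m, mass (P j) (B j ∩ C) < τ j →
      β j * N (res (B j ∩ C) (z j)) ≤ (1 / 2 : ℝ) ^ (j + 1) := by
    intro j hj hlt
    obtain ⟨hb, hB, hc⟩ := hA j hj
    have hpow : (0 : ℝ) < (1 / 2 : ℝ) ^ (j + 1) := by positivity
    rcases hc with hc | hc
    · rw [hc, zero_mul]
      exact hpow.le
    · have hU := (hp j).U (B j ∩ C) (Finset.inter_subset_left.trans hB)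
      have ht0 := hmass0 j (B j ∩ C)
      have htB := hmono j (B j ∩ C) (B j) Finset.inter_subset_left
      have h1 : β j * (τ j) ^ (1 / r) ≤ 1 :=
        hroot j hj _ (hτ j).1.le
          ((mul_le_mul_of_nonneg_left hc (Real.rpow_nonneg hb _)).trans (hE j hj))
      have h2 : β j * κs j ≤ (1 / 2 : ℝ) ^ (j + 2) := by
        calc β j * κs j ≤ β j * ((τ j) ^ (1 / r) * (1 / 2 : ℝ) ^ (j + 2)) :=
              mul_le_mul_of_nonneg_left (hκ j) hb
          _ = (β j * (τ j) ^ (1 / r)) * (1 / 2 : ℝ) ^ (j + 2) := by ring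
          _ ≤ 1 * (1 / 2 : ℝ) ^ (j + 2) := mul_le_mul_of_nonneg_right h1 (by positivity)
          _ = (1 / 2 : ℝ) ^ (j + 2) := one_mul _
      have h3 : β j * (mass (P j) (B j)) ^ (1 / r) ≤ 1 :=
        hroot j hj _ (hmass0 j _) (hE j hj)
      have h4 : (mass (P j) (B j ∩ C)) ^ (1 / r') =
          (mass (P j) (B j ∩ C)) ^ (1 / r) * (mass (P j) (B j ∩ C)) ^ (1 / r' - 1 / r) := by
        rw [← Real.rpow_add_of_nonneg ht0 (by positivity) hs]
        congr 1
        ring
      have h5 : (mass (P j) (B j ∩ C)) ^ (1 / r) ≤ (mass (P j) (B j)) ^ (1 / r) :=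
        Real.rpow_le_rpow ht0 htB (by positivity)
      have h6 : (mass (P j) (B j ∩ C)) ^ (1 / r' - 1 / r) ≤ (τ j) ^ (1 / r' - 1 / r) :=
        Real.rpow_le_rpow ht0 hlt.le hs
      have h7 : β j * (mass (P j) (B j ∩ C)) ^ (1 / r') ≤ (τ j) ^ (1 / r' - 1 / r) := by
        rw [h4, ← mul_assoc]
        have a1 : β j * (mass (P j) (B j ∩ C)) ^ (1 / r) ≤ 1 :=
          (mul_le_mul_of_nonneg_left h5 hb).trans h3
        calc β j * (mass (P j) (B j ∩ C)) ^ (1 / r) * (mass (P j) (B j ∩ C)) ^ (1 / r' - 1 / r)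
            ≤ 1 * (mass (P j) (B j ∩ C)) ^ (1 / r' - 1 / r) :=
              mul_le_mul_of_nonneg_right a1 (Real.rpow_nonneg ht0 _)
          _ ≤ (τ j) ^ (1 / r' - 1 / r) := by rw [one_mul]; exact h6
      have h8 := hτs j
      have h9 : β j * N (res (B j ∩ C) (z j)) ≤
          2 * (β j * (mass (P j) (B j ∩ C)) ^ (1 / r')) + β j * κs j := by
        have := mul_le_mul_of_nonneg_left hU hb
        linarith
      have h10 : (1 / 2 : ℝ) ^ (j + 1) = 2 * (1 / 2 : ℝ) ^ (j + 2) := by ring
      rw [h10]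
      linarith
  -- good part
  set β' : ℕ → ℝ := fun j => if τ j ≤ mass (P j) (B j ∩ C) then β j else 0 with hβ'
  set B' : ℕ → Finset ℕ := fun j => B j ∩ C with hB'
  have hA' : Adm m τ F P β' B' := by
    intro j hj
    obtain ⟨hb, hB, hc⟩ := hA j hj
    refine ⟨?_, Finset.inter_subset_left.trans hB, ?_⟩
    · simp only [hβ']
      split_ifs
      · exact hb
      · exact le_rfl
    · by_cases h : τ j ≤ mass (P j) (B j ∩ C)
      · exact Or.inr h
      · exact Or.inl (by simp only [hβ', if_neg h])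
  have h1 := hmax β' B' hA'
  have hen0 : 0 ≤ en r m P β' B' := by
    unfold en
    exact Finset.sum_nonneg fun j hj => mul_nonneg
      (Real.rpow_nonneg (hA' j (Finset.mem_range.mp hj)).1 _) (hmass0 j _)
  have hen' : en r m P β' B' ≤ en r m P β B' := by
    unfold en
    refine Finset.sum_le_sum fun j hj => ?_
    refine mul_le_mul_of_nonneg_right ?_ (hmass0 j _)
    have hb := (hA j (Finset.mem_range.mp hj)).1
    refine Real.rpow_le_rpow (hA' j (Finset.mem_range.mp hj)).1 ?_ hr.le
    simp only [hβ']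
    split_ifs
    · exact le_rfl
    · exact hb
  have hdec : res C (vv m z β B) =
      vv m z β' B' + ∑ j ∈ range m, (β j - β' j) • res (B j ∩ C) (z j) := by
    ext n
    rw [CLU_res_apply, Finsupp.add_apply]
    unfold vv
    rw [Finsupp.finset_sum_apply, Finsupp.finset_sum_apply, Finsupp.finset_sum_apply,
      ← Finset.sum_add_distrib]
    split_ifs with h
    · refine Finset.sum_congr rfl (fun j _ => ?_)
      simp only [Finsupp.smul_apply, smul_eq_mul, CLU_res_apply, hB', Finset.mem_inter, h,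
        and_true]
      ring
    · symm
      refine Finset.sum_eq_zero (fun j _ => ?_)
      simp only [Finsupp.smul_apply, smul_eq_mul, CLU_res_apply, hB', Finset.mem_inter, h,
        and_false, if_false, mul_zero, add_zero]
  have h2 : N (res C (vv m z β B)) ≤ N (vv m z β' B') +
      ∑ j ∈ range m, (1 / 2 : ℝ) ^ (j + 1) := by
    rw [hdec]
    refine (hN.add _ _).trans (add_le_add le_rfl ((CLU_Nsum N hN _ _).trans ?_))
    refine Finset.sum_le_sum fun j hj => ?_
    have hj' := Finset.mem_range.mp hj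
    by_cases h : τ j ≤ mass (P j) (B j ∩ C)
    · have e : β j - β' j = 0 := by simp only [hβ', if_pos h, sub_self]
      rw [e, zero_smul, hN0]
      positivity
    · have e : β j - β' j = β j := by simp only [hβ', if_neg h, sub_zero]
      rw [e, hN.smul _ _ (hA j hj').1]
      exact hbad j hj' (not_le.mp h)
  have e3 : ∀ k : ℕ, ∑ j ∈ range k, (1 / 2 : ℝ) ^ (j + 1) = 1 - (1 / 2 : ℝ) ^ k := by
    intro k
    induction k with
    | zero => norm_num
    | succ k ih =>
      rw [Finset.sum_range_succ, ih]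
      ring
  have e4 := e3 m
  have e5 : (0 : ℝ) < (1 / 2 : ℝ) ^ m := by positivity
  have h3 : N (vv m z β' B') ≤ 2 * N (vv m z β B) * (en r m P β B') ^ (1 / r) :=
    h1.trans (mul_le_mul_of_nonneg_left (Real.rpow_le_rpow hen0 hen' (by positivity))
      (mul_nonneg (by norm_num) (hN.nonneg _)))
  linarith

end Pool.UE
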