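import Pool.Agent.Work.MP_052a41_ue.Interface

set_option autoImplicit false

namespace Pool.UE

open Finset Filter Topology

/-- block GR: the grids -/
theorem blk_GR : Stmt_GR := by
  classical
  refine ⟨fun k => ((range (2 ^ (k + 8) + 1) ×ˢ range (2 ^ (k + 8) + 1)) ×ˢ
    ({1, -1} : Finset ℝ)).image
      (fun p => ((p.1.1 : ℝ) / 2 ^ (k + 8), p.2 * ((p.1.2 : ℝ) / 2 ^ (k + 8)))), ?_, ?_⟩
  · intro k
    have hM : (0 : ℝ) < 2 ^ (k + 8) := by positivity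
    refine ⟨?_, ?_⟩
    · rw [mem_image]
      exact ⟨((0, 0), 1), by simp, by simp⟩
    · intro p hp
      rw [mem_image] at hp
      obtain ⟨⟨⟨i, j⟩, s⟩, h, rfl⟩ := hp
      simp only [mem_product, mem_range, mem_insert, mem_singleton] at h
      obtain ⟨⟨hi, hj⟩, hs⟩ := h
      have hi' : (i : ℝ) ≤ 2 ^ (k + 8) := by exact_mod_cast Nat.lt_succ_iff.mp hi
      have hj' : (j : ℝ) ≤ 2 ^ (k + 8) := by exact_mod_cast Nat.lt_succ_iff.mp hj
      have hj0 : (0 : ℝ) ≤ (j : ℝ) / 2 ^ (k + 8) := by positivity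
      have hj1 : (j : ℝ) / 2 ^ (k + 8) ≤ 1 := (div_le_one hM).mpr hj'
      refine ⟨by positivity, (div_le_one hM).mpr hi', ?_⟩
      rcases hs with rfl | rfl
      · rw [one_mul, abs_of_nonneg hj0]; exact hj1
      · rw [neg_one_mul, abs_neg, abs_of_nonneg hj0]; exact hj1
  · intro k u v hu0 hu1 hv
    have hM : (0 : ℝ) < 2 ^ (k + 8) := by positivity
    have hMe : (1 / 2 : ℝ) ^ (k + 8) = 1 / 2 ^ (k + 8) := by rw [one_div_pow]
    -- floor facts
    have fl : ∀ w : ℝ, 0 ≤ w → w ≤ 1 → ∃ i : ℕ, i < 2 ^ (k + 8) + 1 ∧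
        (i : ℝ) / 2 ^ (k + 8) ≤ w ∧ w - (i : ℝ) / 2 ^ (k + 8) ≤ (1 / 2 : ℝ) ^ (k + 8) := by
      intro w hw0 hw1
      have h0 : 0 ≤ w * 2 ^ (k + 8) := by positivity
      have h1 := Nat.floor_le h0
      have h2 := Nat.lt_floor_add_one (w * 2 ^ (k + 8))
      refine ⟨⌊w * 2 ^ (k + 8)⌋₊, ?_, ?_, ?_⟩
      · have h3 : (⌊w * 2 ^ (k + 8)⌋₊ : ℝ) ≤ ((2 ^ (k + 8) : ℕ) : ℝ) := by
          push_cast
          nlinarith
        have h4 : ⌊w * 2 ^ (k + 8)⌋₊ ≤ 2 ^ (k + 8) := by exact_mod_cast h3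
        omega
      · rw [div_le_iff₀ hM]; exact h1
      · rw [hMe, sub_le_iff_le_add, ← add_div, le_div_iff₀ hM]
        linarith
    obtain ⟨i, hi, hi1, hi2⟩ := fl u hu0 hu1
    obtain ⟨j, hj, hj1, hj2⟩ := fl |v| (abs_nonneg v) hv
    have hj0 : (0 : ℝ) ≤ (j : ℝ) / 2 ^ (k + 8) := by positivity
    rcases le_total 0 v with hv0 | hv0
    · refine ⟨((i : ℝ) / 2 ^ (k + 8), 1 * ((j : ℝ) / 2 ^ (k + 8))), ?_, hi1, hi2, ?_, ?_, ?_⟩
      · rw [mem_image]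
        exact ⟨((i, j), 1), by simp [hi, hj], rfl⟩
      · simp only [one_mul]; rw [abs_of_nonneg hj0]; exact hj1
      · simp only [one_mul]; rw [abs_of_nonneg hj0]; exact hj2
      · simp only [one_mul]
        rw [abs_of_nonneg hv0] at hj1
        nlinarith
    · refine ⟨((i : ℝ) / 2 ^ (k + 8), (-1) * ((j : ℝ) / 2 ^ (k + 8))), ?_, hi1, hi2, ?_, ?_, ?_⟩
      · rw [mem_image]
        exact ⟨((i, j), -1), by simp [hi, hj], rfl⟩
      · simp only [neg_one_mul]; rw [abs_neg, abs_of_nonneg hj0]; exact hj1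
      · simp only [neg_one_mul]; rw [abs_neg, abs_of_nonneg hj0]; exact hj2
      · simp only [neg_one_mul]
        rw [abs_of_nonpos hv0] at hj1
        nlinarith

end Pool.UE
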