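import Pool.Agent.Work.MP_052a41_ue.Interface

set_option autoImplicit false

/-! # MP_052a41_an, upper estimates, block LT (helper17) -/

namespace Pool.UE

open Finset Filter Topology

private lemma NN_eq {K : Type} [MetricSpace K] [CompactSpace K] (f : ℕ → C(K, ℝ)) (a : ℕ →₀ ℝ) :
    NN f a = ‖Finsupp.linearCombination ℝ (fun n => |f n|) a‖ := by
  rw [NN, Finsupp.linearCombination_apply]

theorem blk_LT : Stmt_LT := by
  intro K _ _ f hf
  refine ⟨fun a => norm_nonneg _, ?_, ?_, ?_, ?_⟩
  · intro a b
    rw [NN_eq, NN_eq, NN_eq, map_add]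
    exact norm_add_le _ _
  · intro c a hc
    rw [NN_eq, NN_eq, map_smul, norm_smul, Real.norm_of_nonneg hc]
  · intro a b ha hab
    rw [NN, NN]
    refine (ContinuousMap.norm_le _ (norm_nonneg _)).2 fun s => ?_
    refine le_trans ?_ (ContinuousMap.norm_coe_le_norm _ s)
    have key : ∀ c : ℕ →₀ ℝ, (c.sum fun n t => t • |f n|) s = c.sum fun n t => t * |f n s| := by
      intro c
      simp only [Finsupp.sum, ContinuousMap.coe_sum, Finset.sum_apply, ContinuousMap.coe_smul,
        Pi.smul_apply, smul_eq_mul, ContinuousMap.abs_apply]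
    rw [key, key]
    have h0 : 0 ≤ a.sum fun n t => t * |f n s| :=
      Finset.sum_nonneg fun n _ => mul_nonneg (ha n) (abs_nonneg _)
    have h1 : (a.sum fun n t => t * |f n s|) ≤ b.sum fun n t => t * |f n s| := by
      have hsub : a.support ⊆ b.support := by
        intro n hn
        rw [Finsupp.mem_support_iff] at hn ⊢
        have h1 : 0 < a n := lt_of_le_of_ne (ha n) (Ne.symm hn)
        have h2 := hab n
        exact ne_of_gt (lt_of_lt_of_le h1 h2)
      rw [Finsupp.sum_of_support_subset a hsub (fun n t => t * |f n s|) (by simp), Finsupp.sum]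
      exact Finset.sum_le_sum fun n _ => mul_le_mul_of_nonneg_right (hab n) (abs_nonneg _)
    rw [Real.norm_of_nonneg h0, Real.norm_of_nonneg (h0.trans h1)]
    exact h1
  · intro n
    rw [NN, Finsupp.sum_single_index (by simp), one_smul]
    rw [← hf n]
    refine le_antisymm ?_ ?_
    · refine (ContinuousMap.norm_le _ (norm_nonneg _)).2 fun s => ?_
      rw [ContinuousMap.abs_apply, Real.norm_eq_abs, abs_abs, ← Real.norm_eq_abs]
      exact ContinuousMap.norm_coe_le_norm _ s
    · refine (ContinuousMap.norm_le _ (norm_nonneg _)).2 fun s => ?_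
      have := ContinuousMap.norm_coe_le_norm |f n| s
      rw [ContinuousMap.abs_apply, Real.norm_eq_abs, abs_abs, ← Real.norm_eq_abs] at this
      exact this

end Pool.UE
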