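import Mathlib
import Pool.Agent.Work.MP_052a41_ue.Interface

set_option autoImplicit false

/-! # MP_052a41_an, block MA (helper50) -/

namespace Pool.UE

open Finset Filter Topology

section

variable {K : Type} [MetricSpace K] [CompactSpace K] {W : Type} [NormedAddCommGroup W]
  [NormedSpace ℝ W] (T : C(K, ℝ) →L[ℝ] W) (f : ℕ → C(K, ℝ)) (L : ℝ)

theorem MA_Psi_nonneg (s : St) (x : WeakDual ℝ W) : 0 ≤ Psi T f L s x :=
  sum_nonneg fun _ _ => abs_nonneg _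

theorem MA_bdd (Γ : Set (WeakDual ℝ W)) (s : St) :
    BddBelow (insert (1 : ℝ) {v | ∃ x ∈ Γ, sat T f s x ∧ v = Psi T f L s x}) := by
  refine ⟨0, ?_⟩
  rintro v (rfl | ⟨x, _, _, rfl⟩)
  · exact zero_le_one
  · exact MA_Psi_nonneg T f L s x

theorem MA_le_one (Γ : Set (WeakDual ℝ W)) (s : St) : FV T f L Γ s ≤ 1 :=
  csInf_le (MA_bdd T f L Γ s) (Set.mem_insert _ _)

theorem MA_le {Γ : Set (WeakDual ℝ W)} {s : St} {x : WeakDual ℝ W} (hx : x ∈ Γ)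
    (hs : sat T f s x) : FV T f L Γ s ≤ Psi T f L s x :=
  csInf_le (MA_bdd T f L Γ s) (Or.inr ⟨x, hx, hs, rfl⟩)

theorem MA_ge {Γ : Set (WeakDual ℝ W)} {s : St} {a : ℝ} (ha : a ≤ 1)
    (h : ∀ x ∈ Γ, sat T f s x → a ≤ Psi T f L s x) : a ≤ FV T f L Γ s := by
  refine le_csInf (Set.insert_nonempty _ _) ?_
  rintro v (rfl | ⟨x, hx, hs, rfl⟩)
  · exact ha
  · exact h x hx hs

theorem MA_anti {Γ Γ' : Set (WeakDual ℝ W)} (h : Γ ⊆ Γ') (s : St) :
    FV T f L Γ' s ≤ FV T f L Γ s :=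
  MA_ge T f L (MA_le_one T f L _ _) fun _ hx hs => MA_le T f L (h hx) hs

theorem MA_empty (s : St) : FV T f L (∅ : Set (WeakDual ℝ W)) s = 1 :=
  le_antisymm (MA_le_one T f L _ _) (MA_ge T f L le_rfl (by simp))

theorem MA_nonneg (Γ : Set (WeakDual ℝ W)) (s : St) : 0 ≤ FV T f L Γ s :=
  MA_ge T f L zero_le_one fun x _ _ => MA_Psi_nonneg T f L s x

end

theorem blk_MA (hZO : Stmt_ZO) (hST : Stmt_ST) (hCH : Stmt_CH) (hGR : Stmt_GR) (hTS : Stmt_TS)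
    (hUB : Stmt_UB) (hLT : Stmt_LT) (hWN : Stmt_WN) : Stmt_MA := by
  intro K _ _ W _ _ _ T f hf1 hf0 R hR hx r0 hr0 hNU
  obtain ⟨G, hG, hGa⟩ := hGR
  have hN := hLT K f hf1
  have hT0 : 0 ≤ ‖T‖ := ContinuousLinearMap.opNorm_nonneg T
  have hRT : 0 ≤ R * ‖T‖ := mul_nonneg hR hT0
  have hr : 0 < r0 + 1 := by linarith
  have hr1 : 1 ≤ r0 + 1 := by linarith
  obtain ⟨L, hL, hL2⟩ : ∃ L : ℝ, 0 < L ∧
      R * ‖T‖ * (2 * (1 / (L * (1 / 10))) ^ (1 / (r0 + 1))) ≤ 1 / 16 := by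
    set A : ℝ := 32 * (R * ‖T‖) + 1 with hA
    have hA0 : 0 < A := by positivity
    refine ⟨10 * A ^ (r0 + 1), by positivity, ?_⟩
    have e1 : 1 / (10 * A ^ (r0 + 1) * (1 / 10)) = (1 / A) ^ (r0 + 1) := by
      rw [Real.div_rpow zero_le_one hA0.le, Real.one_rpow]
      congr 1
      ring
    rw [e1, ← Real.rpow_mul (by positivity), mul_one_div_cancel hr.ne', Real.rpow_one]
    have e2 : R * ‖T‖ * (2 * (1 / A)) = (2 * (R * ‖T‖)) / A := by ring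
    rw [e2, div_le_iff₀ hA0]
    linarith
  obtain ⟨κ, hκ, hκ2⟩ : ∃ κ : ℝ, 0 < κ ∧ R * ‖T‖ * κ ≤ 1 / 16 := by
    refine ⟨1 / (16 * (R * ‖T‖ + 1)), by positivity, ?_⟩
    rw [mul_one_div, div_le_div_iff₀ (by positivity) (by norm_num)]
    linarith
  set ε : ℝ := 1 / (2 * L * (‖T‖ + 1)) with hεdef
  have hε : 0 < ε := by positivity
  have hεL : ε * ‖T‖ * L ≤ 1 / 2 := by
    have : ε * ‖T‖ * L = ‖T‖ / (2 * (‖T‖ + 1)) := by
      rw [hεdef]
      field_simp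
    rw [this, div_le_div_iff₀ (by positivity) (by norm_num)]
    linarith
  have hW : ∀ (z : WeakDual ℝ W) (ρ : ℝ), 0 < ρ → ∀ᶠ n in atTop, ∀ g : C(K, ℝ),
      (∀ s, |g s| ≤ |f n s|) → |z (T g)| ≤ ρ := by
    intro z ρ hρ
    exact hWN K f (fun n => (hf1 n).le) hf0 ((WeakDual.toStrongDual z).comp T) ρ hρ
  set ball : Set (WeakDual ℝ W) := WeakDual.toStrongDual ⁻¹' Metric.closedBall 0 R with hball
  have hbc : IsCompact ball := WeakDual.isCompact_closedBall 0 R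
  have hbcl : IsClosed ball := hbc.isClosed
  let P := {Γ : Set (WeakDual ℝ W) // IsClosed Γ ∧ Γ ⊆ ball}
  let Fv : P → St → ℝ := fun Γ u => FV T f L Γ.1 u
  let D : P → P := fun Γ => ⟨NoLq.Der ε Γ.1, NoLq.isClosed_Der ε Γ.2.1,
    (NoLq.Der_subset ε Γ.1).trans Γ.2.2⟩
  have hcpt : ∀ Γ : P, IsCompact Γ.1 := fun Γ => hbc.of_isClosed_subset Γ.2.1 Γ.2.2
  let top : P := ⟨ball, hbcl, le_rfl⟩
  have hD : ∀ x : P, D x ≤ x := fun x => NoLq.Der_subset ε x.1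
  have htop : ∀ x : P, x ≤ top := fun x => x.2.2
  have hF : ∀ (x y : P) (u : St), x ≤ y → Fv y u ≤ Fv x u := fun x y u h =>
    MA_anti T f L h u
  have hstep : Step G Fv D := by
    intro Γ s δ hδ
    filter_upwards [hST K W T f L ε hL.le hε.le hεL hW Γ.1 (hcpt Γ) s δ hδ] with n hn p hp
    obtain ⟨h1, h2, h3⟩ := (hG n).2 p hp
    exact hn p h1 h2 h3
  have hchain : ∀ c : Set P, IsChain (· ≤ ·) c → c.Nonempty →
      ∃ z : P, (∀ s ∈ c, z ≤ s) ∧ ∀ u a, a < Fv z u → ∃ s ∈ c, a ≤ Fv s u := by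
    intro c hc hne
    obtain ⟨s0, hs0⟩ := hne
    have e0 : ⋂ Γ ∈ Subtype.val '' c, Γ = ⋂ s ∈ c, s.1 := Set.biInter_image
    refine ⟨⟨⋂ s ∈ c, s.1, isClosed_biInter fun s _ => s.2.1,
      (Set.biInter_subset_of_mem hs0).trans s0.2.2⟩,
      fun s hs => Set.biInter_subset_of_mem hs, ?_⟩
    intro u a ha
    have ha' : a < FV T f L (⋂ Γ ∈ Subtype.val '' c, Γ) u := by
      rw [e0]; exact ha
    obtain ⟨Γ, ⟨s, hs, rfl⟩, hle⟩ := hCH K W T f L ball hbc (Subtype.val '' c)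
      ⟨s0.1, s0, hs0, rfl⟩
      (by
        rintro _ ⟨x, hx', rfl⟩ _ ⟨y, hy', rfl⟩ hxy
        exact hc hx' hy' (fun h => hxy (congrArg Subtype.val h)))
      (by
        rintro _ ⟨x, hx', rfl⟩
        exact x.2) u a ha'
    exact ⟨s, hs, hle⟩
  obtain ⟨m, hm1, hm2⟩ := hZO P (NN f) r0 G Fv D top hN hr0 hNU hG hD htop hF hstep hchain
  have hmempty : m.1 = ∅ := by
    by_contra hne
    have h5 : NoLq.Der ε m.1 = m.1 := congrArg Subtype.val hm1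
    exact NoLq.Der_ne hε (hcpt m) (Set.nonempty_iff_ne_empty.2 hne) h5
  have hFm : Fv m 0 = 1 := by
    change FV T f L m.1 0 = 1
    rw [hmempty]
    exact MA_empty T f L 0
  obtain ⟨F0, 𝒥, z, P0, hpiece, -, hst⟩ := hm2 (r0 + 1) κ (1 / 100) (1 / 100) (by linarith) hκ
    (by norm_num) (by norm_num) 0 {0} ∅
  obtain ⟨h, t, ht, hsat, htz, hη, hJ⟩ := hTS K f hf1 G hG hGa (r0 + 1) κ (1 / 100) (1 / 10) F0
    𝒥 z P0 (by norm_num) hpiece
  obtain ⟨J, hJ𝒥, hineq⟩ := (hst 0 (mem_singleton_self 0) t ht).1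
  obtain ⟨x, hx1, hx2⟩ := hx h
  have hJ' := hJ J hJ𝒥
  have hsx : sat T f t (StrongDual.toWeakDual x) := by
    intro k
    have e : (StrongDual.toWeakDual x) (T (f k)) = f k h := hx2 k
    rw [e]
    exact hsat k
  have hxb : StrongDual.toWeakDual x ∈ ball := by
    change WeakDual.toStrongDual (StrongDual.toWeakDual x) ∈ Metric.closedBall 0 R
    rw [StrongDual.toStrongDual_toWeakDual, mem_closedBall_zero_iff]
    exact hx1
  have htop1 : Fv top t ≤ Psi T f L t (StrongDual.toWeakDual x) := MA_le T f L hxb hsx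
  have ht' := mem_finsupp_iff.1 ht
  have hUBx := hUB K W T f L hL (r0 + 1) κ (1 / 100) (1 / 10) F0 𝒥 z P0 (by norm_num) hr1 hκ.le
    hpiece t ht'.1 (by
      intro k
      refine ⟨?_, htz k⟩
      by_cases hk : k ∈ F0
      · exact ((hG k).2 _ (ht'.2 k hk)).1
      · have : k ∉ t.support := fun h => hk (ht'.1 h)
        rw [Finsupp.notMem_support_iff.1 this]
        exact le_rfl) hη (StrongDual.toWeakDual x)
  have hnx : ‖WeakDual.toStrongDual (StrongDual.toWeakDual x)‖ ≤ R := by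
    rw [StrongDual.toStrongDual_toWeakDual]
    exact hx1
  have hq0 : 0 ≤ (1 / (L * (1 / 10))) ^ (1 / (r0 + 1)) := by positivity
  have hle : ‖WeakDual.toStrongDual (StrongDual.toWeakDual x)‖ * ‖T‖ *
      (2 * (1 / (L * (1 / 10))) ^ (1 / (r0 + 1)) + κ) ≤
      R * ‖T‖ * (2 * (1 / (L * (1 / 10))) ^ (1 / (r0 + 1)) + κ) :=
    mul_le_mul_of_nonneg_right (mul_le_mul_of_nonneg_right hnx hT0) (by positivity)
  have hup : Fv top t ≤ 1 / 8 := by
    refine htop1.trans (hUBx.trans (hle.trans ?_))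
    rw [mul_add]
    linarith
  have h0 : 0 ≤ Fv top 0 := MA_nonneg T f L _ _
  rw [zero_add, hFm] at hineq
  have h9 : (1 / 4 : ℝ) + 1 / 100 ≤ min 1 (Fv top 0 + ∑ k ∈ F0 \ J, q (t k)) := by
    refine le_min (by norm_num) ?_
    linarith
  linarith

end Pool.UE
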