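import Pool.Agent.Work.MP_052a41_ue.Interface

set_option autoImplicit false

namespace Pool.UE

open Finset

theorem nu_aux (m : ℕ) (β : ℕ → ℝ) (hβ : ∀ j, 0 ≤ β j) (r0 r : ℝ) (h0 : 1 ≤ r0) (h : r0 ≤ r) :
    (∑ j ∈ range m, (β j) ^ r) ^ (1 / r) ≤ (∑ j ∈ range m, (β j) ^ r0) ^ (1 / r0) := by
  have hr0 : 0 < r0 := by linarith
  have hr : 0 < r := by linarith
  set S : ℝ := ∑ j ∈ range m, (β j) ^ r0 with hS
  have hS0 : 0 ≤ S := Finset.sum_nonneg fun j _ => Real.rpow_nonneg (hβ j) _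
  have hle : ∀ j ∈ range m, β j ≤ S ^ (1 / r0) := by
    intro j hj
    have h1 : (β j) ^ r0 ≤ S :=
      Finset.single_le_sum (f := fun j => (β j) ^ r0)
        (fun i _ => Real.rpow_nonneg (hβ i) _) hj
    have h2 : ((β j) ^ r0) ^ (1 / r0) ≤ S ^ (1 / r0) :=
      Real.rpow_le_rpow (Real.rpow_nonneg (hβ j) _) h1 (by positivity)
    rwa [← Real.rpow_mul (hβ j), mul_one_div_cancel hr0.ne', Real.rpow_one] at h2
  have hT : ∑ j ∈ range m, (β j) ^ r ≤ S ^ (r / r0) := by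
    have h1 : ∀ j ∈ range m, (β j) ^ r ≤ (β j) ^ r0 * S ^ ((r - r0) / r0) := by
      intro j hj
      rcases (hβ j).eq_or_lt with h2 | h2
      · rw [← h2, Real.zero_rpow hr.ne', Real.zero_rpow hr0.ne', zero_mul]
      · have h3 : (β j) ^ r = (β j) ^ r0 * (β j) ^ (r - r0) := by
          rw [← Real.rpow_add h2]; congr 1; ring
        rw [h3]
        have h4 : (β j) ^ (r - r0) ≤ (S ^ (1 / r0)) ^ (r - r0) :=
          Real.rpow_le_rpow (hβ j) (hle j hj) (by linarith)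
        rw [← Real.rpow_mul hS0] at h4
        have h5 : 1 / r0 * (r - r0) = (r - r0) / r0 := by ring
        rw [h5] at h4
        exact mul_le_mul_of_nonneg_left h4 (Real.rpow_nonneg (hβ j) _)
    refine (Finset.sum_le_sum h1).trans ?_
    rw [← Finset.sum_mul, ← hS]
    rcases hS0.eq_or_lt with h2 | h2
    · rw [← h2, zero_mul]
      exact Real.rpow_nonneg le_rfl _
    · have h3 : S * S ^ ((r - r0) / r0) = S ^ (r / r0) := by
        nth_rewrite 1 [← Real.rpow_one S]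
        rw [← Real.rpow_add h2]
        congr 1
        field_simp
        ring
      exact h3.le
  have hT0 : 0 ≤ ∑ j ∈ range m, (β j) ^ r :=
    Finset.sum_nonneg fun j _ => Real.rpow_nonneg (hβ j) _
  refine (Real.rpow_le_rpow hT0 hT (by positivity : (0 : ℝ) ≤ 1 / r)).trans ?_
  rw [← Real.rpow_mul hS0]
  have : r / r0 * (1 / r) = 1 / r0 := by field_simp
  rw [this]

theorem blk_NU : Stmt_NU := by
  intro N r0 r h0 h hN F z hF hz C
  obtain ⟨m, β, hβ, hlt⟩ := hN F z hF hz (max C 0)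
  refine ⟨m, β, hβ, lt_of_le_of_lt ?_ hlt⟩
  have h1 := nu_aux m β hβ r0 r h0 h
  have h2 : 0 ≤ (∑ j ∈ range m, (β j) ^ r) ^ (1 / r) :=
    Real.rpow_nonneg (Finset.sum_nonneg fun j _ => Real.rpow_nonneg (hβ j) _) _
  calc C * (∑ j ∈ range m, (β j) ^ r) ^ (1 / r)
      ≤ max C 0 * (∑ j ∈ range m, (β j) ^ r) ^ (1 / r) :=
        mul_le_mul_of_nonneg_right (le_max_left _ _) h2
    _ ≤ max C 0 * (∑ j ∈ range m, (β j) ^ r0) ^ (1 / r0) :=
        mul_le_mul_of_nonneg_left h1 (le_max_right _ _)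

end Pool.UE
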