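import Pool.Agent.Work.MP_052a41_ue.Interface

set_option autoImplicit false

/-! # MP_052a41_an, upper estimates, block OPT (helper43)

The almost optimal datum. -/

namespace Pool.UE

open Finset Filter Topology

namespace OPT

theorem N_zero {N : (ℕ →₀ ℝ) → ℝ} (hN : IsLat N) : N 0 = 0 := by
  have h := hN.smul 0 0 le_rfl
  rw [smul_zero, zero_mul] at h
  exact h

theorem N_sum {N : (ℕ →₀ ℝ) → ℝ} (hN : IsLat N) (s : Finset ℕ) (f : ℕ → (ℕ →₀ ℝ)) :
    N (∑ j ∈ s, f j) ≤ ∑ j ∈ s, N (f j) := by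
  classical
  induction s using Finset.induction_on with
  | empty => simp [N_zero hN]
  | insert a s ha ih =>
    rw [sum_insert ha, sum_insert ha]
    exact (hN.add _ _).trans (add_le_add le_rfl ih)

theorem res_nonneg (B : Finset ℕ) {a : ℕ →₀ ℝ} (ha : 0 ≤ a) : 0 ≤ res B a := by
  intro n
  unfold res
  rw [Finsupp.filter_apply]
  split_ifs
  · exact ha n
  · exact le_rfl

theorem res_le (B : Finset ℕ) {a : ℕ →₀ ℝ} (ha : 0 ≤ a) : res B a ≤ a := by
  intro n
  unfold res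
  rw [Finsupp.filter_apply]
  split_ifs
  · exact le_rfl
  · exact ha n

theorem res_self (B : Finset ℕ) {a : ℕ →₀ ℝ} (ha : a.support ⊆ B) : res B a = a := by
  ext n
  unfold res
  rw [Finsupp.filter_apply]
  split_ifs with h
  · rfl
  · by_contra hne
    exact h (ha (Finsupp.mem_support_iff.2 fun h0 => hne (by rw [h0])))

theorem mass_nonneg {P : ℕ →₀ ℝ} (hP : 0 ≤ P) (B : Finset ℕ) : 0 ≤ mass P B :=
  sum_nonneg fun n _ => hP n

variable {N : (ℕ →₀ ℝ) → ℝ} {r : ℝ} {m : ℕ} {τ : ℕ → ℝ} {F : ℕ → Finset ℕ}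
  {z P : ℕ → (ℕ →₀ ℝ)}

theorem term_nonneg {β : ℕ → ℝ} {B : ℕ → Finset ℕ} (hP : ∀ j, 0 ≤ P j)
    (hA : Adm m τ F P β B) (j : ℕ) (hj : j < m) : 0 ≤ (β j) ^ r * mass (P j) (B j) :=
  mul_nonneg (Real.rpow_nonneg (hA j hj).1 _) (mass_nonneg (hP j) _)

theorem en_nonneg {β : ℕ → ℝ} {B : ℕ → Finset ℕ} (hP : ∀ j, 0 ≤ P j)
    (hA : Adm m τ F P β B) : 0 ≤ en r m P β B :=
  sum_nonneg fun j hj => term_nonneg hP hA j (mem_range.1 hj)

theorem beta_zero {β : ℕ → ℝ} {B : ℕ → Finset ℕ} (hP : ∀ j, 0 ≤ P j) (hτ : ∀ j, 0 < τ j)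
    (hA : Adm m τ F P β B) (he : en r m P β B = 0) (j : ℕ) (hj : j < m) : β j = 0 := by
  by_contra hne
  have h1 : 0 < β j := lt_of_le_of_ne (hA j hj).1 (Ne.symm hne)
  have h2 : 0 < mass (P j) (B j) := by
    rcases (hA j hj).2.2 with h | h
    · exact absurd h hne
    · exact (hτ j).trans_le h
  have h3 := (sum_eq_zero_iff_of_nonneg
    (fun j hj => term_nonneg (r := r) hP hA j (mem_range.1 hj))).1 he j (mem_range.2 hj)
  have h4 : 0 < (β j) ^ r * mass (P j) (B j) := mul_pos (Real.rpow_pos_of_pos h1 _) h2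
  linarith

theorem vv_zero {β : ℕ → ℝ} {B : ℕ → Finset ℕ} (h : ∀ j < m, β j = 0) : vv m z β B = 0 := by
  unfold vv
  refine sum_eq_zero fun j hj => ?_
  rw [h j (mem_range.1 hj), zero_smul]

theorem bound (hN : IsLat N) (hr : 0 < r) (hτ : ∀ j, 0 < τ j) (hP : ∀ j, 0 ≤ P j)
    (hz : ∀ j, 0 ≤ z j) (hz1 : ∀ j, N (z j) = 1) {β : ℕ → ℝ} {B : ℕ → Finset ℕ}
    (hA : Adm m τ F P β B) (he : en r m P β B ≤ 1) :
    N (vv m z β B) ≤ ∑ j ∈ range m, (1 / τ j) ^ (1 / r) := by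
  unfold vv
  refine (N_sum hN _ _).trans (sum_le_sum fun j hj => ?_)
  have hj' := mem_range.1 hj
  rw [hN.smul _ _ (hA j hj').1]
  have h1 : N (res (B j) (z j)) ≤ 1 := by
    rw [← hz1 j]
    exact hN.mono _ _ (res_nonneg _ (hz j)) (res_le _ (hz j))
  have h2 : β j ≤ (1 / τ j) ^ (1 / r) := by
    rcases (hA j hj').2.2 with h | h
    · rw [h]
      exact Real.rpow_nonneg (by have := hτ j; positivity) _
    · have h3 : (β j) ^ r * mass (P j) (B j) ≤ 1 := by
        refine le_trans ?_ he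
        exact single_le_sum (f := fun j => (β j) ^ r * mass (P j) (B j))
          (fun j hj => term_nonneg hP hA j (mem_range.1 hj)) hj
      have h4 : (β j) ^ r * τ j ≤ 1 :=
        (mul_le_mul_of_nonneg_left h (Real.rpow_nonneg (hA j hj').1 _)).trans h3
      have h5 : (β j) ^ r ≤ 1 / τ j := by
        rw [le_div_iff₀ (hτ j)]
        exact h4
      have h6 : β j = ((β j) ^ r) ^ (1 / r) := by
        rw [← Real.rpow_mul (hA j hj').1, mul_one_div_cancel hr.ne', Real.rpow_one]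
      rw [h6]
      exact Real.rpow_le_rpow (Real.rpow_nonneg (hA j hj').1 _) h5 (by positivity)
  calc β j * N (res (B j) (z j)) ≤ β j * 1 := mul_le_mul_of_nonneg_left h1 (hA j hj').1
    _ = β j := mul_one _
    _ ≤ _ := h2

/-- scaling of an admissible datum -/
theorem scale_en (hr : 0 < r) {β : ℕ → ℝ} {B : ℕ → Finset ℕ}
    (hA : ∀ j < m, 0 ≤ β j) {c : ℝ} (hc : 0 < c) :
    en r m P (fun j => β j / c) B = en r m P β B / c ^ r := by
  unfold en
  rw [sum_div]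
  refine sum_congr rfl fun j hj => ?_
  have h := hA j (mem_range.1 hj)
  rw [Real.div_rpow h hc.le]
  ring

theorem scale_vv {β : ℕ → ℝ} {B : ℕ → Finset ℕ} {c : ℝ} :
    vv m z (fun j => β j / c) B = (1 / c) • vv m z β B := by
  unfold vv
  rw [smul_sum]
  refine sum_congr rfl fun j _ => ?_
  rw [smul_smul]
  congr 1
  ring

theorem scale_adm {β : ℕ → ℝ} {B : ℕ → Finset ℕ} (hA : Adm m τ F P β B) {c : ℝ} (hc : 0 < c) :
    Adm m τ F P (fun j => β j / c) B := by
  intro j hj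
  obtain ⟨h1, h2, h3⟩ := hA j hj
  refine ⟨by positivity, h2, ?_⟩
  rcases h3 with h3 | h3
  · left
    simp [h3]
  · exact Or.inr h3

end OPT

open OPT in
theorem blk_OPT : Stmt_OPT := by
  intro N hN r hr m τ F z P hτ hz Λ β0 hΛ hβ0 hlt
  have hτ0 : ∀ j, 0 < τ j := fun j => (hτ j).1
  have hP : ∀ j, 0 ≤ P j := fun j => (hz j).2.2.2.1
  have hz0 : ∀ j, 0 ≤ z j := fun j => (hz j).1
  have hz1 : ∀ j, N (z j) = 1 := fun j => (hz j).2.2.1
  -- the start datum
  have hA0 : Adm m τ F P β0 F := by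
    intro j _
    refine ⟨hβ0 j, subset_rfl, Or.inr ?_⟩
    rw [(hz j).2.2.2.2]
    exact (hτ j).2
  have hen0 : en r m P β0 F = ∑ j ∈ range m, (β0 j) ^ r := by
    unfold en
    refine sum_congr rfl fun j _ => ?_
    rw [(hz j).2.2.2.2, mul_one]
  have hvv0 : vv m z β0 F = ∑ j ∈ range m, β0 j • z j := by
    unfold vv
    refine sum_congr rfl fun j _ => ?_
    rw [res_self (F j) (hz j).2.1]
  rw [← hen0, ← hvv0] at hlt
  have hD : 0 < en r m P β0 F := by
    rcases (en_nonneg (r := r) hP hA0).lt_or_eq with h | h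
    · exact h
    · exfalso
      have h1 := beta_zero (r := r) hP hτ0 hA0 h.symm
      rw [vv_zero h1, N_zero hN, ← h, Real.zero_rpow (by positivity), mul_zero] at hlt
      exact lt_irrefl _ hlt
  -- general scaling
  have hscale : ∀ (β : ℕ → ℝ) (B : ℕ → Finset ℕ), Adm m τ F P β B → 0 < en r m P β B →
      ∃ β1 : ℕ → ℝ, Adm m τ F P β1 B ∧ en r m P β1 B ≤ 1 ∧
        N (vv m z β B) = (en r m P β B) ^ (1 / r) * N (vv m z β1 B) := by
    intro β B hA he
    set c : ℝ := (en r m P β B) ^ (1 / r) with hcdef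
    have hc : 0 < c := Real.rpow_pos_of_pos he _
    have hcr : c ^ r = en r m P β B := by
      rw [hcdef, ← Real.rpow_mul he.le, one_div_mul_cancel hr.ne', Real.rpow_one]
    refine ⟨fun j => β j / c, scale_adm hA hc, ?_, ?_⟩
    · rw [scale_en hr (fun j hj => (hA j hj).1) hc, hcr, div_self he.ne']
    · rw [scale_vv, hN.smul _ _ (by positivity)]
      field_simp
  -- the set of values
  set S : Set ℝ := {x | ∃ (β : ℕ → ℝ) (B : ℕ → Finset ℕ), Adm m τ F P β B ∧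
    en r m P β B ≤ 1 ∧ x = N (vv m z β B)} with hS
  have hbdd : BddAbove S := by
    refine ⟨∑ j ∈ range m, (1 / τ j) ^ (1 / r), ?_⟩
    rintro x ⟨β, B, hA, he, rfl⟩
    exact bound hN hr hτ0 hP hz0 hz1 hA he
  obtain ⟨β1, hA1, he1, hv1⟩ := hscale β0 F hA0 hD
  have hmem1 : N (vv m z β1 F) ∈ S := ⟨β1, F, hA1, he1, rfl⟩
  have hΛ1 : Λ < N (vv m z β1 F) := by
    rw [hv1, mul_comm] at hlt
    exact lt_of_mul_lt_mul_left hlt (Real.rpow_nonneg hD.le _)
  have hΛS : Λ < sSup S := hΛ1.trans_le (le_csSup hbdd hmem1)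
  obtain ⟨x, ⟨β, B, hA, he, rfl⟩, hx⟩ :=
    exists_lt_of_lt_csSup ⟨_, hmem1⟩ (show sSup S / 2 < sSup S by linarith)
  refine ⟨β, B, hA, ?_, he, by linarith, ?_⟩
  · rcases (en_nonneg (r := r) hP hA).lt_or_eq with h | h
    · exact h
    · exfalso
      have h1 := beta_zero (r := r) hP hτ0 hA h.symm
      rw [vv_zero h1, N_zero hN] at hx
      linarith
  · intro β' B' hA'
    rcases (en_nonneg (r := r) hP hA').lt_or_eq with h | h
    · obtain ⟨β2, hA2, he2, hv2⟩ := hscale β' B' hA' h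
      have h3 : N (vv m z β2 B') ≤ sSup S := le_csSup hbdd ⟨β2, B', hA2, he2, rfl⟩
      rw [hv2, mul_comm]
      exact mul_le_mul_of_nonneg_right (by linarith) (Real.rpow_nonneg h.le _)
    · have h1 := beta_zero (r := r) hP hτ0 hA' h.symm
      rw [vv_zero h1, N_zero hN, ← h, Real.zero_rpow (by positivity), mul_zero]

end Pool.UE
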