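import Mathlib
import Pool.Agent.Work.MP_052a41_ue.Interface

set_option autoImplicit false

/-! # MP_052a41_an, block RD (helper50) -/

namespace Pool.UE

open Finset Filter Topology

theorem RD_q_nonneg {G : ℕ → Finset (ℝ × ℝ)} (hG : IsGrid G) {k : ℕ} {p : ℝ × ℝ} (hp : p ∈ G k) :
    0 ≤ q p := by
  have h := (hG k).2 p hp
  have h1 := h.1
  unfold q
  positivity

theorem RD_sum (δ : ℝ) (hδ : 0 < δ) (m : ℕ) :
    ∑ j ∈ range m, δ * (1 / 2 : ℝ) ^ (j + 1) ≤ δ := by
  have h : ∑ j ∈ range m, δ * (1 / 2 : ℝ) ^ (j + 1) = δ * (1 - (1 / 2 : ℝ) ^ m) := by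
    induction m with
    | zero => simp
    | succ m ih => rw [sum_range_succ, ih]; ring
  rw [h]
  have : 0 < (1 / 2 : ℝ) ^ m := by positivity
  nlinarith

theorem blk_RD (h1 : Stmt_CL) (h2 : Stmt_NU) (h3 : Stmt_SQ) (h4 : Stmt_SM) (h5 : Stmt_SJ) :
    Stmt_RD := by
  intro Λ _ N r0 G Fv D top Z hN hr0 hNU hG hD htop hF hR r κ η δ hr hκ hη hδ N₀ 𝒮 𝒜
  classical
  have hr'0 : r0 < (r0 + r) / 2 := by linarith
  have hr'1 : 1 ≤ (r0 + r) / 2 := by linarith
  have hr'r : (r0 + r) / 2 < r := by linarith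
  obtain ⟨κs, ηs, hκη, hCL⟩ := h1 N hN _ r hr'1 hr'r (h2 N r0 r hr0 hr.le hNU) κ η hκ hη
  obtain ⟨F, 𝒥, z, P, hS, hP, hN0, hstep⟩ := h3 Λ N r0 G Fv D top Z hR ((r0 + r) / 2) κs ηs
    (fun j => δ * (1 / 2 : ℝ) ^ (j + 1)) hr'0
    (fun j => ⟨(hκη j).1, (hκη j).2, by positivity⟩) N₀ 𝒮 (𝒜 ∪ 𝒜.image D ∪ {Z, D Z})
  obtain ⟨m, y, Q, hpiece⟩ := hCL F 𝒥 z P hS hP
  refine ⟨(range m).biUnion F, JJ F 𝒥 m, y, Q, hpiece, ?_, ?_⟩
  · intro n hn
    obtain ⟨j, _, hj⟩ := mem_biUnion.1 hn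
    exact hN0 j n hj
  intro s hs t ht
  rw [mem_finsupp_iff] at ht
  obtain ⟨ht1, ht2⟩ := ht
  have hdisj : ∀ i j, i ≠ j → ∀ k, k ∈ F i → k ∈ F j → False := by
    intro i j hij k hi hj
    rcases lt_or_gt_of_ne hij with h | h
    · exact lt_irrefl _ (hS i j h k hi k hj)
    · exact lt_irrefl _ (hS j i h k hj k hi)
  set Tt : ℕ → St := fun i => if i < m then t.filter (· ∈ F i) else 0 with hTt
  have hTk : ∀ j, ∀ k ∈ F j, Tt j k = t k := by
    intro j k hk
    by_cases hj : j < m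
    · simp only [hTt, hj, if_true]
      exact Finsupp.filter_apply_pos _ _ hk
    · simp only [hTt, hj, if_false]
      have : k ∉ t.support := by
        intro hkt
        obtain ⟨i, hi, hki⟩ := mem_biUnion.1 (ht1 hkt)
        rw [mem_range] at hi
        exact hdisj i j (by omega) k hki hk
      rw [Finsupp.notMem_support_iff] at this
      rw [this]
      rfl
  have hTF : ∀ i, Tt i ∈ (F i).finsupp G := by
    intro i
    rw [mem_finsupp_iff]
    constructor
    · intro k hk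
      by_cases hi : i < m
      · simp only [hTt, hi, if_true] at hk
        rw [Finsupp.support_filter, mem_filter] at hk
        exact hk.2
      · simp only [hTt, hi, if_false] at hk
        simp at hk
    · intro k hk
      by_cases hi : i < m
      · rw [hTk i k hk]
        exact ht2 k (mem_biUnion.2 ⟨i, mem_range.2 hi, hk⟩)
      · have : Tt i k = 0 := by simp only [hTt, hi, if_false]; rfl
        rw [this]
        exact (hG k).1
  have hsum : ∑ i ∈ range m, Tt i = t := by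
    ext1 k
    rw [Finsupp.finsetSum_apply]
    by_cases hk : k ∈ (range m).biUnion F
    · obtain ⟨i, hi, hki⟩ := mem_biUnion.1 hk
      rw [sum_eq_single_of_mem i hi, hTk i k hki]
      intro j hj hji
      have : k ∉ (Tt j).support := fun h => hdisj j i hji k ((mem_finsupp_iff.1 (hTF j)).1 h) hki
      exact Finsupp.notMem_support_iff.1 this
    · have h0 : t k = 0 := by
        have : k ∉ t.support := fun h => hk (ht1 h)
        exact Finsupp.notMem_support_iff.1 this
      rw [h0]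
      refine sum_eq_zero fun j hj => ?_
      have : k ∉ (Tt j).support := fun h =>
        hk (mem_biUnion.2 ⟨j, hj, (mem_finsupp_iff.1 (hTF j)).1 h⟩)
      exact Finsupp.notMem_support_iff.1 this
  have hu0 : s + ∑ i ∈ range 0, Tt i = s := by simp
  have hum : s + ∑ i ∈ range m, Tt i = s + t := by rw [hsum]
  have hst := hstep s hs Tt hTF
  have hQ : ∀ j, ∑ k ∈ F j, q (Tt j k) = ∑ k ∈ F j, q (t k) := fun j =>
    sum_congr rfl fun k hk => by rw [hTk j k hk]
  have hw : ∀ k, 0 ≤ q (t k) := by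
    intro k
    by_cases hk : k ∈ (range m).biUnion F
    · exact RD_q_nonneg hG (ht2 k hk)
    · have : k ∉ t.support := fun h => hk (ht1 h)
      rw [Finsupp.notMem_support_iff.1 this]
      simp [q]
  have hδs : ∀ j : ℕ, 0 ≤ δ * (1 / 2 : ℝ) ^ (j + 1) := fun j => by positivity
  have hsumδ := RD_sum δ hδ m
  have hbi : ∑ k ∈ (range m).biUnion F, q (t k) = ∑ i ∈ range m, ∑ k ∈ F i, q (t k) := by
    rw [sum_biUnion]
    intro i _ j _ hij
    rw [Function.onFun, Finset.disjoint_left]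
    intro k hki hkj
    exact hdisj i j hij k hki hkj
  -- (SM) for an element whose derivative is also controlled
  have hSM : ∀ Γ, Γ ∈ 𝒜 ∪ 𝒜.image D ∪ {Z, D Z} → D Γ ∈ 𝒜 ∪ 𝒜.image D ∪ {Z, D Z} → ∀ j,
      min (Fv Γ s + ∑ i ∈ range j, ∑ k ∈ F i, q (t k)) (Fv (D Γ) s) -
        ∑ i ∈ range j, δ * (1 / 2 : ℝ) ^ (i + 1) ≤ Fv Γ (s + ∑ i ∈ range j, Tt i) := by
    intro Γ hΓ hDΓ j
    have := h4 (fun j => Fv Γ (s + ∑ i ∈ range j, Tt i))
      (fun j => Fv (D Γ) (s + ∑ i ∈ range j, Tt i))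
      (fun j => Fv (D (D Γ)) (s + ∑ i ∈ range j, Tt i))
      (fun j => ∑ k ∈ F j, q (t k)) (fun j => δ * (1 / 2 : ℝ) ^ (j + 1))
      (fun j => sum_nonneg fun k _ => hw k) hδs
      (fun j => hF _ _ _ (hD _))
      (fun j => by
        have := (hst j).2 Γ hΓ
        rw [hQ] at this
        exact this)
      (fun j => by
        have := (hst j).2 (D Γ) hDΓ
        rw [hQ] at this
        exact this) j
    simp only [hu0] at this
    exact this
  constructor
  · have hZ := hSM Z (by simp) (by simp)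
    obtain ⟨J, hJ, hJ2⟩ := h5 F 𝒥 (fun j => Fv top (s + ∑ i ∈ range j, Tt i))
      (fun j => Fv Z (s + ∑ i ∈ range j, Tt i)) (fun j => δ * (1 / 2 : ℝ) ^ (j + 1))
      (fun k => q (t k)) (Fv (D Z) s) hw hδs
      (fun j => by
        refine le_trans ?_ (hZ j)
        have h6 : Fv top s ≤ Fv Z s := hF _ _ _ (htop Z)
        simp only [hu0]
        refine sub_le_sub_right (min_le_min ?_ le_rfl) _
        linarith)
      (fun j => by
        obtain ⟨J, hJ, hJ2⟩ := (hst j).1
        refine ⟨J, hJ, ?_⟩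
        have e : ∑ k ∈ F j \ J, q (Tt j k) = ∑ k ∈ F j \ J, q (t k) :=
          sum_congr rfl fun k hk => by rw [hTk j k (mem_sdiff.1 hk).1]
        rw [e] at hJ2
        exact hJ2) m
    refine ⟨J, hJ, ?_⟩
    simp only [hu0, hum] at hJ2
    linarith
  · intro Γ hΓ
    have := hSM Γ (by simp [hΓ]) (by
      rw [mem_union, mem_union]
      exact Or.inl (Or.inr (mem_image_of_mem D hΓ))) m
    rw [hum] at this
    rw [hbi]
    linarith

end Pool.UE
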