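import Pool.Agent.Work.MP_052a41_ue.Interface

set_option autoImplicit false

namespace Pool.UE

open Finset Filter Topology

/-- block RT: the top has the reaching property -/
theorem blk_RT : Stmt_RT := by
  classical
  intro Λ _ N r0 G Fv D top hN hr0 hG hD hanti hstep r κ η δ hr hκ hη hδ N₀ 𝒮 𝒜
  have hN0 : N 0 = 0 := by
    have := hN.smul 0 0 le_rfl
    rwa [zero_smul, zero_mul] at this
  have h1 : ∀ᶠ n in atTop, ∀ Γ ∈ insert top 𝒜, ∀ s ∈ 𝒮, ∀ p ∈ G n,
      min (Fv Γ s + q p) (Fv (D Γ) s) - δ ≤ Fv Γ (s + Finsupp.single n p) := by
    rw [Filter.eventually_all_finset]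
    intro Γ _
    rw [Filter.eventually_all_finset]
    intro s _
    exact hstep Γ s δ hδ
  obtain ⟨n, hn, hnN⟩ := (h1.and (eventually_ge_atTop N₀)).exists
  have hr1 : 0 < r := by linarith
  refine ⟨{n}, {∅}, Finsupp.single n 1, Finsupp.single n 1, ?_, ?_, ?_⟩
  · have hs0 : (0 : ℕ →₀ ℝ) ≤ Finsupp.single n 1 := by
      intro m
      by_cases h : m = n
      · subst h; simp
      · simp [Finsupp.single_apply, Ne.symm h]
    have hres0 : res ∅ (Finsupp.single n (1 : ℝ)) = 0 := by
      unfold res
      ext m
      simp [Finsupp.filter_apply]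
    refine ⟨hs0, hs0, Finsupp.support_single_subset, Finsupp.support_single_subset, hN.single n,
      by simp [mass], ?_, ?_, ?_⟩
    · intro J hJ
      rw [Set.mem_singleton_iff] at hJ
      rw [hJ]; exact empty_subset _
    · intro B hB
      rcases subset_singleton_iff.mp hB with h | h
      · rw [h, hres0, hN0]
        have : 0 ≤ (mass (Finsupp.single n (1 : ℝ)) ∅) ^ (1 / r) := by
          apply Real.rpow_nonneg
          simp [mass]
        linarith
      · have hres1 : res B (Finsupp.single n (1 : ℝ)) = Finsupp.single n 1 := by
          unfold res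
          rw [h]
          ext m
          by_cases h : m = n
          · subst h; simp [Finsupp.filter_apply]
          · simp [Finsupp.filter_apply, Finsupp.single_apply, h, Ne.symm h]
        have hm : mass (Finsupp.single n (1 : ℝ)) B = 1 := by rw [h]; simp [mass]
        rw [hres1, hN.single, hm, Real.one_rpow]
        linarith
    · intro J hJ
      rw [Set.mem_singleton_iff] at hJ
      rw [hJ, hres0, hN0]
      exact hη.le
  · intro m hm
    rw [mem_singleton] at hm
    rw [hm]; exact hnN
  · intro s hs t ht
    rw [Finset.mem_finsupp_iff] at ht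
    obtain ⟨ht1, ht2⟩ := ht
    have htn : t n ∈ G n := ht2 n (mem_singleton_self n)
    have ht : t = Finsupp.single n (t n) := by
      ext m
      · by_cases h : m = n
        · subst h; simp
        · have : t m = 0 := by
            by_contra h0
            exact h (mem_singleton.mp (ht1 (Finsupp.mem_support_iff.mpr h0)))
          simp [Finsupp.single_apply, Ne.symm h, this]
      · by_cases h : m = n
        · subst h; simp
        · have : t m = 0 := by
            by_contra h0
            exact h (mem_singleton.mp (ht1 (Finsupp.mem_support_iff.mpr h0)))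
          simp [Finsupp.single_apply, Ne.symm h, this]
    have hq : 0 ≤ q (t n) := by
      unfold q
      have := ((hG n).2 _ htn).1
      positivity
    refine ⟨⟨∅, rfl, ?_⟩, ?_⟩
    · have h2 := hn top (mem_insert_self _ _) s hs (t n) htn
      rw [← ht] at h2
      have h3 : Fv top s ≤ Fv (D top) s := hanti _ _ _ (hD top)
      rw [sdiff_empty, sum_singleton]
      have h4 : min (Fv top s) (Fv top s + q (t n)) ≤
          min (Fv top s + q (t n)) (Fv (D top) s) := by
        refine le_min (min_le_right _ _) ((min_le_left _ _).trans h3)
      linarith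
    · intro Γ hΓ
      have h2 := hn Γ (mem_insert_of_mem hΓ) s hs (t n) htn
      rw [← ht] at h2
      rw [sum_singleton]
      exact h2

end Pool.UE
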