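import Mathlib
import Pool.Agent.Work.MP_052a41_ue.Interface

set_option autoImplicit false
set_option linter.unusedSectionVars false

/-! # MP_052a41_an, upper estimates: block SG (helper98)

Signs: from an upper estimate of the moduli to vectors of the span. -/

namespace Pool.UE

open Finset Filter Topology

namespace SGaux

variable {K : Type} [MetricSpace K] [CompactSpace K]

/-- the combination of the moduli -/
noncomputable def G (f : ℕ → C(K, ℝ)) (a : ℕ →₀ ℝ) : C(K, ℝ) :=
  Finsupp.linearCombination ℝ (fun n => |f n|) a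

theorem NN_eq (f : ℕ → C(K, ℝ)) (a : ℕ →₀ ℝ) : NN f a = ‖G f a‖ := by
  unfold NN G
  rw [Finsupp.linearCombination_apply]

theorem G_apply (f : ℕ → C(K, ℝ)) (a : ℕ →₀ ℝ) (s : K) :
    G f a s = ∑ n ∈ a.support, a n * |f n s| := by
  unfold G
  rw [Finsupp.linearCombination_apply, Finsupp.sum, ContinuousMap.sum_apply]
  refine Finset.sum_congr rfl fun n _ => ?_
  simp

theorem G_nonneg (f : ℕ → C(K, ℝ)) (a : ℕ →₀ ℝ) (ha : 0 ≤ a) (s : K) : 0 ≤ G f a s := by
  rw [G_apply]
  exact Finset.sum_nonneg fun n _ => mul_nonneg (ha n) (abs_nonneg _)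

/-- the signed combination -/
noncomputable def Wv (f : ℕ → C(K, ℝ)) (a : ℕ →₀ ℝ) (h : K) : C(K, ℝ) :=
  ∑ n ∈ a.support, (a n * (if 0 ≤ f n h then 1 else -1)) • f n

theorem Wv_mem (f : ℕ → C(K, ℝ)) (a : ℕ →₀ ℝ) (h : K) :
    Wv f a h ∈ Submodule.span ℝ (Set.range f) := by
  unfold Wv
  exact Submodule.sum_mem _ fun n _ =>
    Submodule.smul_mem _ _ (Submodule.subset_span ⟨n, rfl⟩)

theorem Wv_apply (f : ℕ → C(K, ℝ)) (a : ℕ →₀ ℝ) (h s : K) :
    Wv f a h s = ∑ n ∈ a.support, (a n * (if 0 ≤ f n h then 1 else -1)) * f n s := by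
  unfold Wv
  rw [ContinuousMap.sum_apply]
  refine Finset.sum_congr rfl fun n _ => ?_
  rw [ContinuousMap.smul_apply, smul_eq_mul]

theorem Wv_abs (f : ℕ → C(K, ℝ)) (a : ℕ →₀ ℝ) (ha : 0 ≤ a) (h s : K) :
    |Wv f a h s| ≤ G f a s := by
  rw [Wv_apply, G_apply]
  refine (Finset.abs_sum_le_sum_abs _ _).trans (Finset.sum_le_sum fun n _ => ?_)
  have h0 : 0 ≤ a n := ha n
  rw [abs_mul, abs_mul, abs_of_nonneg h0]
  have h1 : |(if 0 ≤ f n h then (1 : ℝ) else -1)| = 1 := by
    split_ifs <;> simp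
  rw [h1, mul_one]

theorem Wv_self (f : ℕ → C(K, ℝ)) (a : ℕ →₀ ℝ) (h : K) : Wv f a h h = G f a h := by
  rw [Wv_apply, G_apply]
  refine Finset.sum_congr rfl fun n _ => ?_
  split_ifs with h0
  · rw [abs_of_nonneg h0, mul_one]
  · rw [abs_of_neg (not_le.mp h0)]
    ring

/-- a nonnegative continuous function of norm one attains the value one -/
theorem attain (g : C(K, ℝ)) (hg : ∀ s, 0 ≤ g s) (h1 : ‖g‖ = 1) : ∃ h : K, g h = 1 := by
  have hne : Nonempty K := by
    by_contra hcon
    have hE : IsEmpty K := not_nonempty_iff.mp hcon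
    have h0 : g = 0 := by
      ext s
      exact (hE.false s).elim
    rw [h0, norm_zero] at h1
    exact zero_ne_one h1
  obtain ⟨h, -, hh⟩ := isCompact_univ.exists_isMaxOn (Set.univ_nonempty (α := K))
    (g.continuous.continuousOn)
  refine ⟨h, le_antisymm ?_ ?_⟩
  · have h2 := g.norm_coe_le_norm h
    rw [Real.norm_eq_abs, h1] at h2
    exact (le_abs_self _).trans h2
  · have h3 : ‖g‖ ≤ g h := by
      rw [ContinuousMap.norm_le _ (hg h)]
      intro s
      rw [Real.norm_eq_abs, abs_of_nonneg (hg s)]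
      exact hh (Set.mem_univ s)
    rw [h1] at h3
    exact h3

end SGaux

open SGaux in
/-- block SG -/
theorem blk_SG : Stmt_SG := by
  intro K _ _ f r hr hno
  unfold NoUp at hno
  push Not at hno
  obtain ⟨F, z, -, hz, C, hC⟩ := hno
  have hh : ∀ j, ∃ h : K, G f (z j) h = 1 := fun j =>
    attain (G f (z j)) (G_nonneg f (z j) (hz j).1) (by rw [← NN_eq]; exact (hz j).2.2)
  choose h hh using hh
  refine ⟨fun j => Wv f (z j) (h j), C, fun j => ⟨Wv_mem f (z j) (h j), ?_⟩, fun m β => ?_⟩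
  · refine le_antisymm ?_ ?_
    · rw [ContinuousMap.norm_le _ zero_le_one]
      intro s
      rw [Real.norm_eq_abs]
      refine (Wv_abs f (z j) (hz j).1 (h j) s).trans ?_
      have h2 := (G f (z j)).norm_coe_le_norm s
      rw [Real.norm_eq_abs, ← NN_eq, (hz j).2.2] at h2
      exact (le_abs_self _).trans h2
    · have h2 := (Wv f (z j) (h j)).norm_coe_le_norm (h j)
      rw [Real.norm_eq_abs, Wv_self, hh j, abs_one] at h2
      exact h2
  · have h1 := hC m (fun j => |β j|) (fun j => abs_nonneg _)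
    refine le_trans ?_ h1
    rw [NN_eq]
    rw [ContinuousMap.norm_le _ (norm_nonneg _)]
    intro s
    have h2 := (G f (∑ j ∈ range m, |β j| • z j)).norm_coe_le_norm s
    refine le_trans ?_ h2
    rw [Real.norm_eq_abs, Real.norm_eq_abs]
    have h3 : G f (∑ j ∈ range m, |β j| • z j) = ∑ j ∈ range m, |β j| • G f (z j) := by
      unfold G
      rw [map_sum]
      refine Finset.sum_congr rfl fun j _ => ?_
      rw [map_smul]
    rw [h3, ContinuousMap.sum_apply, ContinuousMap.sum_apply]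
    refine (Finset.abs_sum_le_sum_abs _ _).trans ?_
    refine le_trans (Finset.sum_le_sum fun j _ => ?_) (le_abs_self _)
    rw [ContinuousMap.smul_apply, ContinuousMap.smul_apply, smul_eq_mul, smul_eq_mul, abs_mul]
    exact mul_le_mul_of_nonneg_left (Wv_abs f (z j) (hz j).1 (h j) s) (abs_nonneg _)

end Pool.UE
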