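import Pool.Agent.Work.MP_052a41_ue.Interface

/-! # MP_052a41_an, upper estimates: block `SJ` (helper79) -/

set_option autoImplicit false

namespace Pool.UE

open Finset Filter Topology

namespace SJaux

theorem sum_union_le (w : ℕ → ℝ) (hw : ∀ k, 0 ≤ w k) (A B : Finset ℕ) :
    ∑ k ∈ A ∪ B, w k ≤ ∑ k ∈ A, w k + ∑ k ∈ B, w k := by
  have h := Finset.sum_union_inter (s₁ := A) (s₂ := B) (f := w)
  have h2 : 0 ≤ ∑ k ∈ A ∩ B, w k := sum_nonneg fun k _ => hw k
  linarith

theorem sum_mono (w : ℕ → ℝ) (hw : ∀ k, 0 ≤ w k) {A B : Finset ℕ} (h : A ⊆ B) :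
    ∑ k ∈ A, w k ≤ ∑ k ∈ B, w k :=
  sum_le_sum_of_subset_of_nonneg h fun k _ _ => hw k

theorem range_succ_biUnion (F : ℕ → Finset ℕ) (j : ℕ) :
    (range (j + 1)).biUnion F = (range j).biUnion F ∪ F j := by
  rw [Finset.range_add_one, Finset.biUnion_insert, Finset.union_comm]

theorem sum_biUnion_le (w : ℕ → ℝ) (hw : ∀ k, 0 ≤ w k) (F : ℕ → Finset ℕ) (j : ℕ) :
    ∑ k ∈ (range j).biUnion F, w k ≤ ∑ i ∈ range j, ∑ k ∈ F i, w k := by
  induction j with
  | zero => simp
  | succ j ih =>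
    rw [range_succ_biUnion, sum_range_succ]
    exact (sum_union_le w hw _ _).trans (by linarith)

end SJaux

open SJaux

theorem blk_SJ : Stmt_SJ := by
  intro F 𝒥 f g δs w V hw hδ hg hf j
  induction j with
  | zero =>
    refine ⟨∅, rfl, ?_⟩
    simp
  | succ j ih =>
    obtain ⟨J, hJ, hJm⟩ := ih
    obtain ⟨J₂, hJ₂, h2⟩ := hf j
    rw [sum_range_succ δs]
    rcases le_total (g j) (f j + ∑ k ∈ F j \ J₂, w k) with h | h
    · rw [min_eq_left h] at h2
      refine ⟨F j, Or.inr rfl, ?_⟩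
      have h3 := hg j
      have h4 : ∑ k ∈ (range (j + 1)).biUnion F \ F j, w k ≤
          ∑ i ∈ range j, ∑ k ∈ F i, w k := by
        refine le_trans (sum_mono w hw ?_) (sum_biUnion_le w hw F j)
        rw [range_succ_biUnion]
        intro x hx
        rw [Finset.mem_sdiff, Finset.mem_union] at hx
        rcases hx with ⟨hx | hx, hn⟩
        · exact hx
        · exact absurd hx hn
      have h5 : min V (f 0 + ∑ k ∈ (range (j + 1)).biUnion F \ F j, w k) ≤
          min (f 0 + ∑ i ∈ range j, ∑ k ∈ F i, w k) V := by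
        rw [min_comm]
        exact min_le_min (by linarith) le_rfl
      linarith
    · rw [min_eq_right h] at h2
      refine ⟨J ∪ J₂, Or.inl ⟨J, hJ, J₂, hJ₂, rfl⟩, ?_⟩
      have h4 : ∑ k ∈ (range (j + 1)).biUnion F \ (J ∪ J₂), w k ≤
          ∑ k ∈ (range j).biUnion F \ J, w k + ∑ k ∈ F j \ J₂, w k := by
        refine le_trans (sum_mono w hw ?_) (sum_union_le w hw _ _)
        rw [range_succ_biUnion]
        intro x hx
        rw [Finset.mem_sdiff, Finset.mem_union, Finset.mem_union] at hx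
        rw [Finset.mem_union, Finset.mem_sdiff, Finset.mem_sdiff]
        rcases hx with ⟨hx | hx, hn⟩
        · exact Or.inl ⟨hx, fun h => hn (Or.inl h)⟩
        · exact Or.inr ⟨hx, fun h => hn (Or.inr h)⟩
      have h0 : 0 ≤ ∑ k ∈ F j \ J₂, w k := sum_nonneg fun k _ => hw k
      have h5 : min V (f 0 + ∑ k ∈ (range (j + 1)).biUnion F \ (J ∪ J₂), w k) ≤
          min V (f 0 + ∑ k ∈ (range j).biUnion F \ J, w k) + ∑ k ∈ F j \ J₂, w k := by
        rcases le_total V (f 0 + ∑ k ∈ (range j).biUnion F \ J, w k) with h6 | h6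
        · rw [min_eq_left h6]
          exact (min_le_left _ _).trans (by linarith)
        · rw [min_eq_right h6]
          exact (min_le_right _ _).trans (by linarith)
      linarith

end Pool.UE
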