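import Pool.Agent.Work.MP_052a41_ue.Interface

set_option autoImplicit false

namespace Pool.UE

open Finset

theorem blk_SM : Stmt_SM := by
  intro a b b2 Q δs hQ hδ hb ha hbb
  have h1 : ∀ j, b 0 - ∑ i ∈ range j, δs i ≤ b j := by
    intro j
    induction j with
    | zero => simp
    | succ n ih =>
      have h2 := hbb n
      have h3 : b n ≤ min (b n + Q n) (b2 n) := le_min (by linarith [hQ n]) (hb n)
      rw [Finset.sum_range_succ]
      linarith
  intro j
  induction j with
  | zero => simp
  | succ n ih =>
    have h2 := ha n
    have h4 := h1 n
    rw [Finset.sum_range_succ, Finset.sum_range_succ]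
    have h5 : min (a 0 + (∑ i ∈ range n, Q i + Q n)) (b 0) - ∑ i ∈ range n, δs i
        ≤ min (a n + Q n) (b n) := by
      apply le_min
      · have h6 : min (a 0 + (∑ i ∈ range n, Q i + Q n)) (b 0)
            ≤ min (a 0 + ∑ i ∈ range n, Q i) (b 0) + Q n := by
          rw [← min_add_add_right]
          apply le_min
          · exact (min_le_left _ _).trans (by linarith)
          · exact (min_le_right _ _).trans (by linarith [hQ n])
        linarith
      · have h6 := min_le_right (a 0 + (∑ i ∈ range n, Q i + Q n)) (b 0)
        linarith
    linarith

end Pool.UE
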