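import Pool.Agent.Work.MP_052a41_ue.Interface

set_option autoImplicit false

namespace Pool.UE

open Finset Filter Topology

/-- block SQ: sequences of pieces -/
theorem blk_SQ : Stmt_SQ := by
  classical
  intro Λ N r0 G Fv D top Z hRR r κs ηs δs hr hpos N₀ 𝒮 𝒜
  have h0 : ∀ (j M : ℕ) (S : Finset St), ∃ (F : Finset ℕ) (𝒥 : Set (Finset ℕ))
      (z P : ℕ →₀ ℝ), Piece N r (κs j) (ηs j) F 𝒥 z P ∧ (∀ n ∈ F, M ≤ n) ∧
      ∀ s ∈ S, ∀ t ∈ F.finsupp G,
        (∃ J ∈ 𝒥, min (Fv Z s) (Fv top s + ∑ k ∈ F \ J, q (t k)) - δs j ≤ Fv top (s + t)) ∧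
        ∀ Γ ∈ 𝒜, min (Fv Γ s + ∑ k ∈ F, q (t k)) (Fv (D Γ) s) - δs j ≤ Fv Γ (s + t) :=
    fun j M S => hRR r (κs j) (ηs j) (δs j) hr (hpos j).1 (hpos j).2.1 (hpos j).2.2 M S 𝒜
  choose Fc Jc zc Pc h1 h2 h3 using h0
  let nxt : ℕ → ℕ × Finset St → ℕ × Finset St := fun j x =>
    (max x.1 ((Fc j x.1 x.2).sup id + 1),
      Finset.image₂ (fun a b => a + b) x.2 ((Fc j x.1 x.2).finsupp G))
  let st : ℕ → ℕ × Finset St := fun j => Nat.rec (N₀, 𝒮) (fun j x => nxt j x) j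
  have st0 : st 0 = (N₀, 𝒮) := rfl
  have stS : ∀ j, st (j + 1) = nxt j (st j) := fun j => rfl
  have hmono : Monotone fun j => (st j).1 := by
    refine monotone_nat_of_le_succ fun j => ?_
    rw [stS]
    exact le_max_left _ _
  have hstate : ∀ s ∈ 𝒮, ∀ T : ℕ → St,
      (∀ i, T i ∈ (Fc i (st i).1 (st i).2).finsupp G) → ∀ j,
      s + ∑ i ∈ range j, T i ∈ (st j).2 := by
    intro s hs T hT j
    induction j with
    | zero => rw [range_zero, sum_empty, add_zero, st0]; exact hs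
    | succ j ih =>
      rw [sum_range_succ, ← add_assoc, stS]
      exact mem_image₂_of_mem ih (hT j)
  refine ⟨fun j => Fc j (st j).1 (st j).2, fun j => Jc j (st j).1 (st j).2,
    fun j => zc j (st j).1 (st j).2, fun j => Pc j (st j).1 (st j).2, ?_, fun j => h1 _ _ _,
    ?_, ?_⟩
  · intro i j hij a ha b hb
    have e1 : (st j).1 ≤ b := h2 j _ _ b hb
    have e2 : (st (i + 1)).1 ≤ (st j).1 := hmono hij
    have e3 : (Fc i (st i).1 (st i).2).sup id + 1 ≤ (st (i + 1)).1 := by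
      rw [stS]; exact le_max_right _ _
    have e4 : a ≤ (Fc i (st i).1 (st i).2).sup id := le_sup (f := id) ha
    omega
  · intro j n hn
    have e1 : (st j).1 ≤ n := h2 j _ _ n hn
    have e2 : (st 0).1 ≤ (st j).1 := hmono (Nat.zero_le j)
    rw [st0] at e2
    exact e2.trans e1
  · intro s hs T hT j
    have e := h3 j (st j).1 (st j).2 _ (hstate s hs T hT j) (T j) (hT j)
    rw [add_assoc, ← sum_range_succ] at e
    exact e

end Pool.UE
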