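import Mathlib
import Pool.Agent.Work.MP_052a41_ue.Interface

set_option autoImplicit false
set_option linter.unusedSectionVars false

/-! # MP_052a41_an, upper estimates: block ST, the step lemma (helper53) -/

namespace Pool.UE

namespace STB

open Finset Filter Topology

variable {K : Type} [MetricSpace K] [CompactSpace K] {W : Type} [NormedAddCommGroup W]
  [NormedSpace ℝ W] (T : C(K, ℝ) →L[ℝ] W) (f : ℕ → C(K, ℝ)) (L : ℝ)

theorem Psi_nonneg (s : St) (x : WeakDual ℝ W) : 0 ≤ Psi T f L s x :=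
  Finset.sum_nonneg fun _ _ => abs_nonneg _

theorem bdd (Γ : Set (WeakDual ℝ W)) (s : St) :
    BddBelow (insert 1 {v | ∃ x ∈ Γ, sat T f s x ∧ v = Psi T f L s x}) := by
  refine ⟨0, ?_⟩
  rintro v (rfl | ⟨x, -, -, rfl⟩)
  · exact zero_le_one
  · exact Psi_nonneg T f L s x

theorem FV_le {Γ : Set (WeakDual ℝ W)} {s : St} {x : WeakDual ℝ W} (hx : x ∈ Γ)
    (hs : sat T f s x) : FV T f L Γ s ≤ Psi T f L s x :=
  csInf_le (bdd T f L Γ s) (Set.mem_insert_of_mem _ ⟨x, hx, hs, rfl⟩)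

theorem FV_le_one (Γ : Set (WeakDual ℝ W)) (s : St) : FV T f L Γ s ≤ 1 :=
  csInf_le (bdd T f L Γ s) (Set.mem_insert _ _)

theorem exists_of_FV_lt {Γ : Set (WeakDual ℝ W)} {s : St} {m : ℝ} (hm : m ≤ 1)
    (h : FV T f L Γ s < m) : ∃ x ∈ Γ, sat T f s x ∧ Psi T f L s x < m := by
  obtain ⟨v, hv, hvm⟩ := exists_lt_of_csInf_lt ⟨1, Set.mem_insert _ _⟩ h
  rcases hv with rfl | ⟨x, hx, hs, rfl⟩
  · exact absurd hvm (not_lt.2 hm)
  · exact ⟨x, hx, hs, hvm⟩

theorem gg_zero (n : ℕ) : gg T f L n 0 = 0 := by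
  simp [gg]

theorem Psi_add_single {s : St} {n : ℕ} (hn : n ∉ s.support) (p : ℝ × ℝ) (x : WeakDual ℝ W) :
    Psi T f L (s + Finsupp.single n p) x = Psi T f L s x + |x (gg T f L n p)| := by
  have h0 : ∀ k, |x (gg T f L k 0)| = 0 := by
    intro k
    rw [gg_zero, map_zero, abs_zero]
  unfold Psi
  rw [Finsupp.sum_add_index_of_disjoint, Finsupp.sum_single_index (h0 n)]
  rw [Finset.disjoint_iff_ne]
  intro a ha k hk
  rintro rfl
  have h1 : a = n := by
    have := Finsupp.support_single_subset hk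
    simpa using this
  exact hn (h1 ▸ ha)

theorem continuous_Psi (s : St) : Continuous fun x : WeakDual ℝ W => Psi T f L s x := by
  unfold Psi Finsupp.sum
  exact continuous_finsetSum _ fun k _ => (WeakDual.eval_continuous _).abs

theorem norm_tr_le {M : ℝ} (hM : 0 ≤ M) (g : C(K, ℝ)) : ‖tr M g‖ ≤ M := by
  rw [ContinuousMap.norm_le _ hM]
  intro s
  change ‖max (-M) (min M (g s))‖ ≤ M
  rw [Real.norm_eq_abs, abs_le]
  constructor
  · exact le_max_left _ _
  · exact max_le (by linarith) (min_le_left _ _)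

theorem tr_sub_le {M : ℝ} (hM : 0 ≤ M) (g : C(K, ℝ)) (s : K) :
    |(g - tr M g) s| ≤ |g s| := by
  change |g s - max (-M) (min M (g s))| ≤ |g s|
  rcases le_total 0 (g s) with h | h
  · have h1 : 0 ≤ min M (g s) := le_min hM h
    have h2 : max (-M) (min M (g s)) = min M (g s) := max_eq_right (by linarith)
    rw [h2, abs_of_nonneg h, abs_of_nonneg (by linarith [min_le_right M (g s)])]
    linarith
  · have h1 : min M (g s) = g s := min_eq_right (by linarith)
    rw [h1, abs_of_nonpos h, abs_of_nonpos (by linarith [le_max_right (-M) (g s)])]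
    have h2 : max (-M) (g s) ≤ 0 := max_le (by linarith) h
    linarith

end STB

open Finset Filter Topology STB

set_option maxHeartbeats 4000000 in
theorem blk_ST : Stmt_ST := by
  intro K _ _ W _ _ T f L ε hL hε hεL hW Γ hΓ s δ hδ
  by_contra hcon
  rw [Filter.not_eventually] at hcon
  have hcon2 : ∃ᶠ n in atTop, ∃ p : ℝ × ℝ, 0 ≤ p.1 ∧ p.1 ≤ 1 ∧ |p.2| ≤ 1 ∧
      FV T f L Γ (s + Finsupp.single n p) <
        min (FV T f L Γ s + q p) (FV T f L (NoLq.Der ε Γ) s) - δ := by
    refine hcon.mono fun n hn => ?_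
    push Not at hn
    obtain ⟨p, h1, h2, h3, h4⟩ := hn
    exact ⟨p, h1, h2, h3, h4⟩
  have hex : ∀ n, ∃ (p : ℝ × ℝ) (x : WeakDual ℝ W),
      (∃ p : ℝ × ℝ, 0 ≤ p.1 ∧ p.1 ≤ 1 ∧ |p.2| ≤ 1 ∧
        FV T f L Γ (s + Finsupp.single n p) <
          min (FV T f L Γ s + q p) (FV T f L (NoLq.Der ε Γ) s) - δ) →
      0 ≤ p.1 ∧ p.1 ≤ 1 ∧ |p.2| ≤ 1 ∧ x ∈ Γ ∧ sat T f (s + Finsupp.single n p) x ∧
        Psi T f L (s + Finsupp.single n p) x <
          min (FV T f L Γ s + q p) (FV T f L (NoLq.Der ε Γ) s) - δ := by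
    intro n
    by_cases hn : ∃ p : ℝ × ℝ, 0 ≤ p.1 ∧ p.1 ≤ 1 ∧ |p.2| ≤ 1 ∧
        FV T f L Γ (s + Finsupp.single n p) <
          min (FV T f L Γ s + q p) (FV T f L (NoLq.Der ε Γ) s) - δ
    · obtain ⟨p, h1, h2, h3, h4⟩ := hn
      have hm : min (FV T f L Γ s + q p) (FV T f L (NoLq.Der ε Γ) s) - δ ≤ 1 := by
        have e1 := min_le_right (FV T f L Γ s + q p) (FV T f L (NoLq.Der ε Γ) s)
        have e2 := FV_le_one T f L (NoLq.Der ε Γ) s
        linarith
      obtain ⟨x, hx1, hx2, hx3⟩ := exists_of_FV_lt T f L hm h4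
      exact ⟨p, x, fun _ => ⟨h1, h2, h3, hx1, hx2, hx3⟩⟩
    · exact ⟨0, 0, fun h => absurd h hn⟩
  choose p x hx using hex
  set A : Set ℕ := {n | ∃ p : ℝ × ℝ, 0 ≤ p.1 ∧ p.1 ≤ 1 ∧ |p.2| ≤ 1 ∧
      FV T f L Γ (s + Finsupp.single n p) <
        min (FV T f L Γ s + q p) (FV T f L (NoLq.Der ε Γ) s) - δ} with hA
  set l : Filter ℕ := atTop ⊓ 𝓟 A with hl
  have hlne : l.NeBot := Filter.frequently_mem_iff_neBot.1 hcon2
  set 𝒰 := Ultrafilter.of l with h𝒰
  have hle : (𝒰 : Filter ℕ) ≤ l := Ultrafilter.of_le l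
  have hbad : ∀ᶠ n in (𝒰 : Filter ℕ), n ∈ A :=
    hle (mem_inf_of_right (mem_principal_self _))
  have hat : (𝒰 : Filter ℕ) ≤ atTop := hle.trans inf_le_left
  have hmem : (𝒰.map x : Filter (WeakDual ℝ W)) ≤ 𝓟 Γ := by
    rw [Filter.le_principal_iff]
    exact hbad.mono fun n hn => (hx n hn).2.2.2.1
  obtain ⟨z, hzΓ, hz⟩ := hΓ.ultrafilter_le_nhds (𝒰.map x) hmem
  have hzt : Tendsto x 𝒰 (𝓝 z) := hz
  have hsatz : sat T f s z := by
    intro k
    have t1 : Tendsto (fun n => (s k).2 * x n (T (f k))) 𝒰 (𝓝 ((s k).2 * z (T (f k)))) :=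
      (((WeakDual.eval_continuous (T (f k))).tendsto z).comp hzt).const_mul _
    refine ge_of_tendsto t1 ?_
    filter_upwards [hbad, hat (eventually_gt_atTop k)] with n hn hkn
    have h1 := (hx n hn).2.2.2.2.1 k
    have h2 : (s + Finsupp.single n (p n)) k = s k := by
      simp [hkn.ne']
    rw [h2] at h1
    exact h1
  have hns : ∀ᶠ n in atTop, n ∉ s.support := by
    filter_upwards [eventually_gt_atTop (s.support.sup id)] with n hn hnS
    exact absurd (Finset.le_sup (f := id) hnS) (not_le.2 hn)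
  have hΨt : Tendsto (fun n => Psi T f L s (x n)) 𝒰 (𝓝 (Psi T f L s z)) :=
    ((continuous_Psi T f L s).tendsto z).comp hzt
  by_cases hzD : z ∈ NoLq.Der ε Γ
  · have h1 := FV_le T f L hzD hsatz
    have h2 : Psi T f L s z ≤ FV T f L (NoLq.Der ε Γ) s - δ := by
      refine le_of_tendsto hΨt ?_
      filter_upwards [hbad, hat hns] with n hn hn2
      have h3 := (hx n hn).2.2.2.2.2
      rw [Psi_add_single T f L hn2] at h3
      have h4 := abs_nonneg (x n (gg T f L n (p n)))
      have h5 := min_le_right (FV T f L Γ s + q (p n)) (FV T f L (NoLq.Der ε Γ) s)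
      linarith
    linarith
  · have : ∃ O : Set (WeakDual ℝ W), IsOpen O ∧ z ∈ O ∧ ∀ a ∈ Γ ∩ O, ∀ b ∈ Γ ∩ O,
        ‖WeakDual.toStrongDual a - WeakDual.toStrongDual b‖ ≤ ε := by
      by_contra hcon'
      push Not at hcon'
      exact hzD ⟨hzΓ, hcon'⟩
    obtain ⟨O, hO, hzO, hOO⟩ := this
    have hFz := FV_le T f L hzΓ hsatz
    have hOev : ∀ᶠ n in (𝒰 : Filter ℕ), x n ∈ O := hzt (hO.mem_nhds hzO)
    have hlow : ∀ᶠ n in (𝒰 : Filter ℕ), Psi T f L s z - δ / 4 < Psi T f L s (x n) :=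
      (tendsto_order.1 hΨt).1 _ (by linarith)
    obtain ⟨n, hn1, hn2, hn3, hn4, hn5⟩ :=
      (hbad.and (hlow.and (hOev.and (((hW z (δ / 8) (by linarith)).filter_mono hat).and
        (hns.filter_mono hat))))).exists
    obtain ⟨ha0, ha1, hc1, hxΓ, hxs, hxΨ⟩ := hx n hn1
    rw [Psi_add_single T f L hn5] at hxΨ
    have hdist := hOO _ ⟨hxΓ, hn3⟩ _ ⟨hzΓ, hzO⟩
    set a := (p n).1 with ha
    set c := (p n).2 with hc
    have hM : 0 ≤ L * |c| := mul_nonneg hL (abs_nonneg c)
    set g := tr (L * |c|) (f n) with hg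
    have hz1 : |z (T (f n))| ≤ δ / 8 := hn4 (f n) fun _ => le_rfl
    have hz2 : |z (T (f n - g))| ≤ δ / 8 := hn4 (f n - g) fun t => tr_sub_le hM (f n) t
    -- the constraint at `n`
    have hsn : c ^ 2 ≤ c * x n (T (f n)) := by
      have h1 := hxs n
      have h2 : (s + Finsupp.single n (p n)) n = p n := by
        have : s n = 0 := Finsupp.notMem_support_iff.1 hn5
        simp [this]
      rw [h2] at h1
      exact h1
    have happ : ∀ v : W, x n v - z v =
        (WeakDual.toStrongDual (x n) - WeakDual.toStrongDual z) v := by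
      intro v
      rw [_root_.sub_apply, WeakDual.toStrongDual_apply, WeakDual.toStrongDual_apply]
    have hwg : |x n (T g) - z (T g)| ≤ |c| / 2 := by
      rw [happ]
      have h1 := (WeakDual.toStrongDual (x n) - WeakDual.toStrongDual z).le_opNorm (T g)
      have h2 := T.le_opNorm g
      have h3 : ‖g‖ ≤ L * |c| := norm_tr_le hM (f n)
      rw [Real.norm_eq_abs] at h1
      have h4 : ‖T g‖ ≤ ‖T‖ * (L * |c|) :=
        h2.trans (mul_le_mul_of_nonneg_left h3 (norm_nonneg _))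
      have h5 : ‖WeakDual.toStrongDual (x n) - WeakDual.toStrongDual z‖ * ‖T g‖ ≤
          ε * (‖T‖ * (L * |c|)) :=
        mul_le_mul hdist h4 (norm_nonneg _) hε
      have h6 : ε * (‖T‖ * (L * |c|)) = (ε * ‖T‖ * L) * |c| := by ring
      have h7 : (ε * ‖T‖ * L) * |c| ≤ 1 / 2 * |c| :=
        mul_le_mul_of_nonneg_right hεL (abs_nonneg c)
      linarith
    -- lower bound for `w (f n)`
    have hwf : |c| ≤ |x n (T (f n)) - z (T (f n))| + |z (T (f n))| := by
      have h1 : |c| ≤ |x n (T (f n))| := by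
        rcases eq_or_ne c 0 with h0 | h0
        · rw [h0, abs_zero]; exact abs_nonneg _
        · have h2 : |c| * |c| ≤ |c| * |x n (T (f n))| := by
            rw [← abs_mul c (x n (T (f n)))]
            have h3 : |c| * |c| = c ^ 2 := by rw [← abs_mul, ← sq, abs_of_nonneg (sq_nonneg c)]
            rw [h3]
            exact hsn.trans (le_abs_self _)
          exact le_of_mul_le_mul_left h2 (abs_pos.2 h0)
      have h4 : x n (T (f n)) = (x n (T (f n)) - z (T (f n))) + z (T (f n)) := by ring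
      calc |c| ≤ |x n (T (f n))| := h1
        _ = |(x n (T (f n)) - z (T (f n))) + z (T (f n))| := by rw [← h4]
        _ ≤ _ := abs_add_le _ _
    have hTs : T (f n - g) = T (f n) - T g := map_sub T _ _
    have hxs' : x n (T (f n - g)) = x n (T (f n)) - x n (T g) := by
      rw [hTs]; exact map_sub (x n) _ _
    have hzs' : z (T (f n - g)) = z (T (f n)) - z (T g) := by
      rw [hTs]; exact map_sub z _ _
    have hkey : |c| / 2 - δ / 4 ≤ |x n (T (f n - g))| := by
      have h1 : x n (T (f n)) - z (T (f n)) =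
          x n (T (f n - g)) + (x n (T g) - z (T g)) + (- z (T (f n - g))) := by
        rw [hxs', hzs']; ring
      have h2 : |x n (T (f n)) - z (T (f n))| ≤
          |x n (T (f n - g))| + |x n (T g) - z (T g)| + |z (T (f n - g))| := by
        rw [h1]
        refine (abs_add_le _ _).trans ?_
        rw [abs_neg]
        have := abs_add_le (x n (T (f n - g))) (x n (T g) - z (T g))
        linarith
      linarith
    have hgg : |x n (gg T f L n (p n))| = a * |x n (T (f n - g))| := by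
      have h1 : gg T f L n (p n) = a • T (f n - g) := by
        unfold gg
        rw [map_smul]
      rw [h1]
      have h2 : x n (a • T (f n - g)) = a * x n (T (f n - g)) := by
        rw [map_smul, smul_eq_mul]
      rw [h2, abs_mul, abs_of_nonneg ha0]
    rw [hgg] at hxΨ
    have hq : q (p n) = a * |c| / 2 := rfl
    rw [hq] at hxΨ
    have h8 : a * (|c| / 2 - δ / 4) ≤ a * |x n (T (f n - g))| :=
      mul_le_mul_of_nonneg_left hkey ha0
    have h9 : a * (δ / 4) ≤ 1 * (δ / 4) := mul_le_mul_of_nonneg_right ha1 (by linarith)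
    have h10 := min_le_left (FV T f L Γ s + a * |c| / 2) (FV T f L (NoLq.Der ε Γ) s)
    have h11 : a * (|c| / 2 - δ / 4) = a * |c| / 2 - a * (δ / 4) := by ring
    linarith

end Pool.UE
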