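import Pool.Agent.Work.MP_052a41_ue.Interface

set_option autoImplicit false

namespace Pool.UE

open Finset Filter Topology

private theorem ts_attain {K : Type} [MetricSpace K] [CompactSpace K] [Nonempty K]
    (g : C(K, ℝ)) : ∃ x, ‖g‖ = |g x| := by
  obtain ⟨x, -, hx⟩ := isCompact_univ.exists_isMaxOn (Set.univ_nonempty (α := K))
    ((continuous_abs.comp g.continuous).continuousOn (s := Set.univ))
  refine ⟨x, le_antisymm ?_ ?_⟩
  · refine (ContinuousMap.norm_le _ (abs_nonneg _)).2 (fun y => ?_)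
    exact hx (Set.mem_univ y)
  · exact g.norm_coe_le_norm x

private theorem ts_sum {K : Type} [MetricSpace K] [CompactSpace K] (f : ℕ → C(K, ℝ))
    (z : ℕ →₀ ℝ) (J : Finset ℕ) :
    ((res J z).sum fun n c => c • |f n|) = ∑ k ∈ J, z k • |f k| := by
  have hs : (res J z).support ⊆ J := by
    intro k hk
    rw [res, Finsupp.support_filter, Finset.mem_filter] at hk
    exact hk.2
  rw [Finsupp.sum_of_support_subset (res J z) hs (fun n c => c • |f n|)
    (fun i _ => zero_smul _ _)]
  refine Finset.sum_congr rfl (fun k hk => ?_)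
  rw [res, Finsupp.filter_apply_pos _ _ hk]

private theorem ts_eval {K : Type} [MetricSpace K] [CompactSpace K] (f : ℕ → C(K, ℝ))
    (z : ℕ →₀ ℝ) (J : Finset ℕ) (x : K) :
    (∑ k ∈ J, z k • |f k|) x = ∑ k ∈ J, z k * |f k x| := by
  rw [ContinuousMap.sum_apply]
  refine Finset.sum_congr rfl (fun k _ => ?_)
  rw [ContinuousMap.smul_apply, ContinuousMap.abs_apply, smul_eq_mul]

theorem blk_TS : Stmt_TS := by
  intro K _ _ f hf G hG hgr r κ η η₁ F 𝒥 z P hη₁ hp
  classical
  have hK : Nonempty K := by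
    by_contra h
    rw [not_nonempty_iff] at h
    have : f 0 = 0 := by
      ext x
      exact (h.false x).elim
    have h1 := hf 0
    rw [this, norm_zero] at h1
    exact zero_ne_one h1
  have hz0 : ∀ k, 0 ≤ z k := fun k => hp.z0 k
  have hP0 : ∀ k, 0 ≤ P k := fun k => hp.P0 k
  have hzF : ∀ k, k ∉ F → z k = 0 := by
    intro k hk
    by_contra h
    exact hk (hp.zs (Finsupp.mem_support_iff.2 h))
  -- the norm of z
  have hN : NN f z = ‖∑ k ∈ F, z k • |f k|‖ := by
    unfold NN
    exact congrArg norm (Finsupp.sum_of_support_subset z hp.zs (fun n c => c • |f n|)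
      (fun i _ => zero_smul _ _))
  have hN1 : ‖∑ k ∈ F, z k • |f k|‖ = 1 := by rw [← hN]; exact hp.Nz
  have hsumle : ∀ x, ∑ k ∈ F, z k * |f k x| ≤ 1 := by
    intro x
    rw [← ts_eval f z F x, ← hN1]
    refine (le_abs_self _).trans ?_
    rw [← Real.norm_eq_abs]
    exact ContinuousMap.norm_coe_le_norm _ x
  obtain ⟨h, hh⟩ := ts_attain (∑ k ∈ F, z k • |f k|)
  have hsum1 : ∑ k ∈ F, z k * |f k h| = 1 := by
    rw [hN1, ts_eval] at hh
    rw [hh, abs_of_nonneg]
    exact Finset.sum_nonneg (fun k _ => mul_nonneg (hz0 k) (abs_nonneg _))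
  have hz1 : ∀ k, z k ≤ 1 := by
    intro k
    by_cases hk : k ∈ F
    · obtain ⟨x, hx⟩ := ts_attain (f k)
      rw [hf k] at hx
      calc z k = z k * |f k x| := by rw [← hx, mul_one]
        _ ≤ ∑ j ∈ F, z j * |f j x| :=
          Finset.single_le_sum (f := fun j => z j * |f j x|)
            (fun j _ => mul_nonneg (hz0 j) (abs_nonneg _)) hk
        _ ≤ 1 := hsumle x
    · rw [hzF k hk]; exact zero_le_one
  have hv1 : ∀ k, |f k h| ≤ 1 := by
    intro k
    have := (f k).norm_coe_le_norm h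
    rw [hf k] at this
    exact this
  choose p hpG hp1 hp2 hp3 hp4 hp5 using fun k => hgr k (z k) (f k h) (hz0 k) (hz1 k) (hv1 k)
  have hp10 : ∀ k, 0 ≤ (p k).1 := fun k => ((hG k).2 (p k) (hpG k)).1
  -- the state
  let S : Finset ℕ := F.filter (fun k => η₁ * P k ≤ (p k).1 * |(p k).2|)
  let t : St := Finsupp.onFinset S (fun k => if k ∈ S then p k else 0) (by
    intro k hk
    by_contra hkS
    exact hk (if_neg hkS))
  have ht1 : ∀ k, k ∈ S → t k = p k := by
    intro k hk
    change (if k ∈ S then p k else 0) = p k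
    rw [if_pos hk]
  have ht0 : ∀ k, k ∉ S → t k = 0 := by
    intro k hk
    change (if k ∈ S then p k else 0) = 0
    rw [if_neg hk]
  refine ⟨h, t, ?_, ?_, ?_, ?_, ?_⟩
  · rw [Finset.mem_finsupp_iff]
    constructor
    · intro k hk
      rw [Finsupp.mem_support_iff] at hk
      by_contra hkF
      apply hk
      apply ht0
      intro hkS
      exact hkF (Finset.mem_filter.1 hkS).1
    · intro k hk
      by_cases hkS : k ∈ S
      · rw [ht1 k hkS]; exact hpG k
      · rw [ht0 k hkS]; exact (hG k).1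
  · intro k
    by_cases hkS : k ∈ S
    · rw [ht1 k hkS]; exact hp5 k
    · rw [ht0 k hkS]; simp
  · intro k
    by_cases hkS : k ∈ S
    · rw [ht1 k hkS]; exact hp1 k
    · rw [ht0 k hkS]; exact hz0 k
  · intro k
    by_cases hkS : k ∈ S
    · left; rw [ht1 k hkS]; exact (Finset.mem_filter.1 hkS).2
    · right; exact ht0 k hkS
  · intro J hJ
    have hJF : J ⊆ F := hp.Js J hJ
    have hJη : ∑ k ∈ J, z k * |f k h| ≤ η := by
      have h1 := hp.Fl J hJ
      rw [NN, ts_sum] at h1
      refine le_trans ?_ h1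
      rw [← ts_eval f z J h]
      refine (le_abs_self _).trans ?_
      rw [← Real.norm_eq_abs]
      exact ContinuousMap.norm_coe_le_norm _ h
    have hkey : ∀ k ∈ F, z k * |f k h| - 2 * (1 / 2 : ℝ) ^ (k + 8) - η₁ * P k ≤
        (t k).1 * |(t k).2| := by
      intro k hk
      have hb : z k * |f k h| - 2 * (1 / 2 : ℝ) ^ (k + 8) ≤ (p k).1 * |(p k).2| := by
        have e0 : (0 : ℝ) ≤ (1 / 2 : ℝ) ^ (k + 8) := by positivity
        have e1 := hp2 k
        have e2 := hp4 k
        have e3 : (p k).1 ≤ 1 := (hp1 k).trans (hz1 k)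
        have e4 : (z k - (p k).1) * |f k h| ≤ (1 / 2 : ℝ) ^ (k + 8) * 1 :=
          mul_le_mul e1 (hv1 k) (abs_nonneg _) e0
        have e5 : (p k).1 * (|f k h| - |(p k).2|) ≤ 1 * (1 / 2 : ℝ) ^ (k + 8) :=
          mul_le_mul e3 e2 (sub_nonneg.2 (hp3 k)) zero_le_one
        nlinarith
      by_cases hkS : k ∈ S
      · rw [ht1 k hkS]
        have := mul_nonneg hη₁.le (hP0 k)
        linarith
      · rw [ht0 k hkS]
        have h2 : ¬ (η₁ * P k ≤ (p k).1 * |(p k).2|) := fun h3 =>
          hkS (Finset.mem_filter.2 ⟨hk, h3⟩)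
        push Not at h2
        simp only [Prod.fst_zero, Prod.snd_zero, zero_mul]
        linarith
    have hgeo : ∑ k ∈ F, (1 / 2 : ℝ) ^ (k + 8) ≤ 1 / 128 := by
      have hsm : Summable (fun k : ℕ => (1 / 2 : ℝ) ^ (k + 8)) := by
        simp_rw [pow_add]
        exact (summable_geometric_two).mul_right _
      refine (hsm.sum_le_tsum F (fun k _ => by positivity)).trans ?_
      simp_rw [pow_add]
      rw [tsum_mul_right, tsum_geometric_two]
      norm_num
    have hPs : ∑ k ∈ F, P k = 1 := hp.Pm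
    have hsplit : ∑ k ∈ F \ J, (z k * |f k h|) = 1 - ∑ k ∈ J, z k * |f k h| := by
      have := Finset.sum_sdiff (f := fun k => z k * |f k h|) hJF
      linarith
    have h3 : ∑ k ∈ F \ J, (1 / 2 : ℝ) ^ (k + 8) ≤ 1 / 128 :=
      (Finset.sum_le_sum_of_subset_of_nonneg Finset.sdiff_subset
        (fun k _ _ => by positivity)).trans hgeo
    have h4 : ∑ k ∈ F \ J, P k ≤ 1 := by
      rw [← hPs]
      exact Finset.sum_le_sum_of_subset_of_nonneg Finset.sdiff_subset (fun k _ _ => hP0 k)
    have h5 : ∑ k ∈ F \ J, (z k * |f k h| - 2 * (1 / 2 : ℝ) ^ (k + 8) - η₁ * P k) ≤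
        ∑ k ∈ F \ J, (t k).1 * |(t k).2| :=
      Finset.sum_le_sum (fun k hk => hkey k (Finset.sdiff_subset hk))
    have h6 : ∑ k ∈ F \ J, q (t k) = (∑ k ∈ F \ J, (t k).1 * |(t k).2|) / 2 := by
      rw [Finset.sum_div]
      rfl
    rw [h6]
    rw [Finset.sum_sub_distrib, Finset.sum_sub_distrib, ← Finset.mul_sum, ← Finset.mul_sum,
      hsplit] at h5
    have h7 : η₁ * ∑ k ∈ F \ J, P k ≤ η₁ * 1 := mul_le_mul_of_nonneg_left h4 hη₁.le
    linarith

end Pool.UE
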