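import Pool.Agent.Work.MP_052a41_ue.Interface

set_option autoImplicit false

/-! # MP_052a41_an, upper estimates, block UB (helper44)

The upper bound for the potential of a test state. -/

namespace Pool.UE

open Finset Filter Topology

theorem UB_pt {K : Type} [MetricSpace K] [CompactSpace K] (f : ℕ → C(K, ℝ)) (a : ℕ →₀ ℝ)
    (ha : 0 ≤ a) (B : Finset ℕ) (s : K) : ∑ k ∈ B, a k * |f k s| ≤ NN f a := by
  classical
  have key : (a.sum fun n t => t • |f n|) s = a.sum fun n t => t * |f n s| := by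
    simp only [Finsupp.sum, ContinuousMap.coe_sum, Finset.sum_apply, ContinuousMap.coe_smul,
      Pi.smul_apply, smul_eq_mul, ContinuousMap.abs_apply]
  have h1 : (a.sum fun n t => t * |f n s|) = ∑ k ∈ B ∪ a.support, a k * |f k s| :=
    Finsupp.sum_of_support_subset a subset_union_right (fun n t => t * |f n s|) (by simp)
  have h2 : (a.sum fun n t => t • |f n|) s ≤ NN f a :=
    (le_abs_self _).trans (ContinuousMap.norm_coe_le_norm (a.sum fun n t => t • |f n|) s)
  rw [key, h1] at h2
  refine le_trans ?_ h2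
  exact Finset.sum_le_sum_of_subset_of_nonneg subset_union_left
    (fun i _ _ => mul_nonneg (ha i) (abs_nonneg _))

theorem UB_tr0 {K : Type} [MetricSpace K] [CompactSpace K] (f : C(K, ℝ)) (M : ℝ) (s : K)
    (h : |f s| ≤ M) : tr M f s = f s := by
  have h' := abs_le.1 h
  change max (-M) (min M (f s)) = f s
  rw [min_eq_right h'.2, max_eq_right h'.1]

theorem UB_tr1 {K : Type} [MetricSpace K] [CompactSpace K] (f : C(K, ℝ)) (M : ℝ) (hM : 0 ≤ M)
    (s : K) : |f s - tr M f s| ≤ |f s| := by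
  change |f s - max (-M) (min M (f s))| ≤ |f s|
  rcases le_total 0 (f s) with h | h
  · have h1 : max (-M) (min M (f s)) = min M (f s) :=
      max_eq_right (by have := le_min hM h; linarith)
    rw [h1, abs_of_nonneg (by linarith [min_le_right M (f s)]), abs_of_nonneg h]
    linarith [le_min hM h]
  · have h1 : min M (f s) = f s := min_eq_right (by linarith)
    rw [h1, abs_of_nonpos h, abs_of_nonpos (by linarith [le_max_right (-M) (f s)])]
    have h2 : max (-M) (f s) ≤ 0 := max_le (by linarith) h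
    linarith

theorem UB_sum {ι : Type} (S : Finset ι) (u : ι → ℝ) :
    ∃ σ : ι → ℝ, (∀ i, |σ i| ≤ 1) ∧ ∑ i ∈ S, |u i| = ∑ i ∈ S, σ i * u i := by
  classical
  refine ⟨fun i => if 0 ≤ u i then 1 else -1, fun i => ?_, ?_⟩
  · dsimp only
    split_ifs <;> simp
  · refine Finset.sum_congr rfl fun i _ => ?_
    dsimp only
    split_ifs with h
    · rw [abs_of_nonneg h, one_mul]
    · rw [abs_of_neg (not_le.1 h)]; ring

theorem blk_UB : Stmt_UB := by
  classical
  intro K _ _ W _ _ T f L hL r κ η η₁ F 𝒥 z P hη₁ hr hκ hp t htF ht1 ht2 x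
  have hr0 : 0 < r := by linarith
  have hLη : 0 < L * η₁ := mul_pos hL hη₁
  set M : ℝ := 2 * (1 / (L * η₁)) ^ (1 / r) + κ with hM
  have hM0 : 0 ≤ M := by
    have : 0 ≤ (1 / (L * η₁)) ^ (1 / r) := Real.rpow_nonneg (by positivity) _
    rw [hM]; linarith
  have hz0 : ∀ k, 0 ≤ z k := fun k => hp.z0 k
  have hP0 : ∀ k, 0 ≤ P k := fun k => hp.P0 k
  -- the pointwise estimate
  have hpt : ∀ s : K, ∑ k ∈ t.support, (t k).1 * |f k s - tr (L * |(t k).2|) (f k) s| ≤ M := by
    intro s
    set A := t.support.filter (fun k => L * |(t k).2| < |f k s|) with hA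
    have hAF : A ⊆ F := (Finset.filter_subset _ _).trans htF
    have e1 : ∑ k ∈ t.support, (t k).1 * |f k s - tr (L * |(t k).2|) (f k) s| =
        ∑ k ∈ A, (t k).1 * |f k s - tr (L * |(t k).2|) (f k) s| := by
      symm
      refine Finset.sum_subset (Finset.filter_subset _ _) fun k hk hkA => ?_
      have h : |f k s| ≤ L * |(t k).2| := by
        by_contra hcon
        exact hkA (Finset.mem_filter.2 ⟨hk, not_le.1 hcon⟩)
      rw [UB_tr0 _ _ _ h, sub_self, abs_zero, mul_zero]
    have e2 : ∑ k ∈ A, (t k).1 * |f k s - tr (L * |(t k).2|) (f k) s| ≤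
        ∑ k ∈ A, z k * |f k s| := by
      refine Finset.sum_le_sum fun k _ => ?_
      exact mul_le_mul (ht1 k).2 (UB_tr1 _ _ (by positivity) s) (abs_nonneg _) (hz0 k)
    have e3 : ∑ k ∈ A, z k * |f k s| ≤ NN f (res A z) := by
      have h := UB_pt f (res A z) (by
        intro k
        unfold res
        rw [Finsupp.filter_apply]
        split_ifs
        · exact hz0 k
        · exact le_rfl) A s
      refine le_trans (le_of_eq ?_) h
      refine Finset.sum_congr rfl fun k hk => ?_
      unfold res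
      rw [Finsupp.filter_apply, if_pos hk]
    have e4 : NN f (res A z) ≤ 2 * (mass P A) ^ (1 / r) + κ := hp.U A hAF
    have e5 : L * η₁ * mass P A ≤ 1 := by
      have h1 : L * η₁ * mass P A ≤ ∑ k ∈ A, z k * |f k s| := by
        unfold mass
        rw [Finset.mul_sum]
        refine Finset.sum_le_sum fun k hk => ?_
        have hk' := Finset.mem_filter.1 hk
        have hne : t k ≠ 0 := Finsupp.mem_support_iff.1 hk'.1
        have h3 : η₁ * P k ≤ (t k).1 * |(t k).2| := (ht2 k).resolve_right hne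
        have h4 : L * (η₁ * P k) ≤ L * ((t k).1 * |(t k).2|) :=
          mul_le_mul_of_nonneg_left h3 hL.le
        have h5 : (t k).1 * (L * |(t k).2|) ≤ z k * |f k s| :=
          mul_le_mul (ht1 k).2 hk'.2.le (by positivity) (hz0 k)
        nlinarith [h4, h5]
      have h2 : ∑ k ∈ A, z k * |f k s| ≤ NN f z := UB_pt f z hp.z0 A s
      rw [hp.Nz] at h2
      linarith
    have hm0 : 0 ≤ mass P A := Finset.sum_nonneg fun k _ => hP0 k
    have e6 : mass P A ≤ 1 / (L * η₁) := by
      rw [le_div_iff₀ hLη]; linarith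
    have e7 : (mass P A) ^ (1 / r) ≤ (1 / (L * η₁)) ^ (1 / r) :=
      Real.rpow_le_rpow hm0 e6 (by positivity)
    rw [e1, hM]
    linarith
  -- the functional
  obtain ⟨σ, hσ, hsum⟩ := UB_sum t.support (fun k => x (gg T f L k (t k)))
  set G : C(K, ℝ) := ∑ k ∈ t.support, σ k • ((t k).1 • (f k - tr (L * |(t k).2|) (f k))) with hG
  have hPsi : Psi T f L t x = x (T G) := by
    have h1 : Psi T f L t x = ∑ k ∈ t.support, |x (gg T f L k (t k))| := rfl
    rw [h1, hsum, hG, map_sum, map_sum]
    refine Finset.sum_congr rfl fun k _ => ?_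
    rw [map_smul, map_smul, smul_eq_mul]
    rfl
  have hGn : ‖G‖ ≤ M := by
    refine (ContinuousMap.norm_le _ hM0).2 fun s => ?_
    refine le_trans ?_ (hpt s)
    have h1 : G s = ∑ k ∈ t.support, σ k * ((t k).1 * (f k s - tr (L * |(t k).2|) (f k) s)) := by
      rw [hG]
      simp only [ContinuousMap.coe_sum, Finset.sum_apply, ContinuousMap.coe_smul,
        Pi.smul_apply, smul_eq_mul, ContinuousMap.coe_sub, Pi.sub_apply]
    rw [h1, Real.norm_eq_abs]
    refine (Finset.abs_sum_le_sum_abs _ _).trans (Finset.sum_le_sum fun k _ => ?_)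
    rw [abs_mul, abs_mul, abs_of_nonneg (ht1 k).1]
    have h2 : 0 ≤ (t k).1 * |f k s - tr (L * |(t k).2|) (f k) s| :=
      mul_nonneg (ht1 k).1 (abs_nonneg _)
    calc |σ k| * ((t k).1 * |f k s - tr (L * |(t k).2|) (f k) s|)
        ≤ 1 * ((t k).1 * |f k s - tr (L * |(t k).2|) (f k) s|) :=
          mul_le_mul_of_nonneg_right (hσ k) h2
      _ = _ := one_mul _
  rw [hPsi]
  have h1 : x (T G) ≤ ‖WeakDual.toStrongDual x‖ * ‖T G‖ := by
    have h := (WeakDual.toStrongDual x).le_opNorm (T G)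
    rw [Real.norm_eq_abs] at h
    exact (le_abs_self _).trans h
  have h2 : ‖T G‖ ≤ ‖T‖ * M := (T.le_opNorm G).trans (mul_le_mul_of_nonneg_left hGn (norm_nonneg _))
  calc x (T G) ≤ ‖WeakDual.toStrongDual x‖ * ‖T G‖ := h1
    _ ≤ ‖WeakDual.toStrongDual x‖ * (‖T‖ * M) := mul_le_mul_of_nonneg_left h2 (norm_nonneg _)
    _ = ‖WeakDual.toStrongDual x‖ * ‖T‖ * M := by ring

end Pool.UE
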