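import Pool.Agent.Work.MP_052a41_ue.Interface
import Pool.Agent.Work.MP_052a41_nc.B0

/-! Block WN (MP_052a41_an, upper estimates), written by helper40. -/

set_option autoImplicit false

namespace Pool.UE

open Finset Filter Topology MeasureTheory

theorem blk_WN : Stmt_WN := by
  intro K _ _ f hf hlim μ ρ hρ
  let _ : MeasurableSpace K := borel K
  have _ : BorelSpace K := ⟨rfl⟩
  obtain ⟨mp, mm, hmp, hmm, -, hrep⟩ := Pool.NC.B0 K μ
  have key : ∀ m : Measure K, IsFiniteMeasure m →
      Tendsto (fun n => ∫ s, |f n s| ∂m) atTop (𝓝 0) := by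
    intro m hm
    have h := tendsto_integral_of_dominated_convergence (μ := m)
      (F := fun n s => |f n s|) (f := fun _ => (0 : ℝ)) (fun _ => (1 : ℝ))
      (fun n => ((f n).continuous.abs).aestronglyMeasurable)
      (integrable_const _)
      (fun n => Eventually.of_forall fun s => by
        have h1 : ‖f n s‖ ≤ 1 := ((f n).norm_coe_le_norm s).trans (hf n)
        rw [Real.norm_eq_abs, abs_abs]
        rwa [Real.norm_eq_abs] at h1)
      (Eventually.of_forall fun s => by
        have := (hlim s).abs
        simpa using this)
    simpa using h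
  have h1 := key mp hmp
  have h2 := key mm hmm
  have h3 := h1.add h2
  rw [add_zero] at h3
  filter_upwards [h3.eventually (gt_mem_nhds hρ)] with n hn g hg
  rw [hrep g]
  have hint : ∀ m : Measure K, IsFiniteMeasure m → |∫ s, g s ∂m| ≤ ∫ s, |f n s| ∂m := by
    intro m hm
    refine (abs_integral_le_integral_abs).trans ?_
    refine integral_mono ?_ ?_ hg
    · exact (BoundedContinuousFunction.integrable m
        (BoundedContinuousFunction.mkOfCompact |g|))
    · exact (BoundedContinuousFunction.integrable m
        (BoundedContinuousFunction.mkOfCompact |f n|))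
  have h4 := hint mp hmp
  have h5 := hint mm hmm
  have h6 := abs_sub (∫ s, g s ∂mp) (∫ s, g s ∂mm)
  linarith

end Pool.UE
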