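import Pool.Agent.Work.MP_052a41_ue.Interface

set_option autoImplicit false

/-! # MP_052a41_an, upper estimates, block WS (helper17) -/

namespace Pool.UE

open Finset Filter Topology

theorem blk_WS : Stmt_WS := by
  intro E _ _ _ Y hY
  set d := TopologicalSpace.denseSeq (StrongDual ℝ E) with hd
  have step : ∀ n : ℕ, ∃ y : E, (y ∈ Y ∧ ‖y‖ = 1) ∧ ∀ i < n, d i y = 0 := by
    intro n
    let L : Y →ₗ[ℝ] (Fin n → ℝ) :=
      LinearMap.pi fun i => ((d i : StrongDual ℝ E).toLinearMap).comp Y.subtype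
    have hL : ¬ Function.Injective L := fun h => hY (FiniteDimensional.of_injective L h)
    have hk : LinearMap.ker L ≠ ⊥ := fun h => hL (LinearMap.ker_eq_bot.1 h)
    obtain ⟨x, hx, hx0⟩ := (Submodule.ne_bot_iff _).1 hk
    have hx0' : (x : E) ≠ 0 := fun h => hx0 (Subtype.ext h)
    have hn : ‖(x : E)‖ ≠ 0 := norm_ne_zero_iff.2 hx0'
    refine ⟨(‖(x : E)‖)⁻¹ • (x : E), ⟨Y.smul_mem _ x.2, ?_⟩, ?_⟩
    · rw [norm_smul, norm_inv, norm_norm, inv_mul_cancel₀ hn]
    · intro i hi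
      have h1 : L x = 0 := LinearMap.mem_ker.1 hx
      have h2 : d i (x : E) = 0 := by
        have := congrFun h1 ⟨i, hi⟩
        simpa [L] using this
      rw [map_smul, h2, smul_zero]
  choose y hy hyd using step
  refine ⟨y, hy, fun φ => ?_⟩
  rw [Metric.tendsto_atTop]
  intro ε hε
  obtain ⟨i, hi⟩ := (TopologicalSpace.denseRange_denseSeq (StrongDual ℝ E)).exists_dist_lt φ hε
  refine ⟨i + 1, fun n hn => ?_⟩
  rw [dist_zero_right]
  have h1 : φ (y n) = (φ - d i) (y n) := by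
    rw [sub_apply, hyd n i (by omega), sub_zero]
  rw [h1]
  calc ‖(φ - d i) (y n)‖ ≤ ‖φ - d i‖ * ‖y n‖ := ContinuousLinearMap.le_opNorm _ _
    _ = ‖φ - d i‖ := by rw [(hy n).2, mul_one]
    _ < ε := by rw [← dist_eq_norm]; exact hi

end Pool.UE
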