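import Mathlib
import Pool.Agent.Work.MP_052a41_ue.Interface

set_option autoImplicit false

/-! # Block ZO: the Zorn argument (helper89, after `NoLq.game` of helper68) -/

namespace Pool.UE

open Finset Filter Topology

theorem blk_ZO (h1 : Stmt_RT) (h2 : Stmt_RD) (h3 : Stmt_RC) : Stmt_ZO := by
  intro Λ _ N r0 G Fv D top hN hr0 hNU hG hD htop hF hstep hchain
  have hz := zorn_le₀ (α := Λᵒᵈ)
    {x : Λᵒᵈ | RR N r0 G Fv D top (OrderDual.ofDual x)} (by
    intro c hc hch
    rcases c.eq_empty_or_nonempty with rfl | hne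
    · exact ⟨OrderDual.toDual top, h1 Λ N r0 G Fv D top hN hr0 hG hD hF hstep, by simp⟩
    · have hch' : IsChain (· ≤ ·) (OrderDual.toDual ⁻¹' c) := by
        intro x hx y hy hxy
        rcases hch hx hy hxy with h | h
        · exact Or.inr h
        · exact Or.inl h
      obtain ⟨z, hz1, hz2⟩ := hchain (OrderDual.toDual ⁻¹' c) hch' hne
      refine ⟨OrderDual.toDual z, ?_, fun s hs => hz1 _ hs⟩
      exact h3 Λ N r0 G Fv D top z _ hch' hne hF hz2 (fun s hs => hc hs))
  obtain ⟨m, hm⟩ := hz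
  refine ⟨OrderDual.ofDual m, ?_, hm.prop⟩
  have e1 : RR N r0 G Fv D top (D (OrderDual.ofDual m)) :=
    h2 Λ N r0 G Fv D top (OrderDual.ofDual m) hN hr0 hNU hG hD htop hF hm.prop
  have e2 := hm.le_of_ge (y := OrderDual.toDual (D (OrderDual.ofDual m))) e1 (hD _)
  exact le_antisymm (hD _) e2

end Pool.UE
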