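import Mathlib
import Pool.Agent.Work.MP_052a41_ue.Interface
import Pool.Agent.Work.MP_052a41_ue.OPT
import Pool.Agent.Work.MP_052a41_ue.CLU
import Pool.Agent.Work.MP_052a41_ue.CLF
import Pool.Agent.Work.MP_052a41_ue.CL
import Pool.Agent.Work.MP_052a41_ue.NU
import Pool.Agent.Work.MP_052a41_ue.RT
import Pool.Agent.Work.MP_052a41_ue.SQ
import Pool.Agent.Work.MP_052a41_ue.SM
import Pool.Agent.Work.MP_052a41_ue.SJ
import Pool.Agent.Work.MP_052a41_ue.RD
import Pool.Agent.Work.MP_052a41_ue.RC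
import Pool.Agent.Work.MP_052a41_ue.ZO
import Pool.Agent.Work.MP_052a41_ue.WN
import Pool.Agent.Work.MP_052a41_ue.LT
import Pool.Agent.Work.MP_052a41_ue.ST
import Pool.Agent.Work.MP_052a41_ue.CH
import Pool.Agent.Work.MP_052a41_ue.GR
import Pool.Agent.Work.MP_052a41_ue.TS
import Pool.Agent.Work.MP_052a41_ue.UB
import Pool.Agent.Work.MP_052a41_ue.MA
import Pool.Agent.Work.MP_052a41_ue.WS
import Pool.Agent.Work.MP_052a41_ue.SG
import Pool.Agent.Work.MP_052a41_ue.AP

set_option autoImplicit false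

/-! # MP_052a41_an, upper estimates: assembly (helper50) -/

namespace Pool.UE

theorem all_RD : Stmt_RD :=
  blk_RD (blk_CL blk_OPT blk_CLU blk_CLF) blk_NU blk_SQ blk_SM blk_SJ

theorem all_MA : Stmt_MA :=
  blk_MA (blk_ZO blk_RT all_RD blk_RC) blk_ST blk_CH blk_GR blk_TS blk_UB blk_LT blk_WN

theorem main : Stmt_AP := blk_AP blk_WS all_MA blk_SG

end Pool.UE
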