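import Mathlib
import Pool.Agent.Work.MP_052a41_ue.Interface

set_option autoImplicit false

/-! # Block RC: the reaching property passes to limits of chains (helper89) -/

namespace Pool.UE

open Finset Filter Topology

/-- a nonempty chain contains one element which is good for all members of a finite set -/
theorem rc_common {Λ : Type} [PartialOrder Λ] (Fv : Λ → St → ℝ) (z : Λ) (c : Set Λ)
    (hc : IsChain (· ≤ ·) c) (hne : c.Nonempty)
    (hF : ∀ x y u, x ≤ y → Fv y u ≤ Fv x u)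
    (hz : ∀ u a, a < Fv z u → ∃ x ∈ c, a ≤ Fv x u) (δ : ℝ) (hδ : 0 < δ) (𝒮 : Finset St) :
    ∃ x ∈ c, ∀ u ∈ 𝒮, Fv z u - δ ≤ Fv x u := by
  classical
  induction 𝒮 using Finset.induction_on with
  | empty =>
    obtain ⟨x, hx⟩ := hne
    exact ⟨x, hx, by simp⟩
  | insert a s ha ih =>
    obtain ⟨x, hx, hxs⟩ := ih
    obtain ⟨y, hy, hya⟩ := hz a (Fv z a - δ) (by linarith)
    rcases hc.total hx hy with h | h
    · refine ⟨x, hx, ?_⟩
      intro u hu
      rcases Finset.mem_insert.1 hu with rfl | hu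
      · exact hya.trans (hF x y u h)
      · exact hxs u hu
    · refine ⟨y, hy, ?_⟩
      intro u hu
      rcases Finset.mem_insert.1 hu with rfl | hu
      · exact hya
      · exact (hxs u hu).trans (hF y x u h)

theorem blk_RC : Stmt_RC := by
  classical
  intro Λ _ N r0 G Fv D top z c hc hne hF hz hR r κ η δ hr hκ hη hδ N₀ 𝒮 𝒜
  obtain ⟨x, hx, hxu⟩ := rc_common Fv z c hc hne hF hz (δ / 2) (by linarith) 𝒮
  obtain ⟨F, 𝒥, y, P, hP, hN, hall⟩ := hR x hx r κ η (δ / 2) hr hκ hη (by linarith) N₀ 𝒮 𝒜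
  refine ⟨F, 𝒥, y, P, hP, hN, ?_⟩
  intro s hs t ht
  obtain ⟨⟨J, hJ, h1⟩, h2⟩ := hall s hs t ht
  refine ⟨⟨J, hJ, ?_⟩, ?_⟩
  · have h3 := hxu s hs
    have h4 : min (Fv z s) (Fv top s + ∑ k ∈ F \ J, q (t k)) - δ / 2 ≤
        min (Fv x s) (Fv top s + ∑ k ∈ F \ J, q (t k)) := by
      refine le_min ?_ ?_
      · have := min_le_left (Fv z s) (Fv top s + ∑ k ∈ F \ J, q (t k))
        linarith
      · have := min_le_right (Fv z s) (Fv top s + ∑ k ∈ F \ J, q (t k))
        linarith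
    linarith
  · intro Γ hΓ
    have := h2 Γ hΓ
    linarith

end Pool.UE
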